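import Pool.Agent.R639.NK.QV

/-! NK-ADM: admissible rows satisfy the hypotheses of `S_COMB` (helper45). -/

namespace NK639.ADM

open scoped BigOperators
open Finset

theorem sep_ofFn (k : ℕ) : ∀ (r : ℕ) (S : ℕ) (A : Fin r → ℕ),
    (∀ i l : Fin r, i < l → (S + ∑ j : Fin r, if j < i then A j else 0) + k ≤ A l ∧
      A i + k ≤ A l) →
    Sep k S (List.ofFn A) := by
  intro r
  induction r with
  | zero => intro S A _; simp [Sep]
  | succ r ih =>
    intro S A h
    rw [List.ofFn_succ]
    refine ⟨?_, ?_⟩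
    · intro y hy
      rw [List.mem_ofFn] at hy
      obtain ⟨l, rfl⟩ := hy
      have := h 0 l.succ (Fin.succ_pos l)
      simpa using this
    · refine ih (S + A 0) (fun i => A i.succ) ?_
      intro i l hil
      have h1 := h i.succ l.succ (Fin.succ_lt_succ_iff.mpr hil)
      rw [Fin.sum_univ_succ, if_pos (Fin.succ_pos i)] at h1
      simp only [Fin.succ_lt_succ_iff] at h1
      refine ⟨?_, h1.2⟩
      rw [add_assoc S]
      exact h1.1

/-- Partial sums. -/
def T {r : ℕ} (a : Fin r → ℤ) (i : Fin r) : ℤ := ∑ j : Fin r, if j < i then a j else 0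

theorem T_step {r : ℕ} (a : Fin r → ℤ) (ha : ∀ i, 0 ≤ a i) (i l : Fin r) (h : i < l) :
    T a i + a i ≤ T a l := by
  have h1 : a i = ∑ j : Fin r, if j = i then a j else 0 := by simp
  calc T a i + a i = ∑ j : Fin r, ((if j < i then a j else 0) + if j = i then a j else 0) := by
        rw [Finset.sum_add_distrib, ← h1]; rfl
    _ ≤ T a l := by
        refine Finset.sum_le_sum fun j _ => ?_
        by_cases h1 : j < i
        · have h2 : j ≠ i := h1.ne
          have h3 : j < l := h1.trans h
          simp [h1, h2, h3]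
        · by_cases h2 : j = i
          · subst h2
            simp [h]
          · simp only [h1, h2, if_false, add_zero]
            split_ifs
            · exact ha j
            · exact le_rfl

theorem T_ge {r : ℕ} (a : Fin (r + 1) → ℤ) (i : Fin (r + 1)) (hi : 0 < i)
    (ha : ∀ j, j < i → 0 ≤ a j) : a 0 ≤ T a i := by
  have h : (fun j : Fin (r + 1) => if j < i then a j else 0) 0 ≤ T a i := by
    refine Finset.single_le_sum (f := fun j : Fin (r + 1) => if j < i then a j else 0) ?_
      (Finset.mem_univ 0)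
    intro j _
    by_cases hj : j < i
    · simpa [hj] using ha j hj
    · simp [hj]
  simpa [hi] using h

theorem main : S_ADM := by
  intro r' L hL a hA s
  obtain ⟨hsum, h0, habs⟩ := hA
  obtain ⟨hmono, hqsum, hqdiv, hH4, hkH⟩ := QV.main r' L s hL
  have hK : (8 : ℤ) ≤ (kk r' L : ℤ) := by
    have : 8 ≤ kk r' L := by omega
    exact_mod_cast this
  set K : ℤ := (kk r' L : ℤ) with hKdef
  have hTdef : ∀ i : Fin (r' + 1), (∑ j : Fin (r' + 1), if j < i then a j else 0) = T a i :=
    fun i => rfl
  -- all entries are large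
  have hlarge : ∀ i : Fin (r' + 1), 8 * K ≤ a i := by
    have : ∀ m : ℕ, ∀ i : Fin (r' + 1), (i : ℕ) = m → 8 * K ≤ a i := by
      intro m
      induction m using Nat.strong_induction_on with
      | _ m ih =>
        intro i hi
        rcases Nat.eq_zero_or_pos (i : ℕ) with hi0 | hi0
        · have : i = 0 := Fin.ext hi0
          rw [this]
          linarith
        · have h1 := habs i hi0
          rw [hTdef] at h1
          have h2 : a 0 ≤ T a i := by
            refine T_ge a i (Fin.lt_def.mpr hi0) fun j hj => ?_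
            have := ih (j : ℕ) (by rw [← hi]; exact Fin.lt_def.mp hj) j rfl
            linarith
          have h3 := (abs_le.mp h1).1
          linarith
    exact fun i => this _ i rfl
  have hpos : ∀ i, 0 ≤ a i := fun i => le_trans (by linarith) (hlarge i)
  -- entries of q
  have hqlow : ∀ i, (4 : ℤ) ≤ qv r' L s i := by
    intro i
    have h1 : (4 : ℤ) ≤ (HH r' : ℤ) := by exact_mod_cast hH4
    exact h1.trans (hqdiv i).2
  have hqup : ∀ i, qv r' L s i ≤ K := by
    intro i
    rw [← hqsum]
    exact Finset.single_le_sum (f := qv r' L s) (fun j _ => by linarith [hqlow j])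
      (Finset.mem_univ i)
  set A : Fin (r' + 1) → ℕ := fun i => (a i).toNat with hAdef
  set Q : Fin (r' + 1) → ℕ := fun i => (qv r' L s i).toNat with hQdef
  have hAc : ∀ i, ((A i : ℕ) : ℤ) = a i := fun i => Int.toNat_of_nonneg (hpos i)
  have hQc : ∀ i, ((Q i : ℕ) : ℤ) = qv r' L s i :=
    fun i => Int.toNat_of_nonneg (by linarith [hqlow i])
  have hlist : A 0 :: List.ofFn (fun i : Fin r' => A i.succ) = List.ofFn A :=
    (List.ofFn_succ (f := A)).symm
  have hQsum : ((∑ i, Q i : ℕ) : ℤ) = (kk r' L : ℤ) := by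
    push_cast
    rw [← hKdef, ← hqsum]
    exact Finset.sum_congr rfl fun i _ => hQc i
  have hQsumN : (List.ofFn Q).sum = kk r' L := by
    rw [List.sum_ofFn]
    exact_mod_cast hQsum
  refine ⟨A 0, List.ofFn (fun i : Fin r' => A i.succ), List.ofFn Q, ?_, ?_, ?_, ?_, ?_, ?_, ?_,
    ?_, ?_⟩
  · rw [hlist, List.map_ofFn]
    congr 1
    funext i
    exact hAc i
  · rw [List.map_ofFn]
    congr 1
    funext i
    exact hQc i
  · have h1 : (3 : ℤ) ≤ (A 0 : ℤ) := by rw [hAc]; linarith
    exact_mod_cast h1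
  · intro x hx
    rw [List.mem_ofFn] at hx
    obtain ⟨i, rfl⟩ := hx
    have h1 : (3 : ℤ) ≤ (A i.succ : ℤ) := by rw [hAc]; linarith [hlarge i.succ]
    exact_mod_cast h1
  · intro y hy
    rw [List.mem_ofFn] at hy
    obtain ⟨i, rfl⟩ := hy
    have h1 : (3 : ℤ) ≤ (Q i : ℤ) := by rw [hQc]; linarith [hqlow i]
    exact_mod_cast h1
  · rw [List.pairwise_ofFn]
    intro i j hij
    have h1 : (Q i : ℤ) ≤ (Q j : ℤ) := by rw [hQc, hQc]; exact (hmono hij).le
    exact_mod_cast h1
  · intro x hx y hy
    rw [hlist, List.mem_ofFn] at hx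
    rw [List.mem_ofFn] at hy
    obtain ⟨i, rfl⟩ := hx
    obtain ⟨j, rfl⟩ := hy
    have h1 : (Q j : ℤ) ≤ (A i : ℤ) := by rw [hQc, hAc]; linarith [hlarge i, hqup j]
    exact_mod_cast h1
  · rw [hQsumN]
    refine sep_ofFn (kk r' L) r' (A 0) (fun i => A i.succ) ?_
    intro i l hil
    have hil' : i.succ < l.succ := Fin.succ_lt_succ_iff.mpr hil
    have hT : ((A 0 + ∑ j : Fin r', if j < i then A j.succ else 0 : ℕ) : ℤ) = T a i.succ := by
      unfold T
      rw [Fin.sum_univ_succ, if_pos (Fin.succ_pos i)]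
      push_cast
      rw [hAc]
      congr 1
      refine Finset.sum_congr rfl fun j _ => ?_
      simp only [Fin.succ_lt_succ_iff]
      split_ifs
      · exact hAc _
      · rfl
    have h1 := T_step a hpos i.succ l.succ hil'
    have h2 := (abs_le.mp (habs l.succ (by simp))).1
    rw [hTdef] at h2
    have h3 : a 0 ≤ T a i.succ := T_ge a i.succ (Fin.succ_pos i) fun j _ => hpos j
    constructor
    · have : (((A 0 + ∑ j : Fin r', if j < i then A j.succ else 0 : ℕ) : ℤ)) + (kk r' L : ℤ) ≤
          (A l.succ : ℤ) := by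
        rw [hT, hAc]
        linarith [hlarge i.succ]
      exact_mod_cast this
    · have : ((A i.succ : ℕ) : ℤ) + (kk r' L : ℤ) ≤ (A l.succ : ℤ) := by
        rw [hAc, hAc]
        linarith [hlarge i.succ]
      exact_mod_cast this
  · have h1 : (A 0 + (List.ofFn (fun i : Fin r' => A i.succ)).sum : ℕ) = ∑ i, A i := by
      rw [List.sum_ofFn, Fin.sum_univ_succ]
    rw [h1, hQsumN]
    have h2 : ((∑ i, A i + kk r' L : ℕ) : ℤ) = (nn r' L : ℤ) := by
      rw [← hsum]
      push_cast
      congr 1
      exact Finset.sum_congr rfl fun i _ => hAc i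
    exact_mod_cast h2

end NK639.ADM
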