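import Pool.Agent.R639.NK.St

namespace NK639

theorem assembly (hB : S_B) (hTAU : S_TAU) (hF : S_FORCE) (hLB : S_LB) (hG : S_GROW) :
    MainStatement := by
  intro p
  obtain ⟨r', L, hL, hn, hp⟩ := hG p
  obtain ⟨G, instG, ⟨W⟩⟩ := hB (nn r' L) hn
  refine ⟨G, instG, (hTAU _ G hn W).1, ⟨_, (hTAU _ G hn W).2⟩, ?_⟩
  intro N a ha
  obtain ⟨hN, hfor⟩ := hF _ G W hn N a ha
  subst hN
  exact ⟨L ^ r', hLB r' L hL G W a ha hfor, hp⟩

end NK639
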