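import Pool.Agent.R639.NK.St

set_option autoImplicit false

namespace NK639.B1

theorem co_mk (N i : ℕ) (hi : i < N) (p : Polynomial ℤ) :
    co N i (Ideal.Quotient.mk _ p) = p.coeff i := by
  unfold co
  set q : Polynomial ℤ := Quotient.out (Ideal.Quotient.mk
    (Ideal.span {(Polynomial.X : Polynomial ℤ) ^ N}) p) with hq
  have h1 : Ideal.Quotient.mk (Ideal.span {(Polynomial.X : Polynomial ℤ) ^ N}) q =
      Ideal.Quotient.mk (Ideal.span {(Polynomial.X : Polynomial ℤ) ^ N}) p :=
    Quotient.out_eq _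
  rw [Ideal.Quotient.eq, Ideal.mem_span_singleton, Polynomial.X_pow_dvd_iff] at h1
  have h2 := h1 i hi
  rw [Polynomial.coeff_sub] at h2
  omega

theorem mk_mem (N j : ℕ) (p : Polynomial ℤ) :
    (Ideal.Quotient.mk _ (Polynomial.X ^ j * p) : RR N) = xx N ^ j * Ideal.Quotient.mk _ p := by
  rw [map_mul, map_pow]
  rfl

theorem exists_rep (N j : ℕ) (y : RR N) (hy : y ∈ mm N j) :
    ∃ p : Polynomial ℤ, y = Ideal.Quotient.mk _ (Polynomial.X ^ j * p) := by
  unfold mm at hy
  rw [Ideal.mem_span_singleton] at hy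
  obtain ⟨c, hc⟩ := hy
  obtain ⟨p, rfl⟩ := Ideal.Quotient.mk_surjective c
  exact ⟨p, by rw [mk_mem, hc]⟩

theorem main : S_B1 := by
  intro N
  refine ⟨fun i hi p => co_mk N i hi p, ?_, ?_, ?_, ?_⟩
  · intro i hi y z
    obtain ⟨p, rfl⟩ := Ideal.Quotient.mk_surjective y
    obtain ⟨q, rfl⟩ := Ideal.Quotient.mk_surjective z
    rw [← map_add, co_mk N i hi, co_mk N i hi, co_mk N i hi, Polynomial.coeff_add]
  · intro j hj y
    constructor
    · intro hy i hi
      obtain ⟨p, rfl⟩ := exists_rep N j y hy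
      rw [co_mk N i (by omega), Polynomial.coeff_X_pow_mul', if_neg (by omega)]
    · intro h
      obtain ⟨p, rfl⟩ := Ideal.Quotient.mk_surjective y
      have h1 : Polynomial.X ^ j ∣ p := by
        rw [Polynomial.X_pow_dvd_iff]
        intro i hi
        rw [← co_mk N i (by omega) p]
        exact h i hi
      obtain ⟨q, rfl⟩ := h1
      rw [mk_mem]
      exact Ideal.mul_mem_right _ _ (Ideal.subset_span rfl)
  · intro a b hab y hy z hz
    obtain ⟨p, rfl⟩ := exists_rep N a y hy
    obtain ⟨q, rfl⟩ := exists_rep N b z hz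
    have e : (Polynomial.X ^ a * p) * (Polynomial.X ^ b * q) =
        (Polynomial.X : Polynomial ℤ) ^ (a + b) * (p * q) := by ring
    rw [← map_mul, e, co_mk N (a + b) hab, co_mk N a (by omega), co_mk N b (by omega)]
    have h1 : ∀ (k : ℕ) (u : Polynomial ℤ), (Polynomial.X ^ k * u).coeff k = u.coeff 0 := by
      intro k u
      have := Polynomial.coeff_X_pow_mul u k 0
      rwa [zero_add] at this
    rw [h1, h1, h1, Polynomial.mul_coeff_zero]
  · unfold mm
    rw [Ideal.span_singleton_eq_bot]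
    have h1 : xx N ^ N = Ideal.Quotient.mk _ (Polynomial.X ^ N) := by
      rw [map_pow]; rfl
    rw [h1, Ideal.Quotient.eq_zero_iff_mem]
    exact Ideal.subset_span rfl

end NK639.B1
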