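import Pool.Agent.R639.NK.St

set_option autoImplicit false

namespace NK639.B2

theorem dvd_sub (N : ℕ) (σ : RR N →ₐ[ℤ] RR N) (z : RR N) : σ (xx N) - xx N ∣ σ z - z := by
  obtain ⟨p, rfl⟩ := Ideal.Quotient.mk_surjective z
  have h1 : (Ideal.Quotient.mk _ p : RR N) = Polynomial.aeval (xx N) p := by
    have h2 := Polynomial.aeval_algHom_apply
      (Ideal.Quotient.mkₐ ℤ (Ideal.span {(Polynomial.X : Polynomial ℤ) ^ N})) Polynomial.X p
    rw [Polynomial.aeval_X_left_apply] at h2
    exact h2.symm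
  rw [h1, ← Polynomial.aeval_algHom_apply]
  have h3 := Polynomial.sub_dvd_eval_sub (σ (xx N)) (xx N) (p.map (algebraMap ℤ (RR N)))
  rwa [Polynomial.eval_map_algebraMap, Polynomial.eval_map_algebraMap] at h3

theorem pow_form {R : Type} [CommRing R] (x w : R) (i : ℕ) (hi : 1 ≤ i) (c : R → ℤ)
    (hadd : ∀ y z, c (y + z) = c y + c z) (h1 : c 1 = 1) (h0 : c 0 = 0)
    (hx : ∀ y, c (x * y) = 0) (j : ℕ) :
    ∃ S, (1 + x ^ i * w) ^ j = 1 + x ^ i * w * S ∧ c S = j := by
  obtain ⟨k, rfl⟩ : ∃ k, i = k + 1 := ⟨i - 1, by omega⟩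
  induction j with
  | zero => exact ⟨0, by simp, by simpa using h0⟩
  | succ j ih =>
    obtain ⟨S, hS, hc⟩ := ih
    refine ⟨(1 + x ^ (k + 1) * w) ^ j + S, ?_, ?_⟩
    · rw [pow_succ]
      have : (1 + x ^ (k + 1) * w) ^ j * (1 + x ^ (k + 1) * w) =
          (1 + x ^ (k + 1) * w) ^ j + (1 + x ^ (k + 1) * w) ^ j * (x ^ (k + 1) * w) := by ring
      rw [this]
      nth_rewrite 1 [hS]
      ring
    · rw [hadd, hc, hS, hadd, h1]
      have : x ^ (k + 1) * w * S = x * (x ^ k * w * S) := by ring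
      rw [this, hx]
      push_cast
      ring

theorem pow_form' {R : Type} [CommRing R] (x w : R) (i : ℕ) (j : ℕ) :
    ∃ S, (1 + x ^ i * w) ^ j = 1 + x ^ i * w * S := by
  induction j with
  | zero => exact ⟨0, by simp⟩
  | succ j ih =>
    obtain ⟨S, hS⟩ := ih
    refine ⟨(1 + x ^ i * w) ^ j + S, ?_⟩
    rw [pow_succ]
    have : (1 + x ^ i * w) ^ j * (1 + x ^ i * w) =
        (1 + x ^ i * w) ^ j + (1 + x ^ i * w) ^ j * (x ^ i * w) := by ring
    rw [this]
    nth_rewrite 1 [hS]
    ring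

theorem main (h : S_B1) : S_B2 := by
  intro N i j hi σ hσ y hy
  obtain ⟨hmk, hadd, hmem, hmul, hbot⟩ := h N
  obtain ⟨w, hw⟩ := Ideal.mem_span_singleton.mp hσ
  obtain ⟨z, hz⟩ := Ideal.mem_span_singleton.mp hy
  obtain ⟨t', ht'⟩ := dvd_sub N σ z
  have hx : σ (xx N) = xx N * (1 + xx N ^ i * w) := by
    have h1 : σ (xx N) = xx N + xx N ^ (i + 1) * w := by rw [← hw]; ring
    rw [h1]; ring
  have hsz : σ z = z + xx N ^ (i + 1) * (w * t') := by
    have h1 : σ z = z + xx N ^ (i + 1) * w * t' := by rw [← hw, ← ht']; ring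
    rw [h1]; ring
  have main' : ∀ S, (1 + xx N ^ i * w) ^ j = 1 + xx N ^ i * w * S →
      σ y - y = xx N ^ (i + j) * (xx N * (w * t') + w * S * σ z) := by
    intro S hS
    rw [hz, map_mul, map_pow, hx, mul_pow, hS]
    nth_rewrite 1 [hsz]
    have : xx N ^ j * (1 + xx N ^ i * w * S) * (z + xx N ^ (i + 1) * (w * t')) - xx N ^ j * z =
      xx N ^ j * (xx N ^ (i + 1) * (w * t') + xx N ^ i * w * S * (z + xx N ^ (i + 1) * (w * t')))
      := by ring
    rw [this, ← hsz]
    ring
  constructor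
  · obtain ⟨S, hS⟩ := pow_form' (xx N) w i j
    rw [main' S hS]
    exact Ideal.mul_mem_right _ _ (Ideal.subset_span rfl)
  · intro hij
    have hN : 1 ≤ N := by omega
    have htop : ∀ u : RR N, u ∈ mm N 0 := by
      intro u
      rw [hmem 0 (by omega)]
      intro i hi
      omega
    have c1 : co N 0 (1 : RR N) = 1 := by
      have := hmk 0 (by omega) 1
      rw [map_one] at this
      rw [this]
      simp
    have c0 : co N 0 (0 : RR N) = 0 := by
      have := hmk 0 (by omega) 0
      rw [map_zero] at this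
      rw [this]
      simp
    have cx : ∀ u : RR N, co N 0 (xx N * u) = 0 := by
      intro u
      have h1 : xx N * u ∈ mm N 1 := by
        unfold mm
        rw [pow_one]
        exact Ideal.mul_mem_right _ _ (Ideal.subset_span rfl)
      exact (hmem 1 hN _).mp h1 0 (by omega)
    have cmul : ∀ u v : RR N, co N 0 (u * v) = co N 0 u * co N 0 v := fun u v =>
      hmul 0 0 (by omega) u (htop u) v (htop v)
    have cpow : ∀ k, k < N → ∀ u : RR N, co N k (xx N ^ k * u) = co N 0 u := by
      intro k hk u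
      have h1 := hmul k 0 (by omega) (xx N ^ k) (Ideal.subset_span rfl) u (htop u)
      rw [add_zero] at h1
      rw [h1]
      have h2 : co N k (xx N ^ k) = 1 := by
        have h3 := hmk k hk (Polynomial.X ^ k)
        rw [map_pow] at h3
        change co N k (xx N ^ k) = _ at h3
        rw [h3, Polynomial.coeff_X_pow_self]
      rw [h2, one_mul]
    obtain ⟨S, hS, hcS⟩ := pow_form (xx N) w i hi (co N 0) (fun y z => hadd 0 (by omega) y z) c1 c0
      cx j
    rw [main' S hS, cpow (i + j) hij, hadd 0 (by omega), cx, cmul, cmul, hcS, hsz,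
      hadd 0 (by omega), hz, hw]
    have h2 : co N 0 (xx N ^ (i + 1) * (w * t')) = 0 := by
      rw [pow_succ', mul_assoc]
      exact cx _
    rw [h2, cpow j (by omega)]
    rcases Nat.eq_zero_or_pos j with hj | hj
    · subst hj
      simp
    · rw [cpow (i + 1) (by omega)]
      ring

end NK639.B2
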