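import Pool.Agent.R639.NK.St

/-!
# Piece B3 (problem MP_41a35f_al): the truncated substitution group has `WData`
-/

namespace NK639.B3

open scoped BigOperators

theorem mm_anti {N i j : ℕ} (h : i ≤ j) : mm N j ≤ mm N i := by
  unfold mm
  rw [Ideal.span_le, Set.singleton_subset_iff]
  have e : xx N ^ j = xx N ^ (j - i) * xx N ^ i := by
    rw [← pow_add, Nat.sub_add_cancel h]
  rw [e]
  exact Ideal.mul_mem_left _ _ (Ideal.subset_span rfl)

theorem xx_mem (N : ℕ) : xx N ∈ mm N 1 := by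
  unfold mm
  rw [pow_one]
  exact Ideal.subset_span rfl

theorem mm_zero (N : ℕ) (y : RR N) : y ∈ mm N 0 := by
  unfold mm
  rw [pow_zero, Ideal.span_singleton_one]
  trivial

theorem mem_bot_of {N j : ℕ} (hb : mm N N = ⊥) (h : N ≤ j) {y : RR N} (hy : y ∈ mm N j) :
    y = 0 := by
  have := mm_anti h hy
  rw [hb] at this
  exact (Submodule.mem_bot _).1 this

section act
variable (h2 : S_B2) {N : ℕ}
include h2

theorem act_mem {i j : ℕ} (hi : 1 ≤ i) (σ : RR N →ₐ[ℤ] RR N)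
    (hσ : σ (xx N) - xx N ∈ mm N (i + 1)) {y : RR N} (hy : y ∈ mm N j) :
    σ y - y ∈ mm N (i + j) := (h2 N i j hi σ hσ y hy).1

theorem act_co {i j : ℕ} (hi : 1 ≤ i) (σ : RR N →ₐ[ℤ] RR N)
    (hσ : σ (xx N) - xx N ∈ mm N (i + 1)) {y : RR N} (hy : y ∈ mm N j) (hN : i + j < N) :
    co N (i + j) (σ y - y) = (j : ℤ) * co N j y * co N (i + 1) (σ (xx N) - xx N) :=
  (h2 N i j hi σ hσ y hy).2 hN

theorem pres {j : ℕ} (σ : RR N →ₐ[ℤ] RR N) (hσ : σ (xx N) - xx N ∈ mm N 2) {y : RR N}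
    (hy : y ∈ mm N j) : σ y ∈ mm N j := by
  have h := act_mem h2 le_rfl σ hσ hy
  have h' := Ideal.add_mem _ (mm_anti (by omega : j ≤ 1 + j) h) hy
  rwa [sub_add_cancel] at h'

theorem surj (hb : mm N N = ⊥) (σ : RR N →ₐ[ℤ] RR N) (hσ : σ (xx N) - xx N ∈ mm N 2) :
    ∀ k j : ℕ, N ≤ j + k → ∀ z ∈ mm N j, ∃ w ∈ mm N j, σ w = z := by
  intro k
  induction k with
  | zero =>
    intro j hj z hz
    have := mem_bot_of hb hj hz
    subst this
    exact ⟨0, Ideal.zero_mem _, map_zero _⟩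
  | succ k ih =>
    intro j hj z hz
    have h := act_mem h2 le_rfl σ hσ hz
    obtain ⟨w, hw, hw'⟩ := ih (1 + j) (by omega) _ h
    refine ⟨z - w, Ideal.sub_mem _ hz (mm_anti (by omega) hw), ?_⟩
    rw [map_sub, hw']
    ring

theorem inj (hb : mm N N = ⊥) (σ : RR N →ₐ[ℤ] RR N) (hσ : σ (xx N) - xx N ∈ mm N 2)
    (w : RR N) (hw : σ w = 0) : w = 0 := by
  have key : ∀ j : ℕ, w ∈ mm N j := by
    intro j
    induction j with
    | zero => exact mm_zero N w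
    | succ j ih =>
      have h := act_mem h2 le_rfl σ hσ ih
      rw [hw, zero_sub] at h
      have h' := Ideal.neg_mem_iff _ |>.1 h
      rwa [add_comm] at h'
  exact mem_bot_of hb le_rfl (key N)

theorem symm_pres (hb : mm N N = ⊥) (σ : RR N ≃ₐ[ℤ] RR N) (hσ : σ (xx N) - xx N ∈ mm N 2)
    {j : ℕ} {z : RR N} (hz : z ∈ mm N j) : σ.symm z ∈ mm N j := by
  obtain ⟨w, hw, hw'⟩ := surj h2 hb (σ : RR N →ₐ[ℤ] RR N) hσ N j (by omega) z hz
  have : σ w = z := hw'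
  rw [← this, AlgEquiv.symm_apply_apply]
  exact hw

end act

/-- The group of automorphisms `x ↦ x + …`. -/
noncomputable def GG (h2 : S_B2) (N : ℕ) (hb : mm N N = ⊥) : Subgroup (RR N ≃ₐ[ℤ] RR N) where
  carrier := {σ | σ (xx N) - xx N ∈ mm N 2}
  one_mem' := by
    show (1 : RR N ≃ₐ[ℤ] RR N) (xx N) - xx N ∈ mm N 2
    rw [AlgEquiv.one_apply, sub_self]
    exact Ideal.zero_mem _
  mul_mem' := by
    intro σ τ hσ hτ
    show (σ * τ) (xx N) - xx N ∈ mm N 2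
    have e : (σ * τ) (xx N) - xx N = σ (τ (xx N) - xx N) + (σ (xx N) - xx N) := by
      rw [AlgEquiv.mul_apply, map_sub]
      ring
    rw [e]
    exact Ideal.add_mem _ (pres h2 (σ : RR N →ₐ[ℤ] RR N) hσ hτ) hσ
  inv_mem' := by
    intro σ hσ
    show σ.symm (xx N) - xx N ∈ mm N 2
    have e : σ.symm (xx N) - xx N = - σ.symm (σ (xx N) - xx N) := by
      rw [map_sub, AlgEquiv.symm_apply_apply]
      ring
    rw [e]
    exact Ideal.neg_mem_iff _ |>.2 (symm_pres h2 hb σ hσ hσ)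

/-- The filtration. -/
noncomputable def GF (h2 : S_B2) (N : ℕ) (hb : mm N N = ⊥) (i : ℕ) : Subgroup (GG h2 N hb) where
  carrier := {σ | σ.1 (xx N) - xx N ∈ mm N (i + 1)}
  one_mem' := by
    show (1 : RR N ≃ₐ[ℤ] RR N) (xx N) - xx N ∈ mm N (i + 1)
    rw [AlgEquiv.one_apply, sub_self]
    exact Ideal.zero_mem _
  mul_mem' := by
    intro σ τ hσ hτ
    show (σ.1 * τ.1) (xx N) - xx N ∈ mm N (i + 1)
    have e : (σ.1 * τ.1) (xx N) - xx N = σ.1 (τ.1 (xx N) - xx N) + (σ.1 (xx N) - xx N) := by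
      rw [AlgEquiv.mul_apply, map_sub]
      ring
    rw [e]
    exact Ideal.add_mem _ (pres h2 (σ.1 : RR N →ₐ[ℤ] RR N) σ.2 hτ) hσ
  inv_mem' := by
    intro σ hσ
    show σ.1.symm (xx N) - xx N ∈ mm N (i + 1)
    have e : σ.1.symm (xx N) - xx N = - σ.1.symm (σ.1 (xx N) - xx N) := by
      rw [map_sub, AlgEquiv.symm_apply_apply]
      ring
    rw [e]
    exact Ideal.neg_mem_iff _ |>.2 (symm_pres h2 hb σ.1 σ.2 hσ)

theorem ext_del_mul {G : Type} [Group G] (F : G → ℚ) (p : G) (u : MonoidAlgebra ℚ G) :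
    ext F (del p * u) = ext (fun g => F (p * g) - F g) u := by
  have h : (ext F).comp (LinearMap.mulLeft ℚ (del p)) = ext (fun g => F (p * g) - F g) := by
    apply LinearMap.toAddMonoidHom_injective
    apply MonoidAlgebra.addMonoidHom_ext
    intro m r
    show ext F (del p * MonoidAlgebra.single m r) =
      ext (fun g => F (p * g) - F g) (MonoidAlgebra.single m r)
    rw [← MonoidAlgebra.smul_of, mul_smul_comm, map_smul, map_smul, ext_of]
    congr 1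
    unfold del
    rw [sub_mul, one_mul, ← map_mul, map_sub, ext_of, ext_of]
  exact congrArg (fun f => f u) h

/-- the operator `∏ (σ_s - 1)` -/
noncomputable def opL {N : ℕ} {H : Subgroup (RR N ≃ₐ[ℤ] RR N)} : List (ℕ × H) → RR N → RR N
  | [], y => y
  | p :: L, y => p.2.1 (opL L y) - opL L y

theorem ext_prod {N : ℕ} {H : Subgroup (RR N ≃ₐ[ℤ] RR N)} (y : RR N) (L : List (ℕ × H)) :
    ∀ φ : RR N →+ ℤ, ext (fun g : H => ((φ (g.1 y) : ℤ) : ℚ)) ((L.map fun p => del p.2).prod) =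
      ((φ (opL L y) : ℤ) : ℚ) := by
  induction L with
  | nil =>
    intro φ
    rw [List.map_nil, List.prod_nil, ext_one]
    rfl
  | cons p L ih =>
    intro φ
    rw [List.map_cons, List.prod_cons, ext_del_mul]
    have := ih (φ.comp ((p.2.1 : RR N →+ RR N) - AddMonoidHom.id _))
    have e : (fun g : H => ((φ ((p.2 * g).1 y) : ℤ) : ℚ) - ((φ (g.1 y) : ℤ) : ℚ)) =
        fun g : H => (((φ.comp ((p.2.1 : RR N →+ RR N) - AddMonoidHom.id _)) (g.1 y) : ℤ) : ℚ) := by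
      funext g
      rw [← Int.cast_sub, ← map_sub]
      rfl
    rw [e, this]
    rfl

theorem comm_aux (h2 : S_B2) {N : ℕ} (hb : mm N N = ⊥) (σ τ : GG h2 N hb) :
    ∃ u : RR N, u ∈ mm N 1 ∧ u - xx N ∈ mm N 2 ∧
      (σ * τ * σ⁻¹ * τ⁻¹).1 (xx N) - xx N =
        (σ.1 (τ.1 u - u) - (τ.1 u - u)) - (τ.1 (σ.1 u - u) - (σ.1 u - u)) := by
  have hu2 : ((τ * σ)⁻¹).1 (xx N) - xx N ∈ mm N 2 := ((τ * σ)⁻¹).2
  refine ⟨((τ * σ)⁻¹).1 (xx N), ?_, hu2, ?_⟩
  · have := Ideal.add_mem _ (mm_anti (by omega : 1 ≤ 2) hu2) (xx_mem N)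
    rwa [sub_add_cancel] at this
  · have e1 : σ.1 (τ.1 (((τ * σ)⁻¹).1 (xx N))) = (σ * τ * σ⁻¹ * τ⁻¹).1 (xx N) := by
      have : σ * τ * σ⁻¹ * τ⁻¹ = σ * (τ * (τ * σ)⁻¹) := by group
      rw [this]
      rfl
    have e2 : τ.1 (σ.1 (((τ * σ)⁻¹).1 (xx N))) = xx N := by
      have : τ * (σ * (τ * σ)⁻¹) = 1 := by group
      calc τ.1 (σ.1 (((τ * σ)⁻¹).1 (xx N))) = (τ * (σ * (τ * σ)⁻¹)).1 (xx N) := rfl
        _ = xx N := by rw [this]; rfl
    rw [map_sub, map_sub, e1, e2]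
    ring

theorem main (h1 : S_B1) (h2 : S_B2) : S_B := by
  intro n hn
  obtain ⟨hco, hadd, hmem, -, hb⟩ := h1 (n + 2)
  set N := n + 2 with hN
  -- the additive coordinate maps
  let φ : ℕ → RR N →+ ℤ := fun k => if hk : k < N then AddMonoidHom.mk' (co N k) (hadd k hk) else 0
  have hφ : ∀ k, k < N → ∀ y, φ k y = co N k y := by
    intro k hk y
    show (if hk : k < N then AddMonoidHom.mk' (co N k) (hadd k hk) else 0) y = _
    rw [dif_pos hk]
    rfl
  have hφ0 : ∀ k j, k < N → k < j → ∀ y ∈ mm N j, φ k y = 0 := by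
    intro k j hk hkj y hy
    rw [hφ k hk]
    have : y ∈ mm N (k + 1) := mm_anti hkj hy
    exact (hmem (k + 1) (by omega) y).1 this k (by omega)
  have hcox : ∀ k, k < N → φ k (xx N) = if k = 1 then 1 else 0 := by
    intro k hk
    rw [hφ k hk]
    unfold xx
    rw [hco k hk, Polynomial.coeff_X]
    by_cases h : k = 1
    · subst h; simp
    · rw [if_neg h, if_neg (fun h' => h h'.symm)]
  refine ⟨GG h2 N hb, inferInstance, ⟨{
    Gi := GF h2 N hb
    lead := fun i g => φ (i + 1) (g.1 (xx N) - xx N)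
    c := fun i g => φ (i + 1) (g.1 (xx N) - xx N)
    Gi_one := ?_
    Gi_anti := ?_
    Gi_bot := ?_
    lead_mul := ?_
    lead_zero := ?_
    lead_surj := ?_
    comm_mem := ?_
    comm_lead := ?_
    c_lead := fun i _ _ x _ => rfl
    c_pol := ?_ }⟩⟩
  · rw [eq_top_iff]
    intro σ _
    exact σ.2
  · intro i _ σ hσ
    exact mm_anti (by omega : i + 1 ≤ i + 1 + 1) hσ
  · intro i hi
    rw [eq_bot_iff]
    intro σ hσ
    have h0 : σ.1 (xx N) - xx N = 0 := mem_bot_of hb (by omega) (show _ ∈ mm N (i + 1) from hσ)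
    have h1' : σ.1 (xx N) = xx N := sub_eq_zero.1 h0
    rw [Subgroup.mem_bot]
    apply Subtype.ext
    apply AlgEquiv.ext
    intro y
    have e : (σ.1 : RR N →ₐ[ℤ] RR N) = AlgHom.id ℤ (RR N) := by
      apply Ideal.Quotient.algHom_ext
      apply Polynomial.algHom_ext
      exact h1'
    exact congrArg (fun f : RR N →ₐ[ℤ] RR N => f y) e
  · intro i hi hin σ hσ τ hτ
    have e : (σ * τ).1 (xx N) - xx N = ((σ.1 : RR N →ₐ[ℤ] RR N) (τ.1 (xx N) - xx N) -
        (τ.1 (xx N) - xx N)) + (τ.1 (xx N) - xx N) + (σ.1 (xx N) - xx N) := by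
      show σ.1 (τ.1 (xx N)) - xx N = (σ.1 (τ.1 (xx N) - xx N) -
        (τ.1 (xx N) - xx N)) + (τ.1 (xx N) - xx N) + (σ.1 (xx N) - xx N)
      rw [map_sub]
      ring
    show φ (i + 1) ((σ * τ).1 (xx N) - xx N) = _
    have hz : φ (i + 1) ((σ.1 : RR N →ₐ[ℤ] RR N) (τ.1 (xx N) - xx N) -
        (τ.1 (xx N) - xx N)) = 0 :=
      hφ0 (i + 1) (1 + (i + 1)) (by omega) (by omega) _
        (act_mem h2 le_rfl (σ.1 : RR N →ₐ[ℤ] RR N) σ.2 hτ)
    rw [e, map_add, map_add, hz, zero_add, add_comm]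
  · intro i hi hin σ hσ
    show φ (i + 1) (σ.1 (xx N) - xx N) = 0 ↔ σ.1 (xx N) - xx N ∈ mm N (i + 1 + 1)
    constructor
    · intro h
      rw [hmem (i + 1 + 1) (by omega)]
      intro k hk
      by_cases hki : k = i + 1
      · subst hki
        rw [← hφ _ (by omega)]
        exact h
      · exact (hmem (i + 1) (by omega) _).1 hσ k (by omega)
    · intro h
      exact hφ0 (i + 1) (i + 1 + 1) (by omega) (by omega) _ h
  · intro i hi hin
    have hxi : ∀ k, xx N ^ k ∈ mm N k := fun k => Ideal.subset_span rfl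
    have hlift : ∀ p ∈ Ideal.span {(Polynomial.X : Polynomial ℤ) ^ N},
        Polynomial.aeval (xx N + xx N ^ (i + 1)) p = 0 := by
      intro p hp
      obtain ⟨q, rfl⟩ := Ideal.mem_span_singleton'.1 hp
      rw [map_mul, map_pow, Polynomial.aeval_X]
      have : xx N + xx N ^ (i + 1) = (1 + xx N ^ i) * xx N := by ring
      rw [this, mul_pow]
      have h0 : xx N ^ N = 0 := mem_bot_of hb le_rfl (hxi N)
      rw [h0, mul_zero, mul_zero]
    let σ : RR N →ₐ[ℤ] RR N := Ideal.Quotient.liftₐ _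
      (Polynomial.aeval (xx N + xx N ^ (i + 1)) : Polynomial ℤ →ₐ[ℤ] RR N) hlift
    have hσx : σ (xx N) = xx N + xx N ^ (i + 1) := by
      show Polynomial.aeval (xx N + xx N ^ (i + 1)) (Polynomial.X : Polynomial ℤ) = _
      rw [Polynomial.aeval_X]
    have hσx' : σ (xx N) - xx N = xx N ^ (i + 1) := by
      rw [hσx]; ring
    have hσ2 : σ (xx N) - xx N ∈ mm N 2 := by
      rw [hσx']
      exact mm_anti (by omega) (hxi (i + 1))
    let e : RR N ≃ₐ[ℤ] RR N := AlgEquiv.ofBijective σ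
      ⟨(injective_iff_map_eq_zero σ).2 (inj h2 hb σ hσ2), fun z => by
        obtain ⟨w, -, hw⟩ := surj h2 hb σ hσ2 N 0 (by omega) z (mm_zero N z)
        exact ⟨w, hw⟩⟩
    refine ⟨⟨e, hσ2⟩, ?_, ?_⟩
    · show σ (xx N) - xx N ∈ mm N (i + 1)
      rw [hσx']
      exact hxi (i + 1)
    · show φ (i + 1) (σ (xx N) - xx N) = 1
      rw [hσx', hφ _ (by omega)]
      have : xx N ^ (i + 1) = Ideal.Quotient.mk _ ((Polynomial.X : Polynomial ℤ) ^ (i + 1)) := by
        rw [map_pow]; rfl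
      rw [this, hco _ (by omega), Polynomial.coeff_X_pow, if_pos rfl]
  · intro i j hi hj σ hσ τ hτ
    rw [show i + j = i + j from rfl]
    obtain ⟨u, hu1, -, hu⟩ := comm_aux h2 hb σ τ
    show (σ * τ * σ⁻¹ * τ⁻¹).1 (xx N) - xx N ∈ mm N (i + j + 1)
    rw [hu]
    have z1 := act_mem h2 hj (τ.1 : RR N →ₐ[ℤ] RR N) hτ hu1
    have z2 := act_mem h2 hi (σ.1 : RR N →ₐ[ℤ] RR N) hσ hu1
    have w1 := act_mem h2 hi (σ.1 : RR N →ₐ[ℤ] RR N) hσ z1
    have w2 := act_mem h2 hj (τ.1 : RR N →ₐ[ℤ] RR N) hτ z2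
    refine Ideal.sub_mem _ (mm_anti (by omega) w1) (mm_anti (by omega) w2)
  · intro i j hi hj hij σ hσ τ hτ
    obtain ⟨u, hu1, hu2, hu⟩ := comm_aux h2 hb σ τ
    show φ (i + j + 1) ((σ * τ * σ⁻¹ * τ⁻¹).1 (xx N) - xx N) =
      ((j : ℤ) - i) * φ (i + 1) (σ.1 (xx N) - xx N) * φ (j + 1) (τ.1 (xx N) - xx N)
    have hcu : co N 1 u = 1 := by
      have := hφ0 1 2 (by omega) (by omega) _ hu2
      rw [map_sub, hcox 1 (by omega), if_pos rfl, sub_eq_zero, hφ 1 (by omega)] at this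
      exact this
    have z1 := act_mem h2 hj (τ.1 : RR N →ₐ[ℤ] RR N) hτ hu1
    have z2 := act_mem h2 hi (σ.1 : RR N →ₐ[ℤ] RR N) hσ hu1
    have c1 := act_co h2 hj (τ.1 : RR N →ₐ[ℤ] RR N) hτ hu1 (by omega)
    have c2 := act_co h2 hi (σ.1 : RR N →ₐ[ℤ] RR N) hσ hu1 (by omega)
    have w1 := act_co h2 hi (σ.1 : RR N →ₐ[ℤ] RR N) hσ z1 (by omega)
    have w2 := act_co h2 hj (τ.1 : RR N →ₐ[ℤ] RR N) hτ z2 (by omega)
    rw [c1, hcu] at w1
    rw [c2, hcu] at w2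
    rw [hu, map_sub, hφ _ (by omega), hφ _ (by omega), hφ _ (by omega), hφ _ (by omega)]
    have a1 : i + (j + 1) = i + j + 1 := by ring
    have a2 : j + (i + 1) = i + j + 1 := by ring
    rw [a1] at w1
    rw [a2] at w2
    have w1' : co N (i + j + 1) (σ.1 (τ.1 u - u) - (τ.1 u - u)) = _ := w1
    have w2' : co N (i + j + 1) (τ.1 (σ.1 u - u) - (σ.1 u - u)) = _ := w2
    rw [w1', w2']
    have s1 : (σ.1 : RR N →ₐ[ℤ] RR N) (xx N) = σ.1 (xx N) := rfl
    have s2 : (τ.1 : RR N →ₐ[ℤ] RR N) (xx N) = τ.1 (xx N) := rfl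
    rw [s1, s2]
    push_cast
    ring
  · intro i hi hin L hL hw
    have e : (fun g : GG h2 N hb => ((φ (i + 1) (g.1 (xx N) - xx N) : ℤ) : ℚ)) =
        fun g : GG h2 N hb => ((φ (i + 1) (g.1 (xx N)) : ℤ) : ℚ) := by
      funext g
      rw [map_sub, hcox (i + 1) (by omega), if_neg (by omega), sub_zero]
    rw [e, ext_prod]
    have key : ∀ L : List (ℕ × GG h2 N hb), (∀ p ∈ L, 1 ≤ p.1 ∧ p.2 ∈ GF h2 N hb p.1) →
        opL L (xx N) ∈ mm N ((L.map Prod.fst).sum + 1) := by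
      intro L
      induction L with
      | nil => intro _; simpa [opL] using xx_mem N
      | cons p L ih =>
        intro hL
        have h := ih (fun q hq => hL q (List.mem_cons_of_mem _ hq))
        obtain ⟨hp1, hp2⟩ := hL p List.mem_cons_self
        have := act_mem h2 hp1 (p.2.1 : RR N →ₐ[ℤ] RR N) hp2 h
        rw [List.map_cons, List.sum_cons, add_assoc]
        exact this
    rw [hφ0 (i + 1) _ (by omega) (by exact_mod_cast (by omega)) _ (key L hL), Int.cast_zero]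

end NK639.B3
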