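import Pool.Agent.R639.NK.St

/-! BRIDGE (helper451): list form versus functional form -/

namespace NK639.BRIDGE

open scoped BigOperators

lemma base_ofFn : ∀ (r : ℕ) (B : ℤ) (b : Fin r → ℤ),
    base B (List.ofFn b) = ∏ i : Fin r, max (B + (∑ j : Fin r, if j < i then b j else 0) - b i) 0 := by
  intro r
  induction r with
  | zero => intro B b; simp [base]
  | succ r ih =>
    intro B b
    rw [List.ofFn_succ, Fin.prod_univ_succ]
    show max (B - b 0) 0 * base (B + b 0) (List.ofFn fun i => b i.succ) = _
    rw [ih]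
    congr 1
    · congr 1
      have h1 : ∑ j : Fin (r + 1), (if j < 0 then b j else 0) = 0 := by
        apply Finset.sum_eq_zero
        intro j _
        rw [if_neg (Fin.not_lt_zero j)]
      rw [h1, add_zero]
    · apply Finset.prod_congr rfl
      intro i _
      congr 2
      rw [Fin.sum_univ_succ, if_pos (Fin.succ_pos i), add_assoc]
      congr 2
      apply Finset.sum_congr rfl
      intro j _
      simp only [Fin.succ_lt_succ_iff]

lemma base_baseF (r : ℕ) (a : Fin (r + 1) → ℤ) :
    base (a 0) (List.ofFn fun i : Fin r => a i.succ) = baseF a := by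
  rw [base_ofFn]
  unfold baseF
  rw [Fin.prod_univ_succ]
  simp only [Fin.val_zero, if_true, one_mul]
  apply Finset.prod_congr rfl
  intro i _
  have h1 : ((i.succ : Fin (r + 1)) : ℕ) ≠ 0 := by simp
  rw [if_neg h1, Fin.sum_univ_succ, if_pos (Fin.succ_pos i)]
  simp only [Fin.succ_lt_succ_iff]

lemma getD_ofFn {n : ℕ} (a : Fin n → ℤ) (i : Fin n) : (List.ofFn a).getD i 0 = a i := by
  rw [List.getD_eq_getElem _ _ (by simp)]
  simp

lemma set_ofFn {n : ℕ} (a : Fin n → ℤ) (i : Fin n) (x : ℤ) :
    (List.ofFn a).set i x = List.ofFn (Function.update a i x) := by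
  apply List.ext_getElem
  · simp
  · intro k h1 h2
    rw [List.getElem_set, List.getElem_ofFn, List.getElem_ofFn, Function.update_apply]
    by_cases h : (i : ℕ) = k
    · rw [if_pos h, if_pos (Fin.ext h.symm)]
    · rw [if_neg h, if_neg (fun h' => h (by rw [← h']))]

theorem main : S_BRIDGE := by
  intro r a q
  induction q generalizing a with
  | nil =>
    rw [PhiF, ← base_baseF, List.ofFn_succ]
    rfl
  | cons q qs ih =>
    rw [PhiF]
    have h1 : Phi (List.ofFn a) (q :: qs) = ∑ i ∈ Finset.range (List.ofFn a).length,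
      ((List.ofFn a).getD i 0 - q) * Phi ((List.ofFn a).set i ((List.ofFn a).getD i 0 + q)) qs := by
      rw [Phi]
    rw [h1, List.length_ofFn, Finset.sum_range]
    apply Finset.sum_congr rfl
    intro i _
    rw [getD_ofFn, set_ofFn, ih]

end NK639.BRIDGE
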