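import Pool.Agent.R639.NK.St

set_option autoImplicit false

namespace NK639.CEN

theorem anti_le {n : ℕ} {G : Type} [Group G] (W : WData n G) (i k : ℕ) (hi : 1 ≤ i) :
    W.Gi (i + k) ≤ W.Gi i := by
  induction k with
  | zero => exact le_rfl
  | succ k ih => exact (W.Gi_anti (i + k) (by omega)).trans ih

theorem main : S_CEN := by
  intro n G _ W i hi3 hin x hx
  have key : ∀ l, 1 ≤ l → l ≤ i → x ∈ W.Gi l := by
    intro l hl
    induction l, hl using Nat.le_induction with
    | base =>
      intro _
      rw [W.Gi_one]
      exact Subgroup.mem_top x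
    | succ l hl ih =>
      intro hli
      have hxl := ih (by omega)
      rw [← W.lead_zero l hl (by omega) x hxl]
      by_cases h2 : i = 2 * l
      · -- i = 2 l
        obtain ⟨y, hy, hy1⟩ := W.lead_surj (l - 1) (by omega) (by omega)
        have h3 := W.comm_lead l (l - 1) hl (by omega) (by omega) x hxl y hy
        have h4 := W.comm_mem l (l - 1) hl (by omega) x hxl y hy
        have h5 : (x * y * x⁻¹ * y⁻¹) ∈ W.Gi (l + (l - 1) + 1) := by
          have h6 := hx y
          have h7 : i + 1 = (l + (l - 1) + 1) + 1 := by omega
          rw [h7] at h6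
          exact W.Gi_anti _ (by omega) h6
        rw [(W.lead_zero (l + (l - 1)) (by omega) (by omega) _ h4).mpr h5, hy1] at h3
        have h8 : ((l - 1 : ℕ) : ℤ) = (l : ℤ) - 1 := by omega
        rw [h8] at h3
        have h9 : ((l : ℤ) - 1 - l) * W.lead l x * 1 = - W.lead l x := by ring
        rw [h9] at h3
        omega
      · obtain ⟨y, hy, hy1⟩ := W.lead_surj (i - l) (by omega) (by omega)
        have e : l + (i - l) = i := by omega
        have h3 := W.comm_lead l (i - l) hl (by omega) (by omega) x hxl y hy
        have h4 := W.comm_mem l (i - l) hl (by omega) x hxl y hy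
        rw [e] at h3 h4
        rw [(W.lead_zero i (by omega) hin _ h4).mpr (hx y), hy1, mul_one] at h3
        rcases mul_eq_zero.mp h3.symm with h5 | h5
        · exfalso
          omega
        · exact h5
  exact key i (by omega) le_rfl

end NK639.CEN
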