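import Pool.Agent.R639.NK.St

/-!
# Piece COMB of the project on MP_41a35f_al
-/

namespace NK639.COMB

open NK639 Finset

theorem sep_mono (k q : ℕ) : ∀ (L : List ℕ) (S S' : ℕ), S' ≤ S + q → Sep (k + q) S L →
    Sep k S' L := by
  intro L
  induction L with
  | nil => intro S S' _ _; trivial
  | cons x L ih =>
    intro S S' hS h
    obtain ⟨h1, h2⟩ := h
    refine ⟨?_, ?_⟩
    · intro y hy
      have := h1 y hy
      omega
    · exact ih (S + x) (S' + x) (by omega) h2

theorem mem_set_getD (L : List ℕ) (i q y : ℕ) (hy : y ∈ L.set i (L.getD i 0 + q)) :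
    ∃ z ∈ L, z ≤ y := by
  rcases Nat.lt_or_ge i L.length with hi | hi
  · rcases List.mem_or_eq_of_mem_set hy with h | h
    · exact ⟨y, h, le_refl _⟩
    · refine ⟨L.getD i 0, ?_, by omega⟩
      rw [List.getD_eq_getElem _ _ hi]
      exact List.getElem_mem hi
  · rw [List.set_eq_of_length_le hi] at hy
    exact ⟨y, hy, le_refl _⟩

theorem sep_set (k q : ℕ) : ∀ (L : List ℕ) (S i : ℕ), Sep (k + q) S L →
    Sep k S (L.set i (L.getD i 0 + q)) := by
  intro L
  induction L with
  | nil => intro S i _; simp [Sep]
  | cons x L ih =>
    intro S i h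
    obtain ⟨h1, h2⟩ := h
    cases i with
    | zero =>
      simp only [List.getD_cons_zero, List.set_cons_zero]
      refine ⟨?_, ?_⟩
      · intro y hy
        have := h1 y hy
        omega
      · exact sep_mono k q L (S + x) (S + (x + q)) (by omega) h2
    | succ j =>
      simp only [List.getD_cons_succ, List.set_cons_succ]
      refine ⟨?_, ?_⟩
      · intro y hy
        obtain ⟨z, hz, hzy⟩ := mem_set_getD L j q y hy
        have := h1 z hz
        omega
      · exact ih (S + x) j h2

theorem sum_set_getD (L : List ℕ) (i q : ℕ) (hi : i < L.length) :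
    (L.set i (L.getD i 0 + q)).sum = L.sum + q := by
  induction L generalizing i with
  | nil => simp at hi
  | cons x L ih =>
    cases i with
    | zero =>
      simp only [List.getD_cons_zero, List.set_cons_zero, List.sum_cons]
      omega
    | succ j =>
      simp only [List.getD_cons_succ, List.set_cons_succ, List.sum_cons]
      rw [ih j (by simpa using hi)]
      omega

theorem insert_letter {n : ℕ} {Λ : List ℕ → ℚ} (hΛ : LamRules n Λ) (q : ℕ) (post : List ℕ)
    (A : List ℕ) : ∀ pre : List ℕ, (∀ x ∈ pre ++ A ++ q :: post, 3 ≤ x) →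
      (pre ++ A ++ q :: post).sum = n →
      Λ (pre ++ A ++ q :: post) = Λ (pre ++ q :: (A ++ post)) +
        ∑ i ∈ range A.length, ((A.getD i 0 : ℕ) - (q : ℚ)) *
          Λ (pre ++ A.set i (A.getD i 0 + q) ++ post) := by
  induction A with
  | nil =>
    intro pre _ _
    simp
  | cons a A ih =>
    intro pre h3 hsum
    have h1 := ih (pre ++ [a]) (by
      intro x hx
      apply h3
      simpa using hx) (by
      rw [← hsum]
      simp)
    have h2 := hΛ.r1 pre a q (A ++ post) (by
      intro x hx
      apply h3
      simp only [List.mem_append, List.mem_cons] at hx ⊢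
      tauto) (by
      rw [← hsum]
      simp only [List.sum_append, List.sum_cons]
      omega)
    have e1 : pre ++ (a :: A) ++ q :: post = pre ++ [a] ++ A ++ q :: post := by simp
    have e2 : pre ++ [a] ++ q :: (A ++ post) = pre ++ a :: q :: (A ++ post) := by simp
    rw [e1, h1, e2, h2]
    rw [List.length_cons, Finset.sum_range_succ']
    have e3 : ∀ i ∈ range A.length, (((a :: A).getD (i + 1) 0 : ℕ) - (q : ℚ)) *
          Λ (pre ++ (a :: A).set (i + 1) ((a :: A).getD (i + 1) 0 + q) ++ post) =
        ((A.getD i 0 : ℕ) - (q : ℚ)) * Λ (pre ++ [a] ++ A.set i (A.getD i 0 + q) ++ post) := by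
      intro i _
      simp
    rw [Finset.sum_congr rfl e3]
    have e4 : (((a :: A).getD 0 0 : ℕ) - (q : ℚ)) *
          Λ (pre ++ (a :: A).set 0 ((a :: A).getD 0 0 + q) ++ post) =
        ((a : ℚ) - q) * Λ (pre ++ (a + q) :: (A ++ post)) := by
      simp
    rw [e4]
    have e5 : pre ++ q :: (a :: A ++ post) = pre ++ q :: a :: (A ++ post) := by simp
    rw [e5]
    ring

theorem main (h0 : S_COMB0) : S_COMB := by
  intro n Λ hΛ a1 rest q
  induction q generalizing a1 rest with
  | nil =>
    intro ha1 hrest _ _ _ hsep hsum
    have := h0 n Λ hΛ a1 rest ha1 hrest (by simpa using hsep) (by simpa using hsum)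
    simpa [Phi] using this
  | cons q1 qs ih =>
    intro ha1 hrest hq hpw hle hsep hsum
    have hq1 : 3 ≤ q1 := hq q1 (by simp)
    have hqs : ∀ y ∈ qs, 3 ≤ y := fun y hy => hq y (by simp [hy])
    rw [List.pairwise_cons] at hpw
    obtain ⟨hpw1, hpw2⟩ := hpw
    have hsum' : a1 + rest.sum + (q1 + qs.sum) = n := by simpa using hsum
    have hins := insert_letter hΛ q1 qs (a1 :: rest) [] (by
      intro x hx
      simp only [List.nil_append, List.mem_append, List.mem_cons] at hx
      rcases hx with (h | h) | h | h
      · omega
      · exact hrest x h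
      · omega
      · exact hqs x h) (by
      simp only [List.nil_append, List.sum_append, List.sum_cons]
      omega)
    simp only [List.nil_append] at hins
    have hz : Λ (q1 :: ((a1 :: rest) ++ qs)) = 0 := by
      apply hΛ.r0 q1 ((a1 :: rest) ++ qs) (by simp) hq1
      · intro x hx
        simp only [List.mem_append] at hx
        rcases hx with h | h
        · exact hle x h q1 (by simp)
        · exact hpw1 x h
      · simp only [List.sum_append, List.sum_cons]
        omega
    rw [hins, hz, zero_add]
    have hterm : ∀ i ∈ range (a1 :: rest).length,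
        (((a1 :: rest).getD i 0 : ℕ) - (q1 : ℚ)) *
          Λ ((a1 :: rest).set i ((a1 :: rest).getD i 0 + q1) ++ qs) =
        (((a1 :: rest).getD i 0 : ℕ) - (q1 : ℚ)) * (Λ [n] *
          (Phi (((a1 :: rest).set i ((a1 :: rest).getD i 0 + q1)).map (fun x : ℕ => (x : ℤ)))
            (qs.map (fun x : ℕ => (x : ℤ))) : ℤ)) := by
      intro i hi
      congr 1
      have hi' : i < (a1 :: rest).length := Finset.mem_range.1 hi
      have hsumset := sum_set_getD (a1 :: rest) i q1 hi'
      have hmem : ∀ y ∈ (a1 :: rest).set i ((a1 :: rest).getD i 0 + q1),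
          ∃ z ∈ a1 :: rest, z ≤ y := fun y hy => mem_set_getD _ _ _ _ hy
      have hall3 : ∀ z ∈ a1 :: rest, 3 ≤ z := by
        intro z hz
        simp only [List.mem_cons] at hz
        rcases hz with h | h
        · omega
        · exact hrest z h
      have hsepset : ∀ (b1 : ℕ) (rest' : List ℕ),
          (a1 :: rest).set i ((a1 :: rest).getD i 0 + q1) = b1 :: rest' →
          Sep qs.sum b1 rest' := by
        intro b1 rest' hb
        have hsep2 : Sep (qs.sum + q1) a1 rest := by
          have : (q1 :: qs).sum = qs.sum + q1 := by
            simp only [List.sum_cons]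
            omega
          rw [← this]
          exact hsep
        cases i with
        | zero =>
          simp only [List.getD_cons_zero, List.set_cons_zero, List.cons.injEq] at hb
          obtain ⟨hb1, hb2⟩ := hb
          subst hb1 hb2
          exact sep_mono qs.sum q1 rest a1 (a1 + q1) (le_refl _) hsep2
        | succ j =>
          simp only [List.getD_cons_succ, List.set_cons_succ, List.cons.injEq] at hb
          obtain ⟨hb1, hb2⟩ := hb
          subst hb1 hb2
          exact sep_set qs.sum q1 rest a1 j hsep2
      generalize hB : (a1 :: rest).set i ((a1 :: rest).getD i 0 + q1) = B at *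
      cases B with
      | nil =>
        exfalso
        have := congrArg List.length hB
        simp at this
      | cons b1 rest' =>
        have hx := ih b1 rest' (by
            obtain ⟨z, hz1, hz2⟩ := hmem b1 (by simp)
            have := hall3 z hz1
            omega) (by
            intro x hx
            obtain ⟨z, hz1, hz2⟩ := hmem x (by simp [hx])
            have := hall3 z hz1
            omega) hqs hpw2 (by
            intro x hx y hy
            obtain ⟨z, hz1, hz2⟩ := hmem x hx
            have := hle z hz1 y (by simp [hy])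
            omega) (hsepset b1 rest' rfl) (by
            simp only [List.sum_cons] at hsumset
            omega)
        exact hx
    rw [Finset.sum_congr rfl hterm]
    have hPhi : Phi ((a1 :: rest).map (fun x : ℕ => (x : ℤ)))
        ((q1 :: qs).map (fun x : ℕ => (x : ℤ))) =
        ∑ i ∈ range (a1 :: rest).length, (((a1 :: rest).getD i 0 : ℕ) - (q1 : ℤ)) *
          Phi (((a1 :: rest).set i ((a1 :: rest).getD i 0 + q1)).map (fun x : ℕ => (x : ℤ)))
            (qs.map (fun x : ℕ => (x : ℤ))) := by
      have hgd : ∀ i, ((a1 :: rest).map (fun x : ℕ => (x : ℤ))).getD i 0 =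
          (((a1 :: rest).getD i 0 : ℕ) : ℤ) := by
        intro i
        have := List.getD_map (l := a1 :: rest) (d := 0) (n := i) (fun x : ℕ => (x : ℤ))
        simpa using this
      rw [List.map_cons (l := qs)]
      rw [Phi]
      rw [List.length_map]
      apply Finset.sum_congr rfl
      intro i _
      rw [hgd]
      congr 2
      rw [List.map_set]
      push_cast
      rfl
    rw [hPhi]
    push_cast
    rw [Finset.mul_sum]
    apply Finset.sum_congr rfl
    intro i _
    ring

end NK639.COMB
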