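import Pool.Agent.R639.NK.St

/-!
# Piece COMB0 of the project on MP_41a35f_al
-/

namespace NK639.COMB0

open NK639

theorem main : S_COMB0 := by
  intro n Λ hΛ b1 rest
  induction rest generalizing b1 with
  | nil =>
    intro _ _ _ hsum
    have hb : b1 = n := by simpa using hsum
    subst hb
    simp [base]
  | cons x L ih =>
    intro hb1 hrest hsep hsum
    have hx3 : 3 ≤ x := hrest x (by simp)
    have hL3 : ∀ y ∈ L, 3 ≤ y := fun y hy => hrest y (by simp [hy])
    obtain ⟨hle, hsep'⟩ := hsep
    have hsum' : b1 + (x + L.sum) = n := by simpa using hsum
    rcases Nat.lt_or_ge x b1 with hlt | hge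
    · have h1 := hΛ.r1 [] b1 x L (by
        intro y hy
        simp only [List.nil_append, List.mem_cons] at hy
        rcases hy with h | h | h
        · omega
        · omega
        · exact hL3 y h) (by simpa using hsum)
      have h0 : Λ (x :: b1 :: L) = 0 := hΛ.r0 x (b1 :: L) (by simp) hx3 (by
        intro y hy
        simp only [List.mem_cons] at hy
        rcases hy with h | h
        · omega
        · have := (hle y h).2
          omega) (by simp only [List.sum_cons]; omega)
      have h2 := ih (b1 + x) (by omega) hL3 hsep' (by omega)
      simp only [List.nil_append] at h1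
      rw [h1, h0, h2]
      have hm : max ((b1 : ℤ) - (x : ℤ)) 0 = (b1 : ℤ) - x := by
        apply max_eq_left
        have : (x : ℤ) < b1 := by exact_mod_cast hlt
        omega
      simp only [List.map_cons, base, hm]
      push_cast
      ring
    · have h0 : Λ (b1 :: x :: L) = 0 := hΛ.r0 b1 (x :: L) (by simp) hb1 (by
        intro y hy
        simp only [List.mem_cons] at hy
        rcases hy with h | h
        · omega
        · have := (hle y h).1
          omega) (by simpa using hsum)
      have hm : max ((b1 : ℤ) - (x : ℤ)) 0 = 0 := by
        apply max_eq_right
        have : (b1 : ℤ) ≤ x := by exact_mod_cast hge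
        omega
      simp only [List.map_cons, base, hm]
      rw [h0]
      simp

end NK639.COMB0
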