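import Mathlib

/-!
# Nickel's embedding of torsion-free nilpotent groups (problem MP_41a35f_al): definitions
-/

namespace NK639

open scoped BigOperators

/-- A `τ`-group: a finitely generated torsion-free nilpotent group. -/
structure IsTauGroup (G : Type) [Group G] : Prop where
  fg : Group.FG G
  nilpotent : Group.IsNilpotent G
  torsionFree : ∀ g : G, ∀ m : ℕ, 0 < m → g ^ m = 1 → g = 1

/-- The subgroup generated by the `a j` with `i ≤ j`. -/
def tailSub {G : Type} [Group G] {N : ℕ} (a : Fin N → G) (i : ℕ) : Subgroup G :=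
  Subgroup.closure {g | ∃ j : Fin N, i ≤ (j : ℕ) ∧ a j = g}

/-- The product `a_1^{x_1} ⋯ a_N^{x_N}` (in this order). -/
def mprod {G : Type} [Group G] {N : ℕ} (a : Fin N → G) (x : Fin N → ℤ) : G :=
  (List.ofFn fun i => a i ^ x i).prod

/-- Mal'cev bases: every element has exactly one expression `a_1^{x_1} ⋯ a_N^{x_N}`, and the
subgroups `G_i = ⟨a_i, …, a_N⟩` form a central series. -/
structure IsMalcevBasis {G : Type} [Group G] {N : ℕ} (a : Fin N → G) : Prop where
  unique_expr : ∀ g : G, ∃! x : Fin N → ℤ, mprod a x = g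
  central : ∀ i : ℕ, ⁅tailSub a i, (⊤ : Subgroup G)⁆ ≤ tailSub a (i + 1)

/-- The coordinates of `g` with respect to a Mal'cev basis. -/
noncomputable def coord {G : Type} [Group G] {N : ℕ} (a : Fin N → G) (ha : IsMalcevBasis a)
    (g : G) : Fin N → ℤ := (ha.unique_expr g).choose

/-- Nickel's module `M(a)`: the `ℚ`-span of all translates `h ↦ t_i (h g⁻¹)` of the coordinate
functions, i.e. the `G`-submodule of the functions `G → ℚ` generated by `t_1, …, t_N`. -/
noncomputable def nickelModule {G : Type} [Group G] {N : ℕ} (a : Fin N → G)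
    (ha : IsMalcevBasis a) : Submodule ℚ (G → ℚ) :=
  Submodule.span ℚ {f | ∃ (i : Fin N) (g : G), f = fun h => ((coord a ha (h * g⁻¹) i : ℤ) : ℚ)}

/-- The main theorem: the answer to Q1 is negative. For every real polynomial `p` there is a
`τ`-group `G` (which has a Mal'cev basis) such that for every Mal'cev basis `a` of `G`, of
length `N`, the dimension of Nickel's module is larger than `p(N)`. -/
def MainStatement : Prop := ∀ p : Polynomial ℝ, ∃ (G : Type) (_ : Group G), IsTauGroup G ∧
  (∃ (N : ℕ) (a : Fin N → G), IsMalcevBasis a) ∧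
  ∀ (N : ℕ) (a : Fin N → G) (ha : IsMalcevBasis a), ∃ d : ℕ,
    (d : Cardinal) ≤ Module.rank ℚ (nickelModule a ha) ∧ p.eval (N : ℝ) < (d : ℝ)

/-! ## Group ring tools -/

/-- `x - 1` in the group ring. -/
noncomputable def del {G : Type} [Group G] (x : G) : MonoidAlgebra ℚ G :=
  MonoidAlgebra.of ℚ G x - 1

/-- The linear extension of a function on `G` to the group ring. -/
noncomputable def ext {G : Type} [Group G] (f : G → ℚ) : MonoidAlgebra ℚ G →ₗ[ℚ] ℚ where
  toFun u := u.coeff.sum fun g r => r * f g
  map_add' u v := by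
    rw [MonoidAlgebra.coeff_add]
    exact Finsupp.sum_add_index' (by simp) (by intros; ring)
  map_smul' c u := by
    rw [MonoidAlgebra.coeff_smul, Finsupp.sum_smul_index' (by simp), RingHom.id_apply,
      smul_eq_mul, Finsupp.sum, Finsupp.sum, Finset.mul_sum]
    exact Finset.sum_congr rfl fun x _ => by simp [mul_assoc]

theorem ext_of {G : Type} [Group G] (f : G → ℚ) (x : G) :
    ext f (MonoidAlgebra.of ℚ G x) = f x := by
  show (MonoidAlgebra.of ℚ G x).coeff.sum (fun g r => r * f g) = f x
  simp [MonoidAlgebra.of_apply]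

theorem ext_one {G : Type} [Group G] (f : G → ℚ) : ext f 1 = f 1 := by
  rw [← ext_of f 1, (MonoidAlgebra.of ℚ G).map_one]

end NK639
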