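import Pool.Agent.R639.NK.St

/-!
Project NK (MP_41a35f_al): piece FORCE.
-/

namespace NK639.FORCE

open scoped BigOperators

/-! ### Products of lists -/

lemma prod_ofFn_split {M : Type} [Monoid M] : ∀ {N : ℕ} (f g : Fin N → M) (i : Fin N),
    (∀ j, j < i → f j = 1) → (∀ j, j ≠ i → f j = g j) → g i = 1 →
    (List.ofFn f).prod = f i * (List.ofFn g).prod := by
  intro N
  induction N with
  | zero => intro f g i; exact i.elim0
  | succ N ih =>
    intro f g i h1 h2 h3
    rw [List.ofFn_succ, List.ofFn_succ, List.prod_cons, List.prod_cons]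
    refine Fin.cases ?_ ?_ i (motive := fun i => (∀ j, j < i → f j = 1) →
      (∀ j, j ≠ i → f j = g j) → g i = 1 → f 0 * (List.ofFn fun i => f i.succ).prod =
      f i * (g 0 * (List.ofFn fun i => g i.succ).prod)) h1 h2 h3
    · intro _ h2 h3
      rw [h3, one_mul]
      have : (fun i : Fin N => f i.succ) = fun i => g i.succ := by
        funext j
        exact h2 _ (Fin.succ_ne_zero j)
      rw [this]
    · intro i h1 h2 h3
      have h4 : f 0 = 1 := h1 0 (Fin.succ_pos i)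
      have h5 : g 0 = 1 := by rw [← h2 0 (Fin.succ_ne_zero i).symm, h4]
      rw [h4, h5, one_mul, one_mul]
      exact ih (fun i => f i.succ) (fun i => g i.succ) i
        (fun j hj => h1 _ (Fin.succ_lt_succ_iff.2 hj))
        (fun j hj => h2 _ (fun h => hj (Fin.succ_injective _ h))) h3

/-! ### Tail subgroups -/

section tail

variable {G : Type} [Group G] {N : ℕ} {a : Fin N → G}

lemma mem_tail (i : ℕ) (j : Fin N) (h : i ≤ (j : ℕ)) : a j ∈ tailSub a i :=
  Subgroup.subset_closure ⟨j, h, rfl⟩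

lemma tail_anti {i i' : ℕ} (h : i ≤ i') : tailSub a i' ≤ tailSub a i := by
  apply Subgroup.closure_mono
  rintro g ⟨j, hj, rfl⟩
  exact ⟨j, h.trans hj, rfl⟩

lemma tail_bot : tailSub a N = ⊥ := by
  unfold tailSub
  have : {g | ∃ j : Fin N, N ≤ (j : ℕ) ∧ a j = g} = ∅ := by
    ext g
    simp only [Set.mem_setOf_eq, Set.mem_empty_iff_false, iff_false]
    rintro ⟨j, hj, -⟩
    exact absurd j.2 (not_lt.2 hj)
  rw [this, Subgroup.closure_empty]

lemma tail_top (ha : IsMalcevBasis a) : tailSub a 0 = ⊤ := by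
  rw [eq_top_iff]
  intro g _
  obtain ⟨x, hx, -⟩ := ha.unique_expr g
  rw [← hx]
  unfold mprod
  apply Subgroup.list_prod_mem
  intro y hy
  rw [List.mem_ofFn] at hy
  obtain ⟨i, rfl⟩ := hy
  exact Subgroup.zpow_mem _ (mem_tail 0 i (Nat.zero_le _)) _

lemma comm_mem (ha : IsMalcevBasis a) (i : ℕ) {x : G} (hx : x ∈ tailSub a i) (y : G) :
    x * y * x⁻¹ * y⁻¹ ∈ tailSub a (i + 1) := by
  have := Subgroup.commutator_mem_commutator hx (Subgroup.mem_top y)
  rw [commutatorElement_def] at this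
  exact ha.central i this

lemma tail_normal (ha : IsMalcevBasis a) (i : ℕ) : (tailSub a i).Normal := by
  constructor
  intro x hx y
  have h1 := tail_anti (Nat.le_succ i) (comm_mem ha i hx y)
  have h2 : y * x * y⁻¹ = (x * y * x⁻¹ * y⁻¹)⁻¹ * x := by group
  rw [h2]
  exact Subgroup.mul_mem _ (Subgroup.inv_mem _ h1) hx

lemma exists_split (ha : IsMalcevBasis a) (i : Fin N) {g : G} (hg : g ∈ tailSub a i) :
    ∃ (s : ℤ) (h : G), h ∈ tailSub a ((i : ℕ) + 1) ∧ g = a i ^ s * h := by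
  have hn := tail_normal ha ((i : ℕ) + 1)
  unfold tailSub at hg
  induction hg using Subgroup.closure_induction with
  | mem x hx =>
    obtain ⟨j, hj, rfl⟩ := hx
    rcases Nat.lt_or_ge (i : ℕ) j with h | h
    · exact ⟨0, a j, mem_tail _ _ h, by simp⟩
    · have : i = j := Fin.ext (le_antisymm hj h)
      subst this
      exact ⟨1, 1, Subgroup.one_mem _, by simp⟩
  | one => exact ⟨0, 1, Subgroup.one_mem _, by simp⟩
  | mul x y _ _ h1 h2 =>
    obtain ⟨s, h, hh, rfl⟩ := h1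
    obtain ⟨s', h', hh', rfl⟩ := h2
    refine ⟨s + s', (a i ^ (-s') * h * (a i ^ (-s'))⁻¹) * h',
      Subgroup.mul_mem _ (hn.conj_mem _ hh _) hh', ?_⟩
    rw [zpow_add]
    group
  | inv x _ h1 =>
    obtain ⟨s, h, hh, rfl⟩ := h1
    refine ⟨-s, a i ^ s * h⁻¹ * (a i ^ s)⁻¹, hn.conj_mem _ (Subgroup.inv_mem _ hh) _, ?_⟩
    group

lemma exists_coord (ha : IsMalcevBasis a) : ∀ (k : ℕ), k ≤ N → ∀ g ∈ tailSub a (N - k),
    ∃ x : Fin N → ℤ, (∀ j : Fin N, (j : ℕ) < N - k → x j = 0) ∧ mprod a x = g := by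
  intro k
  induction k with
  | zero =>
    intro _ g hg
    rw [Nat.sub_zero, tail_bot, Subgroup.mem_bot] at hg
    refine ⟨fun _ => 0, fun _ _ => rfl, ?_⟩
    rw [hg]
    unfold mprod
    apply List.prod_eq_one
    intro y hy
    rw [List.mem_ofFn] at hy
    obtain ⟨i, rfl⟩ := hy
    simp
  | succ k ih =>
    intro hk g hg
    have hi : N - (k + 1) < N := by omega
    obtain ⟨s, h, hh, rfl⟩ := exists_split ha ⟨N - (k + 1), hi⟩ hg
    have e1 : N - (k + 1) + 1 = N - k := by omega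
    simp only [e1] at hh
    obtain ⟨x, hx, rfl⟩ := ih (by omega) h hh
    refine ⟨Function.update x ⟨N - (k + 1), hi⟩ s, ?_, ?_⟩
    · intro j hj
      rw [Function.update_of_ne]
      · exact hx j (by omega)
      · intro h
        rw [h] at hj
        exact lt_irrefl _ hj
    · unfold mprod
      rw [prod_ofFn_split (fun i => a i ^ Function.update x ⟨N - (k + 1), hi⟩ s i)
        (fun i => a i ^ x i) ⟨N - (k + 1), hi⟩]
      · simp
      · intro j hj
        have h1 : (j : ℕ) < N - (k + 1) := hj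
        rw [Function.update_of_ne hj.ne, hx j (by omega), zpow_zero]
      · intro j hj
        rw [Function.update_of_ne hj]
      · rw [hx _ (by show N - (k + 1) < N - k; omega), zpow_zero]

lemma notMem (ha : IsMalcevBasis a) (i : Fin N) : a i ∉ tailSub a ((i : ℕ) + 1) := by
  intro h
  have hi := i.2
  have e1 : N - (N - ((i : ℕ) + 1)) = (i : ℕ) + 1 := by omega
  obtain ⟨x, hx, hx2⟩ := exists_coord ha (N - ((i : ℕ) + 1)) (by omega) (a i) (by rw [e1]; exact h)
  rw [e1] at hx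
  have h1 : mprod a (Pi.single i 1) = a i := by
    unfold mprod
    rw [prod_ofFn_split (fun j => a j ^ (Pi.single i 1 : Fin N → ℤ) j) (fun _ => 1) i]
    · simp
    · intro j hj
      simp [Pi.single_eq_of_ne hj.ne]
    · intro j hj
      simp [Pi.single_eq_of_ne hj]
    · rfl
  obtain ⟨y, -, hy⟩ := ha.unique_expr (a i)
  have h2 := hy x hx2
  have h3 := hy (Pi.single i 1) h1
  have h4 : x i = 1 := by rw [h2, ← h3]; simp
  have h5 := hx i (Nat.lt_succ_self _)
  omega

end tail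

/-! ### The homomorphisms `lead` -/

section lead

variable {n : ℕ} {G : Type} [Group G] (W : WData n G)

lemma lead_one {t : ℕ} (h1 : 1 ≤ t) (h2 : t ≤ n) : W.lead t 1 = 0 :=
  (W.lead_zero t h1 h2 1 (Subgroup.one_mem _)).2 (Subgroup.one_mem _)

/-- `lead t` as a homomorphism -/
def hom {t : ℕ} (h1 : 1 ≤ t) (h2 : t ≤ n) : W.Gi t →* Multiplicative ℤ where
  toFun x := Multiplicative.ofAdd (W.lead t x)
  map_one' := by
    show Multiplicative.ofAdd (W.lead t 1) = 1
    rw [lead_one W h1 h2]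
    rfl
  map_mul' x y := by
    show Multiplicative.ofAdd (W.lead t (x * y)) = _
    rw [W.lead_mul t h1 h2 x x.2 y y.2]
    rfl

lemma lead_zpow {t : ℕ} (h1 : 1 ≤ t) (h2 : t ≤ n) {x : G} (hx : x ∈ W.Gi t) (k : ℤ) :
    W.lead t (x ^ k) = k * W.lead t x := by
  have := map_zpow (hom W h1 h2) ⟨x, hx⟩ k
  have h3 := congrArg Multiplicative.toAdd this
  rw [toAdd_zpow, smul_eq_mul] at h3
  exact h3

lemma anti {i j : ℕ} (hi : 1 ≤ i) (hij : i ≤ j) : W.Gi j ≤ W.Gi i := by
  induction j, hij using Nat.le_induction with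
  | base => exact le_rfl
  | succ j hj ih => exact (W.Gi_anti j (hi.trans hj)).trans ih

lemma ne_top (hn : 1 ≤ n) {i : ℕ} (hi : 2 ≤ i) : W.Gi i ≠ ⊤ := by
  intro h
  obtain ⟨x, hx, hx1⟩ := W.lead_surj 1 le_rfl hn
  have h2 : x ∈ W.Gi (1 + 1) := by
    have : W.Gi i ≤ W.Gi 2 := anti W (by norm_num) hi
    exact this (h ▸ Subgroup.mem_top x)
  rw [(W.lead_zero 1 le_rfl hn x hx).2 h2] at hx1
  exact zero_ne_one hx1

lemma step (h1 : S_TF) (h2 : S_CEN) {N : ℕ} {a : Fin N → G} (ha : IsMalcevBasis a) {t : ℕ}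
    (ht : 3 ≤ t) (htn : t ≤ n) (i : Fin N) (hA : tailSub a ((i : ℕ) + 1) = W.Gi (t + 1)) :
    a i ∈ W.Gi t ∧ (W.lead t (a i) = 1 ∨ W.lead t (a i) = -1) ∧ tailSub a i = W.Gi t := by
  have ht1 : 1 ≤ t := by omega
  have hle : tailSub a i ≤ W.Gi t := by
    intro x hx
    apply h2 n G W t ht htn x
    intro y
    rw [← hA]
    exact comm_mem ha i hx y
  have hb : a i ∈ tailSub a i := mem_tail _ _ le_rfl
  have hbt : a i ∈ W.Gi t := hle hb
  have hl : W.lead t (a i) ≠ 0 := by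
    intro h
    apply notMem ha i
    rw [hA]
    exact (W.lead_zero t ht1 htn _ hbt).1 h
  obtain ⟨g, hg, hg1⟩ := W.lead_surj t ht1 htn
  have hsucc : W.Gi (t + 1) ≤ tailSub a i := by
    rw [← hA]
    exact tail_anti (Nat.le_succ _)
  have hgl : g ^ W.lead t (a i) ∈ tailSub a i := by
    have h3 : g ^ W.lead t (a i) * (a i) ^ (-1 : ℤ) ∈ W.Gi (t + 1) := by
      have h4 := Subgroup.zpow_mem _ hg (W.lead t (a i))
      have h5 := Subgroup.zpow_mem _ hbt (-1)
      refine (W.lead_zero t ht1 htn _ (Subgroup.mul_mem _ h4 h5)).1 ?_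
      rw [W.lead_mul t ht1 htn _ h4 _ h5, lead_zpow W ht1 htn hg, lead_zpow W ht1 htn hbt, hg1]
      ring
    have h6 := Subgroup.mul_mem _ (hsucc h3) hb
    have h7 : g ^ W.lead t (a i) * (a i) ^ (-1 : ℤ) * a i = g ^ W.lead t (a i) := by group
    rwa [h7] at h6
  have hgA : g ∈ tailSub a i := h1 G N a ha i g _ hl hgl
  refine ⟨hbt, ?_, le_antisymm hle ?_⟩
  · obtain ⟨s, h, hh, he⟩ := exists_split ha i hgA
    rw [hA] at hh
    have hht : h ∈ W.Gi t := W.Gi_anti t ht1 hh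
    have h3 := W.lead_mul t ht1 htn _ (Subgroup.zpow_mem _ hbt s) _ hht
    rw [← he, lead_zpow W ht1 htn hbt, (W.lead_zero t ht1 htn h hht).2 hh, hg1, add_zero] at h3
    have h4 : W.lead t (a i) ∣ 1 := ⟨s, by rw [mul_comm]; exact h3⟩
    exact Int.isUnit_iff.1 (isUnit_of_dvd_one h4)
  · intro y hy
    have h4 := Subgroup.zpow_mem _ hg (-W.lead t y)
    have h3 : g ^ (-W.lead t y) * y ∈ W.Gi (t + 1) := by
      refine (W.lead_zero t ht1 htn _ (Subgroup.mul_mem _ h4 hy)).1 ?_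
      rw [W.lead_mul t ht1 htn _ h4 _ hy, lead_zpow W ht1 htn hg, hg1]
      ring
    have h5 := Subgroup.mul_mem _ (Subgroup.zpow_mem _ hgA (W.lead t y)) (hsucc h3)
    have h6 : g ^ (W.lead t y) * (g ^ (-W.lead t y) * y) = y := by
      rw [← mul_assoc, ← zpow_add, add_neg_cancel, zpow_zero, one_mul]
    rwa [h6] at h5

lemma all (h1 : S_TF) (h2 : S_CEN) (hn : 3 ≤ n) {N : ℕ} {a : Fin N → G}
    (ha : IsMalcevBasis a) (m : ℕ) (hm : m + 2 ≤ n) :
    m ≤ N ∧ tailSub a (N - m) = W.Gi (n + 1 - m) := by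
  induction m with
  | zero =>
    refine ⟨Nat.zero_le _, ?_⟩
    rw [Nat.sub_zero, Nat.sub_zero, tail_bot, W.Gi_bot (n + 1) (Nat.lt_succ_self n)]
  | succ m ih =>
    obtain ⟨hmN, hA⟩ := ih (by omega)
    have hlt : m < N := by
      rcases Nat.lt_or_ge m N with h | h
      · exact h
      · exfalso
        have h3 : N - m = 0 := by omega
        rw [h3, tail_top ha] at hA
        exact ne_top W (by omega) (by omega) hA.symm
    refine ⟨hlt, ?_⟩
    have hi : N - (m + 1) < N := by omega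
    have h3 := (step W h1 h2 ha (t := n - m) (by omega) (by omega) ⟨N - (m + 1), hi⟩ (by
      show tailSub a (N - (m + 1) + 1) = W.Gi (n - m + 1)
      rw [show N - (m + 1) + 1 = N - m by omega, show n - m + 1 = n + 1 - m by omega]
      exact hA)).2.2
    rw [show n + 1 - (m + 1) = n - m by omega]
    exact h3

end lead

theorem main (h1 : S_TF) (h2 : S_CEN) (h3 : S_RK) : S_FORCE := by
  intro n G _ W hn N a ha
  have hall := all W h1 h2 hn ha
  obtain ⟨h4, h5⟩ := hall (n - 2) (by omega)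
  have h6 := h3 n G W hn N a ha (N - (n - 2)) (Nat.sub_le _ _) (by
    rw [h5]
    congr 1
    omega)
  have hNn : N = n := by omega
  refine ⟨hNn, fun j hj => ?_⟩
  have hjN := j.2
  have h7 := (hall (N - ((j : ℕ) + 1)) (by omega)).2
  rw [show N - (N - ((j : ℕ) + 1)) = (j : ℕ) + 1 by omega,
    show n + 1 - (N - ((j : ℕ) + 1)) = (j : ℕ) + 1 + 1 by omega] at h7
  exact step W h1 h2 ha (t := (j : ℕ) + 1) (by omega) (by omega) j h7

end NK639.FORCE
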