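import Pool.Agent.R639.NK.St

/-! NK-GROW (MP_41a35f): growth. -/

namespace NK639.GROW

open Polynomial Filter

theorem nn_eq (r L : ℕ) :
    nn r L = (HH r * ((r + 1) * (r + 2)) * (1 + 2 ^ r * 20)) * L + 1 := by
  unfold nn kk
  ring

theorem main : S_GROW := by
  intro p
  set r : ℕ := p.natDegree + 1 with hr
  set c : ℕ := HH r * ((r + 1) * (r + 2)) * (1 + 2 ^ r * 20) with hc
  have hHH : 4 ≤ HH r := by
    unfold HH
    have h1 : 1 ≤ 2 ^ r := Nat.one_le_two_pow
    nlinarith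
  have hcpos : 2 ≤ c := by
    have h1 : 1 ≤ (r + 1) * (r + 2) := Nat.succ_le_of_lt (by positivity)
    have h2 : 4 ≤ HH r * ((r + 1) * (r + 2)) := by nlinarith
    have h3 : 1 ≤ 1 + 2 ^ r * 20 := by omega
    calc 2 ≤ 4 * 1 := by norm_num
      _ ≤ c := Nat.mul_le_mul h2 h3
  set q : ℝ[X] := p.comp (C (c : ℝ) * X + 1) with hq
  have hqd : q.natDegree ≤ p.natDegree := by
    rw [hq, natDegree_comp]
    have h1 : (C (c : ℝ) * X + 1 : ℝ[X]).natDegree ≤ 1 := by
      compute_degree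
    calc p.natDegree * (C (c : ℝ) * X + 1 : ℝ[X]).natDegree ≤ p.natDegree * 1 :=
          Nat.mul_le_mul_left _ h1
      _ = p.natDegree := mul_one _
  have hdeg : q.degree < (X ^ r : ℝ[X]).degree := by
    rw [degree_X_pow]
    refine lt_of_le_of_lt degree_le_natDegree ?_
    exact_mod_cast (by omega : q.natDegree < r)
  have hP1 : 0 < (q - X ^ r).degree := by
    rw [degree_sub_eq_right_of_degree_lt hdeg, degree_X_pow]
    exact_mod_cast (by omega : 0 < r)
  have hP2 : (q - X ^ r).leadingCoeff ≤ 0 := by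
    rw [leadingCoeff_sub_of_degree_lt' hdeg, leadingCoeff_X_pow]
    norm_num
  have ht := (q - X ^ r).tendsto_atBot_of_leadingCoeff_nonpos hP1 hP2
  have ht2 := ht.comp tendsto_natCast_atTop_atTop
  obtain ⟨L, hL1, hL2⟩ := ((ht2.eventually_lt_atBot 0).and (eventually_ge_atTop 1)).exists
  refine ⟨r, L, hL2, ?_, ?_⟩
  · rw [nn_eq, ← hc]
    nlinarith
  · have h1 : (q - X ^ r).eval (L : ℝ) < 0 := hL1
    rw [eval_sub, eval_pow, eval_X, hq, eval_comp] at h1
    have h2 : (C (c : ℝ) * X + 1 : ℝ[X]).eval (L : ℝ) = ((nn r L : ℕ) : ℝ) := by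
      rw [nn_eq, ← hc]
      simp
    rw [h2] at h1
    push_cast
    linarith

end NK639.GROW
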