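import Pool.Agent.R639.NK.St

/-! NK-KINK: finite differences with kinks (helper45). -/

namespace NK639.KINK

open scoped BigOperators
open Finset Polynomial

/-- The alternating sum of a polynomial of degree less than `d` vanishes. -/
theorem alt_zero (d : ℕ) (P : ℤ[X]) (hP : P.natDegree < d) :
    ∑ k : Fin (d + 1), (-1 : ℤ) ^ (k : ℕ) * (d.choose (k : ℕ) : ℤ) * P.eval (((k : ℕ) : ℤ)) = 0 := by
  have h := congrFun (Polynomial.fwdDiff_iter_eq_zero_of_degree_lt hP) 0
  rw [fwdDiff_iter_eq_sum_shift] at h
  simp only [Pi.zero_apply, zero_add, nsmul_eq_mul, mul_one, smul_eq_mul] at h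
  rw [Fin.sum_univ_eq_sum_range
    (fun k : ℕ => (-1 : ℤ) ^ k * (d.choose k : ℤ) * P.eval ((k : ℕ) : ℤ)) (d + 1)]
  have h2 : ∑ k ∈ Finset.range (d + 1), (-1 : ℤ) ^ k * (d.choose k : ℤ) * P.eval ((k : ℕ) : ℤ) =
      (-1) ^ d * ∑ k ∈ Finset.range (d + 1),
        (-1 : ℤ) ^ (d - k) * (d.choose k : ℤ) * P.eval ((k : ℕ) : ℤ) := by
    rw [Finset.mul_sum]
    refine Finset.sum_congr rfl fun k hk => ?_
    have hk' : k ≤ d := Nat.lt_succ_iff.mp (Finset.mem_range.mp hk)
    have e : (-1 : ℤ) ^ d * (-1) ^ (d - k) = (-1) ^ k := by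
      rw [← pow_add]
      have : d + (d - k) = k + 2 * (d - k) := by omega
      rw [this, pow_add, pow_mul]
      simp
    rw [← mul_assoc, ← mul_assoc, e]
  rw [h2, h, mul_zero]

/-- Summation over one coordinate. -/
theorem sum_split {t d : ℕ} (i0 : Fin t) (G : (Fin t → Fin (d + 1)) → ℤ)
    (h : ∀ j, ∑ k : Fin (d + 1), G (Function.update j i0 k) = 0) : ∑ j, G j = 0 := by
  rw [← Equiv.sum_comp (Equiv.funSplitAt i0 (Fin (d + 1))).symm G, Fintype.sum_prod_type_right]
  refine Finset.sum_eq_zero fun j' _ => ?_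
  rw [← h ((Equiv.funSplitAt i0 (Fin (d + 1))).symm (0, j'))]
  refine Finset.sum_congr rfl fun k _ => ?_
  congr 1
  funext i
  by_cases hi : i = i0
  · subst hi
    simp
  · simp [hi]

theorem main : S_KINK := by
  intro t m d M hM hd α β y F D
  constructor
  · rintro ⟨i0, hi0 | hi0⟩
    · refine Finset.sum_eq_zero fun j _ => ?_
      have h0 : ∏ i : Fin t, max (y i - (M : ℤ) * ((j i : ℕ) : ℤ)) 0 = 0 := by
        refine Finset.prod_eq_zero (Finset.mem_univ i0) ?_
        refine max_eq_right ?_
        have : (0 : ℤ) ≤ (M : ℤ) * ((j i0 : ℕ) : ℤ) := by positivity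
        linarith
      simp only [F]
      rw [h0, mul_zero, mul_zero]
    · refine sum_split i0 _ fun j => ?_
      set C1 : ℤ := ∏ i ∈ (univ : Finset (Fin t)) \ {i0},
        ((-1) ^ (j i : ℕ) * (d.choose (j i : ℕ) : ℤ)) with hC1
      set C2 : ℤ := ∏ i ∈ (univ : Finset (Fin t)) \ {i0},
        max (y i - (M : ℤ) * ((j i : ℕ) : ℤ)) 0 with hC2
      set γ : Fin m → ℤ := fun e => α e + ∑ i ∈ (univ : Finset (Fin t)) \ {i0},
        β e i * ((j i : ℕ) : ℤ) with hγ
      set P : ℤ[X] := C (C1 * C2) * ((∏ e : Fin m, (C (γ e) + C (β e i0) * X)) *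
        (C (y i0) - C (M : ℤ) * X)) with hP
      have hdeg : P.natDegree < d := by
        have h1 : (∏ e : Fin m, (C (γ e) + C (β e i0) * X)).natDegree ≤ m := by
          refine le_trans (Polynomial.natDegree_prod_le _ _) ?_
          refine le_trans (Finset.sum_le_card_nsmul _ _ 1 ?_) (by simp)
          intro e _
          refine le_trans (Polynomial.natDegree_add_le _ _) ?_
          rw [Polynomial.natDegree_C]
          exact max_le (by norm_num) ((Polynomial.natDegree_C_mul_le _ _).trans Polynomial.natDegree_X_le)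
        have h2 : (C (y i0) - C (M : ℤ) * X : ℤ[X]).natDegree ≤ 1 := by
          refine le_trans (Polynomial.natDegree_sub_le _ _) ?_
          rw [Polynomial.natDegree_C]
          exact max_le (by norm_num) ((Polynomial.natDegree_C_mul_le _ _).trans Polynomial.natDegree_X_le)
        have h3 : P.natDegree ≤ m + 1 := by
          refine le_trans (Polynomial.natDegree_C_mul_le _ _) ?_
          refine le_trans Polynomial.natDegree_mul_le ?_
          omega
        omega
      rw [← alt_zero d P hdeg]
      refine Finset.sum_congr rfl fun k _ => ?_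
      have e1 : (∏ i : Fin t, ((-1) ^ (Function.update j i0 k i : ℕ) *
          (d.choose (Function.update j i0 k i : ℕ) : ℤ))) =
          ((-1) ^ (k : ℕ) * (d.choose (k : ℕ) : ℤ)) * C1 := by
        rw [hC1, ← Finset.prod_update_of_mem (Finset.mem_univ i0)
          (fun i => (-1 : ℤ) ^ (j i : ℕ) * (d.choose (j i : ℕ) : ℤ))]
        refine Finset.prod_congr rfl fun i _ => ?_
        by_cases hi : i = i0
        · subst hi; simp
        · simp [hi]
      have e2 : (∏ i : Fin t, max (y i - (M : ℤ) * ((Function.update j i0 k i : ℕ) : ℤ)) 0) =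
          (y i0 - (M : ℤ) * ((k : ℕ) : ℤ)) * C2 := by
        rw [hC2, ← Finset.prod_update_of_mem (Finset.mem_univ i0)
          (fun i => max (y i - (M : ℤ) * ((j i : ℕ) : ℤ)) 0)]
        refine Finset.prod_congr rfl fun i _ => ?_
        by_cases hi : i = i0
        · subst hi
          simp only [Function.update_self]
          refine max_eq_left ?_
          have hk : ((k : ℕ) : ℤ) ≤ d := by exact_mod_cast Nat.lt_succ_iff.mp k.2
          have : (M : ℤ) * ((k : ℕ) : ℤ) ≤ (M : ℤ) * d :=
            mul_le_mul_of_nonneg_left hk (by positivity)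
          linarith
        · simp [hi]
      have e3 : ∀ e : Fin m, α e + ∑ i : Fin t, β e i * ((Function.update j i0 k i : ℕ) : ℤ) =
          γ e + β e i0 * ((k : ℕ) : ℤ) := by
        intro e
        have : ∑ i : Fin t, β e i * ((Function.update j i0 k i : ℕ) : ℤ) =
            β e i0 * ((k : ℕ) : ℤ) + ∑ i ∈ (univ : Finset (Fin t)) \ {i0},
              β e i * ((j i : ℕ) : ℤ) := by
          rw [← Finset.sum_update_of_mem (Finset.mem_univ i0)
            (fun i => β e i * ((j i : ℕ) : ℤ))]
          refine Finset.sum_congr rfl fun i _ => ?_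
          by_cases hi : i = i0
          · subst hi; simp
          · simp [hi]
        rw [this, hγ]
        ring
      simp only [F]
      rw [e1, e2, Finset.prod_congr rfl fun e _ => e3 e]
      simp only [hP, Polynomial.eval_mul, Polynomial.eval_C, Polynomial.eval_prod,
        Polynomial.eval_add, Polynomial.eval_X, Polynomial.eval_sub]
      ring
  · intro hy
    have h0 : D = ∑ j : Fin t → Fin (d + 1), if j = 0 then
        (∏ e : Fin m, α e) * ∏ i : Fin t, y i else 0 := by
      refine Finset.sum_congr rfl fun j _ => ?_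
      by_cases hj : j = 0
      · subst hj
        rw [if_pos rfl]
        have e2 : ∏ i : Fin t, max (y i) 0 = ∏ i : Fin t, y i :=
          Finset.prod_congr rfl fun i _ => max_eq_left (hy i).1.le
        simp [F, e2]
      · rw [if_neg hj]
        obtain ⟨i, hi⟩ : ∃ i, j i ≠ 0 := by
          by_contra hcon
          exact hj (funext fun i => by_contra fun h => hcon ⟨i, h⟩)
        have hi1 : (1 : ℤ) ≤ ((j i : ℕ) : ℤ) := by
          have : 0 < (j i : ℕ) := Nat.pos_of_ne_zero fun h => hi (Fin.ext h)
          exact_mod_cast this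
        have h0 : ∏ i : Fin t, max (y i - (M : ℤ) * ((j i : ℕ) : ℤ)) 0 = 0 := by
          refine Finset.prod_eq_zero (Finset.mem_univ i) ?_
          refine max_eq_right ?_
          have : (M : ℤ) * 1 ≤ (M : ℤ) * ((j i : ℕ) : ℤ) :=
            mul_le_mul_of_nonneg_left hi1 (by positivity)
          linarith [(hy i).2]
        simp only [F]
        rw [h0, mul_zero, mul_zero]
    rw [h0, Finset.sum_ite_eq' univ (0 : Fin t → Fin (d + 1)), if_pos (Finset.mem_univ _)]

end NK639.KINK
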