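import Pool.Agent.R639.NK.St

/-! NK-LB (helper164). -/

namespace NK639.LB

open scoped BigOperators

theorem mem_nickel {G : Type} [Group G] {n : ℕ} (hn : 3 ≤ n) (a : Fin n → G)
    (ha : IsMalcevBasis a) (v : MonoidAlgebra ℚ G) :
    (fun y => ext (lastCoord hn a ha) (MonoidAlgebra.of ℚ G y * v)) ∈ nickelModule a ha := by
  induction v using MonoidAlgebra.induction_on with
  | of g =>
    apply Submodule.subset_span
    refine ⟨⟨n - 1, by omega⟩, g⁻¹, ?_⟩
    funext y
    rw [← map_mul, ext_of, inv_inv]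
    rfl
  | add v w hv hw =>
    have h := Submodule.add_mem _ hv hw
    have e : (fun y => ext (lastCoord hn a ha) (MonoidAlgebra.of ℚ G y * (v + w))) =
        (fun y => ext (lastCoord hn a ha) (MonoidAlgebra.of ℚ G y * v)) +
        (fun y => ext (lastCoord hn a ha) (MonoidAlgebra.of ℚ G y * w)) := by
      funext y
      rw [mul_add, map_add]
      rfl
    rw [e]
    exact h
  | smul r v hv =>
    have h := Submodule.smul_mem _ r hv
    have e : (fun y => ext (lastCoord hn a ha) (MonoidAlgebra.of ℚ G y * (r • v))) =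
        r • (fun y => ext (lastCoord hn a ha) (MonoidAlgebra.of ℚ G y * v)) := by
      funext y
      rw [mul_smul_comm, map_smul]
      rfl
    rw [e]
    exact h

theorem lin {G : Type} [Group G] (T : G → ℚ) {κ : Type} [Fintype κ] (μ : κ → ℚ)
    (v : κ → MonoidAlgebra ℚ G)
    (h : ∀ y, ∑ s, μ s * ext T (MonoidAlgebra.of ℚ G y * v s) = 0) (u : MonoidAlgebra ℚ G) :
    ∑ s, μ s * ext T (u * v s) = 0 := by
  induction u using MonoidAlgebra.induction_on with
  | of g => exact h g
  | add u w hu hw =>
    have e : ∀ s, μ s * ext T ((u + w) * v s) = μ s * ext T (u * v s) + μ s * ext T (w * v s) := by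
      intro s
      rw [add_mul, map_add, mul_add]
    rw [Finset.sum_congr rfl fun s _ => e s, Finset.sum_add_distrib, hu, hw, add_zero]
  | smul r u hu =>
    have e : ∀ s, μ s * ext T ((r • u) * v s) = r * (μ s * ext T (u * v s)) := by
      intro s
      rw [smul_mul_assoc, map_smul, smul_eq_mul]
      ring
    rw [Finset.sum_congr rfl fun s _ => e s, ← Finset.mul_sum, hu, mul_zero]

theorem toNat_list (l : List ℕ) (m : List ℤ) (h : l.map (fun x : ℕ => (x : ℤ)) = m) :
    l = m.map Int.toNat := by
  rw [← h, List.map_map]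
  have : (Int.toNat ∘ fun x : ℕ => (x : ℤ)) = id := by
    funext x
    simp
  rw [this, List.map_id]

theorem main (h1 : S_RULES) (h2 : S_COMB) (h3 : S_BRIDGE) (h4 : S_QV) (h5 : S_R3) (h6 : S_ADM) :
    S_LB := by
  intro r' L hL G _ W a ha hF
  have hn : 3 ≤ nn r' L := by
    obtain ⟨-, -, -, g1, g2⟩ := h4 r' L (fun _ => ⟨0, hL⟩) hL
    unfold nn
    omega
  obtain ⟨e, he⟩ := h1 (nn r' L) G W hn a ha hF
  set T := lastCoord hn a ha with hT
  set Λ : List ℕ → ℚ := fun l => (-1) ^ l.length * ext T ((l.map fun w => del (e w)).prod)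
    with hΛ
  set v : (Fin r' → Fin L) → MonoidAlgebra ℚ G := fun s =>
    (((List.ofFn (qv r' L s)).map Int.toNat).map fun w => del (e w)).prod with hv
  set F : (Fin r' → Fin L) → nickelModule a ha := fun s =>
    ⟨fun y => ext T (MonoidAlgebra.of ℚ G y * v s), mem_nickel hn a ha (v s)⟩ with hFdef
  have hind : LinearIndependent ℚ F := by
    rw [Fintype.linearIndependent_iff]
    intro μ hμ s0
    have hy : ∀ y, ∑ s, μ s * ext T (MonoidAlgebra.of ℚ G y * v s) = 0 := by
      intro y
      have h7 := congrArg (fun z : nickelModule a ha => (z : G → ℚ) y) hμ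
      simp only [Submodule.coe_sum, Submodule.coe_smul, Finset.sum_apply, Pi.smul_apply,
        smul_eq_mul, Submodule.coe_zero, Pi.zero_apply] at h7
      exact h7
    obtain ⟨ι, hι, w, A, hA, hA1, hA2⟩ := h5 r' L hL s0
    have key : ∀ (j : ι) (s : Fin r' → Fin L),
        ext T ((((List.ofFn (A j)).map Int.toNat).map fun w => del (e w)).prod * v s) =
          Λ [nn r' L] * ((PhiF (A j) (List.ofFn (qv r' L s)) : ℤ) : ℚ) := by
      intro j s
      obtain ⟨a1, rest, q, c1, c2, c3, c4, c5, c6, c7, c8, c9⟩ := h6 r' L hL (A j) (hA j) s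
      have h8 := h2 (nn r' L) Λ he a1 rest q c3 c4 c5 c6 c7 c8 c9
      have e1 := toNat_list _ _ c1
      have e2 := toNat_list _ _ c2
      have hlen : (((a1 :: rest) ++ q).length) = (r' + 1) + (r' + 1) := by
        rw [List.length_append, e1, e2, List.length_map, List.length_map, List.length_ofFn,
          List.length_ofFn]
      have e3 : Λ ((a1 :: rest) ++ q) =
          ext T ((((List.ofFn (A j)).map Int.toNat).map fun w => del (e w)).prod * v s) := by
        rw [hΛ, hv]
        simp only
        rw [hlen, ← two_mul, pow_mul, neg_one_sq, one_pow, one_mul, List.map_append,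
          List.prod_append, e1, e2]
      have e4 : ((a1 :: rest).map (fun x : ℕ => (x : ℤ))) = List.ofFn (A j) := c1
      have e5 : (q.map (fun x : ℕ => (x : ℤ))) = List.ofFn (qv r' L s) := c2
      rw [← e3, h8]
      congr 2
      have e6 : Phi ((a1 :: rest).map (fun x : ℕ => (x : ℤ))) (q.map (fun x : ℕ => (x : ℤ))) =
          PhiF (A j) (List.ofFn (qv r' L s)) := by
        rw [e4, e5]
        exact h3 r' (A j) _
      exact e6
    have hall : ∀ j : ι, ∑ s, μ s * (Λ [nn r' L] *
        ((PhiF (A j) (List.ofFn (qv r' L s)) : ℤ) : ℚ)) = 0 := by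
      intro j
      have h9 := lin T μ v hy ((((List.ofFn (A j)).map Int.toNat).map fun w => del (e w)).prod)
      rw [← h9]
      exact Finset.sum_congr rfl fun s _ => by rw [key j s]
    have hsum : ∑ j, (w j : ℚ) * ∑ s, μ s * (Λ [nn r' L] *
        ((PhiF (A j) (List.ofFn (qv r' L s)) : ℤ) : ℚ)) = 0 := by
      refine Finset.sum_eq_zero fun j _ => ?_
      rw [hall j, mul_zero]
    have hswap : ∑ j, (w j : ℚ) * ∑ s, μ s * (Λ [nn r' L] *
        ((PhiF (A j) (List.ofFn (qv r' L s)) : ℤ) : ℚ)) =
        ∑ s, μ s * Λ [nn r' L] *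
          ((∑ j, w j * PhiF (A j) (List.ofFn (qv r' L s)) : ℤ) : ℚ) := by
      simp only [Finset.mul_sum]
      rw [Finset.sum_comm]
      refine Finset.sum_congr rfl fun s _ => ?_
      push_cast
      rw [Finset.mul_sum]
      refine Finset.sum_congr rfl fun j _ => ?_
      ring
    rw [hswap, Finset.sum_eq_single s0] at hsum
    · have hne : ((∑ j, w j * PhiF (A j) (List.ofFn (qv r' L s0)) : ℤ) : ℚ) ≠ 0 := by
        exact_mod_cast hA2
      have hne2 : Λ [nn r' L] ≠ 0 := he.r3
      rcases mul_eq_zero.mp hsum with h10 | h10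
      · rcases mul_eq_zero.mp h10 with h11 | h11
        · exact h11
        · exact absurd h11 hne2
      · exact absurd h10 hne
    · intro s _ hs
      rw [hA1 s hs]
      simp
    · intro h
      exact absurd (Finset.mem_univ s0) h
  have hcard := hind.cardinal_le_rank
  have hmk : Cardinal.mk (Fin r' → Fin L) = ((L ^ r' : ℕ) : Cardinal) := by
    rw [Cardinal.mk_fintype, Fintype.card_fun, Fintype.card_fin, Fintype.card_fin]
  rw [hmk] at hcard
  exact hcard

end NK639.LB
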