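import Pool.Agent.R639.NK.St

namespace NK639.POLT

open scoped BigOperators commutatorElement

section basic
variable {G : Type} [Group G]

theorem ext_fun_add (f g : G → ℚ) (u : MonoidAlgebra ℚ G) :
    ext (fun x => f x + g x) u = ext f u + ext g u := by
  induction u using MonoidAlgebra.induction_linear with
  | zero => simp
  | add u v hu hv => rw [map_add, map_add, map_add, hu, hv]; ring
  | single x r =>
    have : (MonoidAlgebra.single x r : MonoidAlgebra ℚ G) = r • MonoidAlgebra.of ℚ G x := by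
      simp [MonoidAlgebra.of_apply]
    rw [this, map_smul, map_smul, map_smul, ext_of, ext_of, ext_of]
    simp [mul_add]

theorem ext_fun_smul (c : ℚ) (f : G → ℚ) (u : MonoidAlgebra ℚ G) :
    ext (fun x => c * f x) u = c * ext f u := by
  induction u using MonoidAlgebra.induction_linear with
  | zero => simp
  | add u v hu hv => rw [map_add, map_add, hu, hv]; ring
  | single x r =>
    have : (MonoidAlgebra.single x r : MonoidAlgebra ℚ G) = r • MonoidAlgebra.of ℚ G x := by
      simp [MonoidAlgebra.of_apply]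
    rw [this, map_smul, map_smul, ext_of, ext_of]
    simp; ring

theorem ext_of_mul (f : G → ℚ) (x : G) (u : MonoidAlgebra ℚ G) :
    ext f (MonoidAlgebra.of ℚ G x * u) = ext (fun y => f (x * y)) u := by
  induction u using MonoidAlgebra.induction_linear with
  | zero => simp
  | add u v hu hv => rw [mul_add, map_add, map_add, hu, hv]
  | single y r =>
    have : (MonoidAlgebra.single y r : MonoidAlgebra ℚ G) = r • MonoidAlgebra.of ℚ G y := by
      simp [MonoidAlgebra.of_apply]
    rw [this, mul_smul_comm, map_smul, map_smul, ← map_mul, ext_of, ext_of]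

theorem ext_const (c : ℚ) (x : G) (u : MonoidAlgebra ℚ G) :
    ext (fun _ => c) (del x * u) = 0 := by
  unfold del
  rw [sub_mul, one_mul, map_sub, ext_of_mul, sub_self]

variable (Gi : ℕ → Subgroup G)

theorem pol_mono {lo : ℕ} {w w' : ℤ} (h : w ≤ w') {f : G → ℚ} (hf : f ∈ Pol Gi lo w) :
    f ∈ Pol Gi lo w' := fun L hL hw => hf L hL (by omega)

theorem pol_const {lo : ℕ} {w : ℤ} (h : 0 ≤ w) (c : ℚ) : (fun _ : G => c) ∈ Pol Gi lo w := by
  intro L hL hw
  cases L with
  | nil => simp at hw; omega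
  | cons p L =>
    rw [List.map_cons, List.prod_cons]
    exact ext_const c _ _

theorem pol_add {lo : ℕ} {w : ℤ} {f g : G → ℚ} (hf : f ∈ Pol Gi lo w) (hg : g ∈ Pol Gi lo w) :
    (fun x => f x + g x) ∈ Pol Gi lo w := by
  intro L hL hw
  rw [ext_fun_add, hf L hL hw, hg L hL hw, add_zero]

theorem pol_smul {lo : ℕ} {w : ℤ} {f : G → ℚ} (c : ℚ) (hf : f ∈ Pol Gi lo w) :
    (fun x => c * f x) ∈ Pol Gi lo w := by
  intro L hL hw
  rw [ext_fun_smul, hf L hL hw, mul_zero]

/-- the ideal-like filtration -/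
noncomputable def II (w : ℕ) : Submodule ℚ (MonoidAlgebra ℚ G) :=
  Submodule.span ℚ {u | ∃ L : List (ℕ × G), (∀ p ∈ L, 3 ≤ p.1 ∧ p.2 ∈ Gi p.1) ∧
    w ≤ (L.map Prod.fst).sum ∧ u = (L.map fun p => del p.2).prod}

theorem II_anti {w w' : ℕ} (h : w ≤ w') : II Gi w' ≤ II Gi w := by
  refine Submodule.span_mono ?_
  rintro u ⟨L, hL, hw, rfl⟩
  exact ⟨L, hL, h.trans hw, rfl⟩

theorem II_mul {w w' : ℕ} {u v : MonoidAlgebra ℚ G} (hu : u ∈ II Gi w) (hv : v ∈ II Gi w') :
    u * v ∈ II Gi (w + w') := by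
  unfold II at hu
  induction hu using Submodule.span_induction with
  | zero => rw [zero_mul]; exact Submodule.zero_mem _
  | add x y _ _ hx hy => rw [add_mul]; exact Submodule.add_mem _ hx hy
  | smul c x _ hx => rw [smul_mul_assoc]; exact Submodule.smul_mem _ c hx
  | mem x hx =>
    obtain ⟨L, hL, hw, rfl⟩ := hx
    unfold II at hv
    induction hv using Submodule.span_induction with
    | zero => rw [mul_zero]; exact Submodule.zero_mem _
    | add x y _ _ hx hy => rw [mul_add]; exact Submodule.add_mem _ hx hy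
    | smul c x _ hx => rw [mul_smul_comm]; exact Submodule.smul_mem _ c hx
    | mem y hy =>
      obtain ⟨L', hL', hw', rfl⟩ := hy
      refine Submodule.subset_span ⟨L ++ L', ?_, ?_, ?_⟩
      · intro p hp
        rcases List.mem_append.1 hp with h | h
        · exact hL p h
        · exact hL' p h
      · rw [List.map_append, List.sum_append]; omega
      · rw [List.map_append, List.prod_append]

theorem one_mem_II : (1 : MonoidAlgebra ℚ G) ∈ II Gi 0 :=
  Submodule.subset_span ⟨[], by simp, by simp, by simp⟩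

theorem del_mem_II {x : G} {w : ℕ} (hw : 3 ≤ w) (hx : x ∈ Gi w) : del x ∈ II Gi w :=
  Submodule.subset_span ⟨[(w, x)], by simp [hw, hx], by simp, by simp⟩

theorem of_mem_II {x : G} {w : ℕ} (hw : 3 ≤ w) (hx : x ∈ Gi w) :
    MonoidAlgebra.of ℚ G x ∈ II Gi 0 := by
  have : MonoidAlgebra.of ℚ G x = del x + 1 := by unfold del; abel
  rw [this]
  exact Submodule.add_mem _ (II_anti Gi (Nat.zero_le w) (del_mem_II Gi hw hx)) (one_mem_II Gi)

theorem del_pow_mem_II {x : G} {w : ℕ} (hw : 3 ≤ w) (hx : x ∈ Gi w) (k : ℕ) :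
    del x ^ k ∈ II Gi (w * k) := by
  induction k with
  | zero => simpa using one_mem_II Gi
  | succ k ih =>
    rw [pow_succ, Nat.mul_succ]
    exact II_mul Gi ih (del_mem_II Gi hw hx)

theorem ext_II {m : ℕ} {F : G → ℚ} (hF : F ∈ Pol Gi 3 (m : ℤ)) {u : MonoidAlgebra ℚ G}
    (hu : u ∈ II Gi (m + 1)) : ext F u = 0 := by
  unfold II at hu
  induction hu using Submodule.span_induction with
  | zero => simp
  | add x y _ _ hx hy => rw [map_add, hx, hy, add_zero]
  | smul c x _ hx => rw [map_smul, hx, smul_zero]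
  | mem x hx =>
    obtain ⟨L, hL, hw, rfl⟩ := hx
    exact hF L hL (by omega)

/-- binomial polynomials -/
def bb : ℕ → ℚ → ℚ
  | 0, _ => 1
  | k + 1, t => bb k t * (t - k) / (k + 1)

theorem bb_pascal (k : ℕ) (t : ℚ) : bb (k + 1) (t + 1) = bb k t + bb (k + 1) t := by
  induction k with
  | zero => simp [bb]; ring
  | succ k ih =>
    have e1 : bb (k + 2) (t + 1) = bb (k + 1) (t + 1) * (t + 1 - ((k + 1 : ℕ) : ℚ)) / (((k + 1 : ℕ) : ℚ) + 1) := rfl
    have e2 : bb (k + 2) t = bb (k + 1) t * (t - ((k + 1 : ℕ) : ℚ)) / (((k + 1 : ℕ) : ℚ) + 1) := rfl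
    have e3 : bb (k + 1) t = bb k t * (t - k) / (k + 1) := rfl
    have h1 : ((k : ℚ) + 1) ≠ 0 := by positivity
    have h2 : ((k : ℚ) + 1 + 1) ≠ 0 := by positivity
    have e4 : bb k t * (t - k) = bb (k + 1) t * (k + 1) := by rw [e3]; field_simp
    rw [e1, e2, ih]
    push_cast
    rw [eq_comm, ← sub_eq_zero]
    field_simp
    linear_combination (-1 : ℚ) * e4

theorem bb_zero (k : ℕ) : bb (k + 1) 0 = 0 := by
  induction k with
  | zero => simp [bb]
  | succ k ih =>
    have e1 : bb (k + 2) 0 = bb (k + 1) 0 * (0 - ((k + 1 : ℕ) : ℚ)) / (((k + 1 : ℕ) : ℚ) + 1) := rfl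
    rw [e1, ih]; simp

/-- truncated binomial expansion -/
noncomputable def EE (M : ℕ) (x : G) (t : ℤ) : MonoidAlgebra ℚ G :=
  ∑ k ∈ Finset.range M, bb k t • del x ^ k

theorem EE_zero (M : ℕ) (x : G) : EE (M + 1) x 0 = 1 := by
  unfold EE
  rw [Finset.sum_range_succ']
  have : ∀ k ∈ Finset.range M, bb (k + 1) ((0 : ℤ) : ℚ) • del x ^ (k + 1) = 0 := by
    intro k _
    rw [Int.cast_zero, bb_zero, zero_smul]
  rw [Finset.sum_eq_zero this]
  simp [bb]

theorem EE_succ (M : ℕ) (x : G) (t : ℤ) :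
    EE (M + 1) x t * MonoidAlgebra.of ℚ G x = EE (M + 1) x (t + 1) + bb M t • del x ^ (M + 1) := by
  have hx : MonoidAlgebra.of ℚ G x = 1 + del x := by unfold del; abel
  unfold EE
  rw [hx, mul_add, mul_one, Finset.sum_mul]
  have e1 : ∑ k ∈ Finset.range (M + 1), bb k (t : ℚ) • del x ^ k * del x
      = (∑ k ∈ Finset.range M, bb k (t : ℚ) • del x ^ (k + 1)) + bb M t • del x ^ (M + 1) := by
    rw [Finset.sum_range_succ]
    simp only [smul_mul_assoc, pow_succ]
  rw [e1, Finset.sum_range_succ' (fun k => bb k (t : ℚ) • del x ^ k),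
    Finset.sum_range_succ' (fun k => bb k ((t + 1 : ℤ) : ℚ) • del x ^ k)]
  have e2 : ∑ k ∈ Finset.range M, bb (k + 1) ((t + 1 : ℤ) : ℚ) • del x ^ (k + 1)
      = (∑ k ∈ Finset.range M, bb (k + 1) (t : ℚ) • del x ^ (k + 1))
        + ∑ k ∈ Finset.range M, bb k (t : ℚ) • del x ^ (k + 1) := by
    rw [← Finset.sum_add_distrib]
    refine Finset.sum_congr rfl fun k _ => ?_
    rw [← add_smul]
    congr 1
    push_cast
    rw [bb_pascal]; ring
  rw [e2]
  simp only [bb]
  abel

theorem of_zpow_sub {x : G} {w : ℕ} (hw : 3 ≤ w) (hx : x ∈ Gi w) (M : ℕ) (t : ℤ) :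
    MonoidAlgebra.of ℚ G (x ^ t) - EE (M + 1) x t ∈ II Gi (M + 1) := by
  have hM : ∀ t : ℤ, bb M (t : ℚ) • del x ^ (M + 1) ∈ II Gi (M + 1) := fun t =>
    Submodule.smul_mem _ _ (II_anti Gi (by nlinarith) (del_pow_mem_II Gi hw hx (M + 1)))
  have hx' : x⁻¹ ∈ Gi w := (Gi w).inv_mem hx
  induction t using Int.induction_on with
  | zero => rw [zpow_zero, EE_zero, map_one, sub_self]; exact Submodule.zero_mem _
  | succ i ih =>
    have h1 := II_mul Gi ih (of_mem_II Gi hw hx)
    rw [sub_mul, EE_succ, ← map_mul, ← zpow_add_one] at h1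
    have h2 := Submodule.add_mem _ h1 (hM i)
    convert h2 using 1
    abel
  | pred i ih =>
    have h0 := EE_succ M x (-(i : ℤ) - 1)
    have e : -(i : ℤ) - 1 + 1 = -i := by ring
    rw [e] at h0
    have h1 := II_mul Gi ih (of_mem_II Gi hw hx')
    have e1 : (MonoidAlgebra.of ℚ G (x ^ (-(i : ℤ))) - EE (M + 1) x (-(i : ℤ)))
        * MonoidAlgebra.of ℚ G x⁻¹ = MonoidAlgebra.of ℚ G (x ^ (-(i : ℤ) - 1))
          - EE (M + 1) x (-(i : ℤ) - 1)
          + (bb M ((-(i : ℤ) - 1 : ℤ) : ℚ) • del x ^ (M + 1)) * MonoidAlgebra.of ℚ G x⁻¹ := by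
      have e2 : EE (M + 1) x (-(i : ℤ)) = EE (M + 1) x (-(i : ℤ) - 1) * MonoidAlgebra.of ℚ G x
          - bb M ((-(i : ℤ) - 1 : ℤ) : ℚ) • del x ^ (M + 1) := by rw [h0]; abel
      rw [e2, sub_mul, sub_mul, mul_assoc, ← map_mul, ← map_mul, mul_inv_cancel, map_one, mul_one,
        ← zpow_sub_one]
      abel
    rw [e1] at h1
    have h2 := II_mul Gi (hM (-(i : ℤ) - 1)) (of_mem_II Gi hw hx')
    rw [add_zero] at h1 h2
    have h3 := Submodule.sub_mem _ h1 h2
    convert h3 using 1
    abel

/-- `t ↦ bb k (τ g)` has weight `w k` -/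
theorem bb_pol (hP : S_PROD) {w : ℕ} {f : G → ℚ} (hf : f ∈ Pol Gi 3 (w : ℤ)) (k : ℕ) :
    (fun g => bb k (f g)) ∈ Pol Gi 3 ((w * k : ℕ) : ℤ) := by
  induction k with
  | zero => exact pol_const Gi (by simp) 1
  | succ k ih =>
    have h1 : (fun g => f g + (-(k : ℚ))) ∈ Pol Gi 3 (w : ℤ) :=
      pol_add Gi hf (pol_const Gi (by positivity) _)
    have h2 := hP G Gi 3 (by norm_num) _ _ _ _ ih h1
    have h3 := pol_smul Gi (1 / ((k : ℚ) + 1)) h2
    have e : (((w * k : ℕ) : ℤ) + (w : ℤ)) = ((w * (k + 1) : ℕ) : ℤ) := by push_cast; ring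
    rw [e] at h3
    convert h3 using 1
    funext g
    show bb k (f g) * (f g - k) / (k + 1) = _
    ring

/-- algebra valued polynomial functions -/
noncomputable def SS : Submodule ℚ (G → MonoidAlgebra ℚ G) :=
  Submodule.span ℚ {φ | ∃ (w : ℕ) (f : G → ℚ) (β : MonoidAlgebra ℚ G),
    f ∈ Pol Gi 3 (w : ℤ) ∧ β ∈ II Gi w ∧ φ = fun g => f g • β}

theorem SS_val {φ : G → MonoidAlgebra ℚ G} (h : φ ∈ SS Gi) (g : G) : φ g ∈ II Gi 0 := by
  unfold SS at h
  induction h using Submodule.span_induction with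
  | zero => exact Submodule.zero_mem _
  | add x y _ _ hx hy => exact Submodule.add_mem _ hx hy
  | smul c x _ hx => exact Submodule.smul_mem _ c hx
  | mem x hx =>
    obtain ⟨w, f, β, hf, hβ, rfl⟩ := hx
    exact Submodule.smul_mem _ _ (II_anti Gi (Nat.zero_le w) hβ)

theorem SS_mul (hP : S_PROD) {φ ψ : G → MonoidAlgebra ℚ G} (hφ : φ ∈ SS Gi) (hψ : ψ ∈ SS Gi) :
    (fun g => φ g * ψ g) ∈ SS Gi := by
  unfold SS at hφ
  induction hφ using Submodule.span_induction with
  | zero =>
    have : (fun g : G => (0 : G → MonoidAlgebra ℚ G) g * ψ g) = 0 := by funext g; simp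
    rw [this]; exact Submodule.zero_mem _
  | add x y _ _ hx hy =>
    have : (fun g : G => (x + y) g * ψ g) = (fun g => x g * ψ g) + fun g => y g * ψ g := by
      funext g; simp [add_mul]
    rw [this]; exact Submodule.add_mem _ hx hy
  | smul c x _ hx =>
    have : (fun g : G => (c • x) g * ψ g) = c • fun g => x g * ψ g := by
      funext g; simp
    rw [this]; exact Submodule.smul_mem _ c hx
  | mem x hx =>
    obtain ⟨w, f, β, hf, hβ, rfl⟩ := hx
    unfold SS at hψ
    induction hψ using Submodule.span_induction with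
    | zero =>
      have : (fun g : G => f g • β * (0 : G → MonoidAlgebra ℚ G) g) = 0 := by funext g; simp
      rw [this]; exact Submodule.zero_mem _
    | add x y _ _ hx hy =>
      have : (fun g : G => f g • β * (x + y) g)
          = (fun g => f g • β * x g) + fun g => f g • β * y g := by
        funext g; simp [mul_add]
      rw [this]; exact Submodule.add_mem _ hx hy
    | smul c x _ hx =>
      have : (fun g : G => f g • β * (c • x) g) = c • fun g => f g • β * x g := by
        funext g; simp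
      rw [this]; exact Submodule.smul_mem _ c hx
    | mem y hy =>
      obtain ⟨w', f', β', hf', hβ', rfl⟩ := hy
      refine Submodule.subset_span ⟨w + w', fun g => f g * f' g, β * β', ?_, II_mul Gi hβ hβ', ?_⟩
      · have := hP G Gi 3 (by norm_num) _ _ _ _ hf hf'
        push_cast
        exact this
      · funext g
        show (f g • β) * (f' g • β') = (f g * f' g) • (β * β')
        rw [smul_mul_assoc, mul_smul_comm, mul_smul]

theorem ext_SS {m : ℕ} {F : G → ℚ} (hF : F ∈ Pol Gi 3 (m : ℤ)) {φ : G → MonoidAlgebra ℚ G}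
    (h : φ ∈ SS Gi) : (fun g => ext F (φ g)) ∈ Pol Gi 3 (m : ℤ) := by
  unfold SS at h
  induction h using Submodule.span_induction with
  | zero =>
    have : (fun g : G => ext F ((0 : G → MonoidAlgebra ℚ G) g)) = fun _ => 0 := by
      funext g; simp
    rw [this]; exact pol_const Gi (by positivity) 0
  | add x y _ _ hx hy =>
    have : (fun g : G => ext F ((x + y) g)) = fun g => ext F (x g) + ext F (y g) := by
      funext g; simp
    rw [this]; exact pol_add Gi hx hy
  | smul c x _ hx =>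
    have : (fun g : G => ext F ((c • x) g)) = fun g => c * ext F (x g) := by
      funext g; simp
    rw [this]; exact pol_smul Gi c hx
  | mem x hx =>
    obtain ⟨w, f, β, hf, hβ, rfl⟩ := hx
    have e : (fun g : G => ext F (f g • β)) = fun g => ext F β * f g := by
      funext g; rw [map_smul, smul_eq_mul, mul_comm]
    rw [e]
    by_cases hw : w ≤ m
    · exact pol_smul Gi _ (pol_mono Gi (by exact_mod_cast hw) hf)
    · have : ext F β = 0 := ext_II Gi hF (II_anti Gi (by omega) hβ)
      rw [this]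
      have : (fun g : G => (0 : ℚ) * f g) = fun _ => 0 := by funext g; simp
      rw [this]; exact pol_const Gi (by positivity) 0

/-- the predicate `polynomial modulo II (m+1)` -/
def PP (m : ℕ) (φ : G → MonoidAlgebra ℚ G) : Prop :=
  ∃ φ1 ∈ SS Gi, ∀ g, φ g - φ1 g ∈ II Gi (m + 1)

theorem PP_mul (hP : S_PROD) {m : ℕ} {φ ψ : G → MonoidAlgebra ℚ G} (hφ : PP Gi m φ)
    (hψ : PP Gi m ψ) : PP Gi m (fun g => φ g * ψ g) := by
  obtain ⟨φ1, h1, h2⟩ := hφ
  obtain ⟨ψ1, h3, h4⟩ := hψ
  refine ⟨_, SS_mul Gi hP h1 h3, fun g => ?_⟩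
  have hψ0 : ψ g ∈ II Gi 0 := by
    have := Submodule.add_mem _ (II_anti Gi (Nat.zero_le _) (h4 g)) (SS_val Gi h3 g)
    simpa using this
  have e : φ g * ψ g - φ1 g * ψ1 g = (φ g - φ1 g) * ψ g + φ1 g * (ψ g - ψ1 g) := by
    noncomm_ring
  rw [e]
  refine Submodule.add_mem _ ?_ ?_
  · have := II_mul Gi (h2 g) hψ0
    simpa using this
  · have := II_mul Gi (SS_val Gi h1 g) (h4 g)
    simpa using this

theorem PP_one {m : ℕ} : PP Gi m (fun _ : G => (1 : MonoidAlgebra ℚ G)) := by
  refine ⟨fun _ => 1, Submodule.subset_span ⟨0, fun _ => 1, 1, ?_, one_mem_II Gi, ?_⟩, fun g => ?_⟩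
  · exact pol_const Gi (by simp) 1
  · funext g; simp
  · rw [sub_self]; exact Submodule.zero_mem _

theorem PP_zpow (hP : S_PROD) {m w : ℕ} (hw : 3 ≤ w) {x : G} (hx : x ∈ Gi w) {τ : G → ℤ}
    (hτ : (fun g => (τ g : ℚ)) ∈ Pol Gi 3 (w : ℤ)) :
    PP Gi m (fun g => MonoidAlgebra.of ℚ G (x ^ τ g)) := by
  refine ⟨fun g => EE (m + 1) x (τ g), ?_, fun g => of_zpow_sub Gi hw hx m (τ g)⟩
  have : (fun g => EE (m + 1) x (τ g))
      = ∑ k ∈ Finset.range (m + 1), fun g => bb k (τ g) • del x ^ k := by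
    funext g
    rw [Finset.sum_apply]
    rfl
  rw [this]
  refine Submodule.sum_mem _ fun k _ => Submodule.subset_span
    ⟨w * k, fun g => bb k (τ g), del x ^ k, bb_pol Gi hP hτ k, del_pow_mem_II Gi hw hx k, rfl⟩

theorem ext_PP {m : ℕ} {F : G → ℚ} (hF : F ∈ Pol Gi 3 (m : ℤ)) {φ : G → MonoidAlgebra ℚ G}
    (h : PP Gi m φ) : (fun g => ext F (φ g)) ∈ Pol Gi 3 (m : ℤ) := by
  obtain ⟨φ1, h1, h2⟩ := h
  have : (fun g => ext F (φ g)) = fun g => ext F (φ1 g) := by
    funext g
    have := ext_II Gi hF (h2 g)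
    rw [map_sub, sub_eq_zero] at this
    exact this
  rw [this]
  exact ext_SS Gi hF h1

/-- composition lemma -/
theorem compose (hP : S_PROD) {m : ℕ} {F : G → ℚ} (hF : F ∈ Pol Gi 3 (m : ℤ))
    (L : List (ℕ × G × (G → ℤ))) (hL : ∀ p ∈ L, 3 ≤ p.1 ∧ p.2.1 ∈ Gi p.1 ∧
      (fun g => (p.2.2 g : ℚ)) ∈ Pol Gi 3 (p.1 : ℤ)) :
    (fun g => F ((L.map fun p => p.2.1 ^ p.2.2 g).prod)) ∈ Pol Gi 3 (m : ℤ) := by
  have key : PP Gi m fun g => MonoidAlgebra.of ℚ G ((L.map fun p => p.2.1 ^ p.2.2 g).prod) := by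
    induction L with
    | nil =>
      simp only [List.map_nil, List.prod_nil, map_one]
      exact PP_one Gi
    | cons p L ih =>
      have h1 := ih fun q hq => hL q (List.mem_cons_of_mem _ hq)
      obtain ⟨h2, h3, h4⟩ := hL p (List.mem_cons_self ..)
      have := PP_mul Gi hP (PP_zpow Gi hP (m := m) h2 h3 h4) h1
      simpa only [List.map_cons, List.prod_cons, map_mul] using this
  have := ext_PP Gi hF key
  simpa only [ext_of] using this

theorem II_zero_span (h3 : ∀ w, 3 ≤ w → Gi w ≤ Gi 3) {u : MonoidAlgebra ℚ G}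
    (hu : u ∈ II Gi 0) : u ∈ Submodule.span ℚ (MonoidAlgebra.of ℚ G '' (Gi 3 : Set G)) := by
  unfold II at hu
  induction hu using Submodule.span_induction with
  | zero => exact Submodule.zero_mem _
  | add x y _ _ hx hy => exact Submodule.add_mem _ hx hy
  | smul c x _ hx => exact Submodule.smul_mem _ c hx
  | mem x hx =>
    obtain ⟨L, hL, -, rfl⟩ := hx
    induction L with
    | nil =>
      exact Submodule.subset_span ⟨1, (Gi 3).one_mem, by rw [map_one, List.map_nil, List.prod_nil]⟩
    | cons p L ih =>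
      have ih' := ih fun q hq => hL q (List.mem_cons_of_mem _ hq)
      obtain ⟨hp, hx⟩ := hL p (List.mem_cons_self ..)
      have hx3 := h3 _ hp hx
      have hdel : del p.2 = MonoidAlgebra.of ℚ G p.2 - 1 := rfl
      rw [List.map_cons, List.prod_cons, hdel, sub_mul, one_mul]
      refine Submodule.sub_mem _ ?_ ih'
      clear ih
      generalize (L.map fun p => del p.2).prod = v at ih' ⊢
      induction ih' using Submodule.span_induction with
      | zero => rw [mul_zero]; exact Submodule.zero_mem _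
      | add x y _ _ hx hy => rw [mul_add]; exact Submodule.add_mem _ hx hy
      | smul c x _ hx => rw [mul_smul_comm]; exact Submodule.smul_mem _ c hx
      | mem y hy =>
        obtain ⟨z, hz, rfl⟩ := hy
        exact Submodule.subset_span ⟨p.2 * z, (Gi 3).mul_mem hx3 hz, by rw [map_mul]⟩

theorem pol_congr (h3 : ∀ w, 3 ≤ w → Gi w ≤ Gi 3) {f f' : G → ℚ} {w : ℤ}
    (hff : ∀ g ∈ Gi 3, f g = f' g) (hf : f ∈ Pol Gi 3 w) : f' ∈ Pol Gi 3 w := by
  intro L hL hw
  have hu : (L.map fun p => del p.2).prod ∈ II Gi 0 :=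
    Submodule.subset_span ⟨L, hL, Nat.zero_le _, rfl⟩
  have h0 := hf L hL hw
  have hs := II_zero_span Gi h3 hu
  rw [← h0]
  generalize (L.map fun p => del p.2).prod = u at hs
  induction hs using Submodule.span_induction with
  | zero => simp
  | add x y _ _ hx hy => rw [map_add, map_add, hx, hy]
  | smul c x _ hx => rw [map_smul, map_smul, hx]
  | mem x hx =>
    obtain ⟨z, hz, rfl⟩ := hx
    rw [ext_of, ext_of, hff z hz]

end basic

section malcev
variable {G : Type} [Group G]

theorem ofFn_split {n : ℕ} (f : Fin n → G) (i : ℕ) :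
    (List.ofFn f).prod = (List.ofFn fun j : Fin n => if (j : ℕ) < i then f j else 1).prod *
      (List.ofFn fun j : Fin n => if (j : ℕ) < i then 1 else f j).prod := by
  induction n generalizing i with
  | zero => simp
  | succ n ih =>
    cases i with
    | zero => simp
    | succ i =>
      rw [List.ofFn_succ, List.ofFn_succ, List.ofFn_succ, List.prod_cons, List.prod_cons,
        List.prod_cons, ih (fun j => f j.succ) i]
      simp [mul_assoc]

theorem ofFn_single {n : ℕ} (f : Fin n → G) (i : Fin n) :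
    (List.ofFn fun j : Fin n => if j = i then f j else 1).prod = f i := by
  induction n with
  | zero => exact i.elim0
  | succ n ih =>
    rw [List.ofFn_succ, List.prod_cons]
    refine Fin.cases ?_ (fun i => ?_) i
    · have : (List.ofFn fun j : Fin n => if j.succ = (0 : Fin (n + 1)) then f j.succ else 1).prod
          = 1 := by
        have : (fun j : Fin n => if j.succ = (0 : Fin (n + 1)) then f j.succ else 1)
            = fun _ => 1 := by
          funext j; simp [Fin.succ_ne_zero]
        rw [this]; simp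
      rw [this]; simp
    · have h := ih (fun j => f j.succ) i
      simp only [Fin.succ_inj]
      rw [h]
      simp [(Fin.succ_ne_zero i).symm]

theorem list_filter_prod {α : Type} (l : List α) (P : α → Prop) [DecidablePred P] (f : α → G) :
    (l.map fun x => if P x then f x else 1).prod = ((l.filter fun x => P x).map f).prod := by
  induction l with
  | nil => simp
  | cons x l ih =>
    by_cases h : P x
    · rw [List.map_cons, List.prod_cons, if_pos h, ih, List.filter_cons_of_pos (by simpa using h),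
        List.map_cons, List.prod_cons]
    · rw [List.map_cons, List.prod_cons, if_neg h, ih, List.filter_cons_of_neg (by simpa using h),
        one_mul]

variable {n : ℕ} {a : Fin n → G}

theorem coord_spec (ha : IsMalcevBasis a) (g : G) : mprod a (coord a ha g) = g :=
  (ha.unique_expr g).choose_spec.1

theorem coord_unique (ha : IsMalcevBasis a) (g : G) (x : Fin n → ℤ) (h : mprod a x = g) :
    coord a ha g = x :=
  ((ha.unique_expr g).choose_spec.2 x h).symm

theorem mprod_split (a : Fin n → G) (x : Fin n → ℤ) (i : ℕ) :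
    mprod a x = mprod a (fun j => if (j : ℕ) < i then x j else 0) *
      mprod a (fun j => if (j : ℕ) < i then 0 else x j) := by
  unfold mprod
  rw [ofFn_split (fun j => a j ^ x j) i]
  congr 2
  · congr 1; funext j; by_cases h : (j : ℕ) < i <;> simp [h]
  · congr 1; funext j; by_cases h : (j : ℕ) < i <;> simp [h]

theorem mprod_single (a : Fin n → G) (x : Fin n → ℤ) (i : Fin n) :
    mprod a (fun j => if j = i then x j else 0) = a i ^ x i := by
  unfold mprod
  rw [← ofFn_single (fun j => a j ^ x j) i]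
  congr 1; congr 1; funext j; by_cases h : j = i <;> simp [h]

theorem mprod_zero (a : Fin n → G) : mprod a (fun _ => 0) = 1 := by
  unfold mprod; simp

/-- peel off the first nonzero coordinate -/
theorem mprod_peel (a : Fin n → G) (x : Fin n → ℤ) (i : Fin n)
    (hx : ∀ j : Fin n, (j : ℕ) < i → x j = 0) :
    mprod a x = a i ^ x i * mprod a (fun j => if (j : ℕ) < (i : ℕ) + 1 then 0 else x j) := by
  rw [mprod_split a x ((i : ℕ) + 1), ← mprod_single a x i]
  congr 2
  funext j
  by_cases h : j = i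
  · subst h; simp
  · rw [if_neg h]
    split_ifs with h2
    · refine hx j ?_
      have : (j : ℕ) ≠ i := fun h3 => h (Fin.ext h3)
      omega
    · rfl

theorem mprod_mem_tail (a : Fin n → G) (x : Fin n → ℤ) (i : ℕ)
    (hx : ∀ j : Fin n, (j : ℕ) < i → x j = 0) : mprod a x ∈ tailSub a i := by
  unfold mprod
  refine Subgroup.list_prod_mem _ ?_
  intro y hy
  rw [List.mem_ofFn'] at hy
  obtain ⟨j, rfl⟩ := hy
  show a j ^ x j ∈ _
  by_cases h : (j : ℕ) < i
  · rw [hx j h, zpow_zero]; exact Subgroup.one_mem _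
  · have h2 : a j ∈ tailSub a i := Subgroup.subset_closure ⟨j, by omega, rfl⟩
    exact Subgroup.zpow_mem _ h2 _

theorem tail_bot (a : Fin n → G) (i : ℕ) (h : n ≤ i) : tailSub a i = ⊥ := by
  unfold tailSub
  rw [Subgroup.closure_eq_bot_iff]
  rintro g ⟨j, hj, -⟩
  have := j.2
  omega

theorem tail_normal (ha : IsMalcevBasis a) (i : ℕ) : (tailSub a (i + 1)).Normal := by
  constructor
  intro h hh g
  have h1 : ⁅h, g⁆ ∈ tailSub a (i + 1 + 1) :=
    ha.central (i + 1) (Subgroup.commutator_mem_commutator hh (Subgroup.mem_top g))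
  have h2 : tailSub a (i + 1 + 1) ≤ tailSub a (i + 1) := by
    unfold tailSub
    refine Subgroup.closure_mono ?_
    rintro x ⟨j, hj, rfl⟩
    exact ⟨j, by omega, rfl⟩
  have h3 : g * h * g⁻¹ = ⁅h, g⁆⁻¹ * h := by
    rw [commutatorElement_def]; group
  rw [h3]
  exact Subgroup.mul_mem _ (Subgroup.inv_mem _ (h2 h1)) hh

theorem tail_coord (ha : IsMalcevBasis a) (i : ℕ) : ∀ g ∈ tailSub a i,
    ∃ x : Fin n → ℤ, (∀ j : Fin n, (j : ℕ) < i → x j = 0) ∧ mprod a x = g := by
  by_cases hi : n ≤ i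
  · intro g hg
    rw [tail_bot a i hi, Subgroup.mem_bot] at hg
    exact ⟨fun _ => 0, fun _ _ => rfl, by rw [mprod_zero, hg]⟩
  · push_neg at hi
    have ih : ∀ g ∈ tailSub a (i + 1),
      ∃ x : Fin n → ℤ, (∀ j : Fin n, (j : ℕ) < i + 1 → x j = 0) ∧ mprod a x = g :=
      tail_coord ha (i + 1)
    have hN := tail_normal ha i
    have key : ∀ g ∈ tailSub a i, ∃ x : ℤ, ∃ h ∈ tailSub a (i + 1), g = a ⟨i, hi⟩ ^ x * h := by
      intro g hg
      unfold tailSub at hg
      induction hg using Subgroup.closure_induction with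
      | mem g hg =>
        obtain ⟨j, hj, rfl⟩ := hg
        by_cases h : (j : ℕ) = i
        · have : j = ⟨i, hi⟩ := Fin.ext h
          subst this
          exact ⟨1, 1, Subgroup.one_mem _, by simp⟩
        · exact ⟨0, a j, Subgroup.subset_closure ⟨j, by omega, rfl⟩, by simp⟩
      | one => exact ⟨0, 1, Subgroup.one_mem _, by simp⟩
      | mul g g' _ _ h1 h2 =>
        obtain ⟨x, h, hh, rfl⟩ := h1
        obtain ⟨x', h', hh', rfl⟩ := h2
        refine ⟨x + x', (a ⟨i, hi⟩ ^ x')⁻¹ * h * a ⟨i, hi⟩ ^ x' * h', ?_, by rw [zpow_add]; group⟩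
        refine Subgroup.mul_mem _ ?_ hh'
        have := hN.conj_mem h hh (a ⟨i, hi⟩ ^ x')⁻¹
        simpa using this
      | inv g _ h1 =>
        obtain ⟨x, h, hh, rfl⟩ := h1
        refine ⟨-x, a ⟨i, hi⟩ ^ x * h⁻¹ * (a ⟨i, hi⟩ ^ x)⁻¹, ?_, by rw [zpow_neg]; group⟩
        exact hN.conj_mem h⁻¹ (Subgroup.inv_mem _ hh) _
    intro g hg
    obtain ⟨x, h, hh, rfl⟩ := key g hg
    obtain ⟨y, hy, rfl⟩ := ih h hh
    refine ⟨fun j => if (j : ℕ) = i then x else y j, ?_, ?_⟩
    · intro j hj
      have h1 : (j : ℕ) ≠ i := by omega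
      simp only [h1, if_false]
      exact hy j (by omega)
    · rw [mprod_peel a _ ⟨i, hi⟩ (by
        intro j hj
        have h1 : (j : ℕ) ≠ i := by
          have : (j : ℕ) < i := hj
          omega
        simp only [h1, if_false]
        have : (j : ℕ) < i := hj
        exact hy j (by omega))]
      simp only [if_true]
      congr 2
      funext j
      by_cases h1 : (j : ℕ) < i + 1
      · rw [if_pos h1, hy j h1]
      · rw [if_neg h1, if_neg (by omega)]
termination_by n - i

theorem coord_tail (ha : IsMalcevBasis a) (i : ℕ) (g : G) (hg : g ∈ tailSub a i) (j : Fin n)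
    (hj : (j : ℕ) < i) : coord a ha g j = 0 := by
  obtain ⟨x, hx, hxg⟩ := tail_coord ha i g hg
  rw [coord_unique ha g x hxg]
  exact hx j hj

variable (W : WData n G)

theorem Gi_le {i j : ℕ} (hi : 1 ≤ i) (hij : i ≤ j) : W.Gi j ≤ W.Gi i := by
  induction j, hij using Nat.le_induction with
  | base => exact le_rfl
  | succ j hj ih => exact (W.Gi_anti j (by omega)).trans ih

theorem lead_one {i : ℕ} (h1 : 1 ≤ i) (hn : i ≤ n) : W.lead i 1 = 0 := by
  have := W.lead_mul i h1 hn 1 (Subgroup.one_mem _) 1 (Subgroup.one_mem _)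
  rw [mul_one] at this
  omega

theorem lead_inv {i : ℕ} (h1 : 1 ≤ i) (hn : i ≤ n) {x : G} (hx : x ∈ W.Gi i) :
    W.lead i x⁻¹ = - W.lead i x := by
  have := W.lead_mul i h1 hn x hx x⁻¹ (Subgroup.inv_mem _ hx)
  rw [mul_inv_cancel, lead_one W h1 hn] at this
  omega

theorem lead_zpow {i : ℕ} (h1 : 1 ≤ i) (hn : i ≤ n) {x : G} (hx : x ∈ W.Gi i) (t : ℤ) :
    W.lead i (x ^ t) = t * W.lead i x := by
  induction t using Int.induction_on with
  | zero => simp [lead_one W h1 hn]
  | succ k ih =>
    rw [zpow_add_one, W.lead_mul i h1 hn _ (Subgroup.zpow_mem _ hx _) _ hx, ih]; ring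
  | pred k ih =>
    rw [zpow_sub_one, W.lead_mul i h1 hn _ (Subgroup.zpow_mem _ hx _) _ (Subgroup.inv_mem _ hx),
      ih, lead_inv W h1 hn hx]; ring

theorem F_mul {i : ℕ} {F : G → ℚ} (hF : F ∈ Pol W.Gi 3 (i : ℤ)) (hi : 3 ≤ i) {x y : G}
    (hx : x ∈ W.Gi 3) (hy : y ∈ W.Gi i) : F (x * y) = F x + F y - F 1 := by
  have h := hF [(3, x), (i, y)] (by simp [hx, hy, hi]) (by simp)
  simp only [List.map_cons, List.map_nil, List.prod_cons, List.prod_nil, mul_one] at h
  unfold del at h
  rw [sub_mul, mul_sub, mul_one, one_mul, map_sub, map_sub, map_sub, ← map_mul, ext_of, ext_of,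
    ext_of, ext_one] at h
  linarith

theorem main (hP : S_PROD) : S_POLT := by
  intro n G _ W hn a ha hfor
  have key : ∀ k : ℕ, ∀ j : Fin n, (j : ℕ) = k → 2 ≤ k →
      (fun g => (coord a ha g j : ℚ)) ∈ Pol W.Gi 3 ((k + 1 : ℕ) : ℤ) := by
    intro k
    induction k using Nat.strong_induction_on with
    | _ k ih =>
      intro j hj hk
      have hjn := j.2
      obtain ⟨haj, hlead, htail⟩ := hfor j (by omega)
      rw [hj] at haj hlead htail
      have hW3 : ∀ w, 3 ≤ w → W.Gi w ≤ W.Gi 3 := fun w hw => Gi_le W (by norm_num) hw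
      set F : G → ℚ := fun g => (W.c (k + 1) g : ℚ) with hFdef
      have hF1 : F ∈ Pol W.Gi 1 ((k + 1 : ℕ) : ℤ) := W.c_pol (k + 1) (by omega) (by omega)
      have hF : F ∈ Pol W.Gi 3 ((k + 1 : ℕ) : ℤ) := by
        intro L hL hw
        exact hF1 L (fun p hp => ⟨by have := (hL p hp).1; omega, (hL p hp).2⟩) hw
      -- the list of the smaller factors
      let L : List (ℕ × G × (G → ℤ)) :=
        ((List.finRange n).filter (fun l : Fin n => 2 ≤ (l : ℕ) ∧ (l : ℕ) < k)).map
          fun (l : Fin n) => ((l : ℕ) + 1, a l, fun g => coord a ha g l)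
      have hL : ∀ p ∈ L, 3 ≤ p.1 ∧ p.2.1 ∈ W.Gi p.1 ∧
          (fun g => (p.2.2 g : ℚ)) ∈ Pol W.Gi 3 (p.1 : ℤ) := by
        intro p hp
        obtain ⟨l, hl, rfl⟩ := List.mem_map.1 hp
        rw [List.mem_filter] at hl
        have hl2 : 2 ≤ (l : ℕ) ∧ (l : ℕ) < k := by simpa using hl.2
        exact ⟨by show 3 ≤ (l : ℕ) + 1; omega, (hfor l hl2.1).1, ih l hl2.2 l rfl hl2.1⟩
      have hcomp := compose W.Gi hP hF L hL
      have h1 := pol_add W.Gi hF (pol_smul W.Gi (-1) hcomp)
      have h2 := pol_smul W.Gi ((W.lead (k + 1) (a j) : ℤ) : ℚ) h1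
      refine pol_congr W.Gi hW3 ?_ h2
      intro g hg
      -- coordinates 0,1 vanish
      have h3 : W.Gi 3 = tailSub a 2 := ((hfor ⟨2, by omega⟩ (le_refl 2)).2.2).symm
      have hg01 : ∀ l : Fin n, (l : ℕ) < 2 → coord a ha g l = 0 := by
        intro l hl
        exact coord_tail ha 2 g (h3 ▸ hg) l hl
      set x := coord a ha g with hx
      have e0 : g = mprod a x := (coord_spec ha g).symm
      -- split
      have hLprod : (L.map fun p => p.2.1 ^ p.2.2 g).prod
          = mprod a (fun l => if (l : ℕ) < k then x l else 0) := by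
        have e1 : (L.map fun p => p.2.1 ^ p.2.2 g)
            = ((List.finRange n).filter (fun l : Fin n => 2 ≤ (l : ℕ) ∧ (l : ℕ) < k)).map
              fun (l : Fin n) => a l ^ x l := by
          rw [List.map_map]; rfl
        rw [e1, ← list_filter_prod]
        unfold mprod
        rw [List.ofFn_eq_map]
        congr 1
        refine List.map_congr_left fun l _ => ?_
        beta_reduce
        by_cases hl : (l : ℕ) < k
        · by_cases hl2 : 2 ≤ (l : ℕ)
          · rw [if_pos ⟨hl2, hl⟩, if_pos hl]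
          · rw [if_neg (fun h => hl2 h.1), if_pos hl, hg01 l (by omega), zpow_zero]
        · rw [if_neg (fun h => hl h.2), if_neg hl, zpow_zero]
      set h := mprod a (fun l => if (l : ℕ) < k then x l else 0) with hh
      set r := mprod a (fun l => if (l : ℕ) < k + 1 then 0 else x l) with hr
      have e2 : g = h * (a j ^ x j * r) := by
        rw [e0, mprod_split a x k, mprod_peel a (fun l => if (l : ℕ) < k then 0 else x l) j (by
          intro l hl
          rw [if_pos (by omega)])]
        rw [if_neg (by omega)]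
        congr 3
        funext l
        rw [hj]
        by_cases hl : (l : ℕ) < k + 1
        · rw [if_pos hl, if_pos hl]
        · rw [if_neg hl, if_neg hl, if_neg (by omega)]
      have hgen : ∀ l : Fin n, 2 ≤ (l : ℕ) → a l ∈ W.Gi (l + 1) := fun l hl => (hfor l hl).1
      have hh3 : h ∈ W.Gi 3 := by
        rw [h3]
        refine mprod_mem_tail a _ 2 fun l hl => ?_
        split_ifs
        · exact hg01 l hl
        · rfl
      have hr1 : r ∈ W.Gi (k + 2) := by
        rw [hr]
        unfold mprod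
        refine Subgroup.list_prod_mem _ ?_
        intro y hy
        rw [List.mem_ofFn'] at hy
        obtain ⟨l, rfl⟩ := hy
        show a l ^ (if (l : ℕ) < k + 1 then 0 else x l) ∈ _
        by_cases hl : (l : ℕ) < k + 1
        · rw [if_pos hl, zpow_zero]; exact Subgroup.one_mem _
        · exact Subgroup.zpow_mem _
            (Gi_le W (by omega) (by omega) (hgen l (by omega))) _
      have hajx : a j ^ x j ∈ W.Gi (k + 1) := Subgroup.zpow_mem _ haj _
      have hr2 : r ∈ W.Gi (k + 1) := Gi_le W (by omega) (by omega) hr1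
      have f1 : F g = F h + F (a j ^ x j * r) - F 1 := by
        conv_lhs => rw [e2]
        exact F_mul W hF (by omega) hh3 (Subgroup.mul_mem _ hajx hr2)
      have f2 : F 1 = 0 := by
        show ((W.c (k + 1) 1 : ℤ) : ℚ) = 0
        rw [W.c_lead (k + 1) (by omega) (by omega) 1 (Subgroup.one_mem _),
          lead_one W (by omega) (by omega)]
        simp
      have f3 : F (a j ^ x j * r) = x j * (W.lead (k + 1) (a j) : ℤ) := by
        show ((W.c (k + 1) (a j ^ x j * r) : ℤ) : ℚ) = _
        rw [W.c_lead (k + 1) (by omega) (by omega) _ (Subgroup.mul_mem _ hajx hr2),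
          W.lead_mul (k + 1) (by omega) (by omega) _ hajx _ hr2,
          (W.lead_zero (k + 1) (by omega) (by omega) r hr2).2 hr1,
          lead_zpow W (by omega) (by omega) haj]
        push_cast; ring
      rw [hLprod]
      show ((W.lead (k + 1) (a j) : ℤ) : ℚ) * (F g + -1 * F h) = (x j : ℚ)
      rw [f1, f2, f3]
      rcases hlead with h | h
      · rw [h]; push_cast; ring
      · rw [h]; push_cast; ring
  intro j hj
  exact key j j rfl hj

end malcev

end NK639.POLT
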