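import Pool.Agent.R639.NK.St

/-!
# Piece PROD of the project on MP_41a35f_al
-/

namespace NK639.PROD

open NK639

variable {G : Type} [Group G]

/-- difference operator -/
def D (x : G) (f : G → ℚ) : G → ℚ := fun y => f (x * y) - f y

theorem ext_del_mul (f : G → ℚ) (x : G) (u : MonoidAlgebra ℚ G) :
    ext f (del x * u) = ext (D x f) u := by
  induction u using MonoidAlgebra.induction_on with
  | of y =>
    have h1 : del x * MonoidAlgebra.of ℚ G y = MonoidAlgebra.of ℚ G (x * y) -
        MonoidAlgebra.of ℚ G y := by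
      rw [del, sub_mul, one_mul, ← (MonoidAlgebra.of ℚ G).map_mul]
    rw [h1, map_sub, ext_of, ext_of, ext_of]
    rfl
  | add a b ha hb => rw [mul_add, map_add, map_add, ha, hb]
  | smul r a ha => rw [mul_smul_comm, map_smul, map_smul, ha]

theorem ext_add (f g : G → ℚ) (u : MonoidAlgebra ℚ G) :
    ext (fun y => f y + g y) u = ext f u + ext g u := by
  induction u using MonoidAlgebra.induction_on with
  | of y => rw [ext_of, ext_of, ext_of]
  | add a b ha hb =>
    rw [map_add, map_add, map_add, ha, hb]
    ring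
  | smul r a ha => rw [map_smul, map_smul, map_smul, ha, smul_add]

theorem D_mem {Gi : ℕ → Subgroup G} {lo : ℕ} {w : ℤ} {f : G → ℚ} (hf : f ∈ Pol Gi lo w)
    {i : ℕ} {x : G} (hi : lo ≤ i) (hx : x ∈ Gi i) : D x f ∈ Pol Gi lo (w - i) := by
  intro L hL hw
  have h := hf ((i, x) :: L) (by
    intro p hp
    rcases List.mem_cons.1 hp with h | h
    · subst h
      exact ⟨hi, hx⟩
    · exact hL p h) (by
    rw [List.map_cons, List.sum_cons, Nat.cast_add]
    simp only
    omega)
  rw [List.map_cons, List.prod_cons, ext_del_mul] at h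
  exact h

theorem D_mul (x : G) (f g : G → ℚ) :
    D x (fun y => f y * g y) =
      fun y => (D x f y * D x g y + D x f y * g y) + f y * D x g y := by
  funext y
  simp only [D]
  ring

theorem key (Gi : ℕ → Subgroup G) (lo : ℕ) : ∀ (L : List (ℕ × G)) (w w' : ℤ) (f g : G → ℚ),
    f ∈ Pol Gi lo w → g ∈ Pol Gi lo w' → (∀ p ∈ L, lo ≤ p.1 ∧ p.2 ∈ Gi p.1) →
    w + w' < ((L.map Prod.fst).sum : ℕ) →
    ext (fun x => f x * g x) ((L.map fun p => del p.2).prod) = 0 := by
  intro L
  induction L with
  | nil =>
    intro w w' f g hf hg _ hw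
    have hw0 : w + w' < 0 := by simpa using hw
    rw [List.map_nil, List.prod_nil, ext_one]
    rcases lt_or_ge w 0 with h | h
    · have := hf [] (by simp) (by simpa using h)
      rw [List.map_nil, List.prod_nil, ext_one] at this
      rw [this, zero_mul]
    · have := hg [] (by simp) (by simp; omega)
      rw [List.map_nil, List.prod_nil, ext_one] at this
      rw [this, mul_zero]
  | cons p L ih =>
    obtain ⟨i, x⟩ := p
    intro w w' f g hf hg hL hw
    have hp := hL (i, x) (by simp)
    have hL' : ∀ p ∈ L, lo ≤ p.1 ∧ p.2 ∈ Gi p.1 := fun p hp => hL p (List.mem_cons_of_mem _ hp)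
    have hfx := D_mem hf hp.1 hp.2
    have hgx := D_mem hg hp.1 hp.2
    rw [List.map_cons, List.sum_cons, Nat.cast_add] at hw
    simp only at hw hfx hgx
    have h1 := ih _ _ _ _ hfx hgx hL' (by omega)
    have h2 := ih _ _ _ _ hfx hg hL' (by omega)
    have h3 := ih _ _ _ _ hf hgx hL' (by omega)
    rw [List.map_cons, List.prod_cons, ext_del_mul, D_mul, ext_add, ext_add, h1, h2, h3]
    simp

theorem main : S_PROD := by
  intro G _ Gi lo _ w w' f g hf hg L hL hw
  exact key Gi lo L w w' f g hf hg hL hw

end NK639.PROD
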