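import Pool.Agent.R639.NK.St

/-! NK-QV: arithmetic of the lists `qv` (helper45). -/

namespace NK639.QV

open scoped BigOperators
open Finset

theorem main : S_QV := by
  intro r' L s hL
  set H : ℤ := (HH r' : ℤ) with hHdef
  have hH4 : 4 ≤ HH r' := by
    unfold HH
    have h1 : 1 ≤ 2 ^ r' := Nat.one_le_two_pow
    nlinarith
  have hH4' : (4 : ℤ) ≤ H := by rw [hHdef]; exact_mod_cast hH4
  have hL' : (1 : ℤ) ≤ L := by exact_mod_cast hL
  set g : Fin r' → ℤ := fun i => ((i : ℕ) + 1) * L + (s i : ℕ) with hg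
  have hkk : (kk r' L : ℤ) = H * ((r' + 1) * (r' + 2) * L) := by
    unfold kk; push_cast; ring
  have hcast : ∀ i : Fin r', qv r' L s (Fin.castSucc i) = H * g i := by
    intro i
    unfold qv
    rw [Fin.snoc_castSucc]
  have hlast : qv r' L s (Fin.last r') = H * ((r' + 1) * (r' + 2) * L - ∑ i, g i) := by
    unfold qv
    rw [Fin.snoc_last, hkk, mul_sub, Finset.mul_sum]
  have hglow : ∀ i : Fin r', (L : ℤ) ≤ g i := by
    intro i
    have h1 : (0 : ℤ) ≤ (((i : ℕ) : ℤ)) * L := by positivity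
    have h2 : (0 : ℤ) ≤ ((s i : ℕ) : ℤ) := by positivity
    simp only [hg]
    nlinarith
  have hgup : ∀ i : Fin r', g i + 1 ≤ (((i : ℕ) : ℤ) + 2) * L := by
    intro i
    have h2 : ((s i : ℕ) : ℤ) + 1 ≤ L := by exact_mod_cast (s i).2
    simp only [hg]
    nlinarith
  have hgup2 : ∀ i : Fin r', g i + 1 ≤ ((r' : ℤ) + 1) * L := by
    intro i
    refine (hgup i).trans ?_
    have : ((i : ℕ) : ℤ) + 1 ≤ r' := by exact_mod_cast i.2
    exact mul_le_mul_of_nonneg_right (by linarith) (by linarith)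
  have hsum : ∑ i, g i ≤ (r' : ℤ) * (((r' : ℤ) + 1) * L) := by
    refine le_trans (Finset.sum_le_card_nsmul _ _ (((r' : ℤ) + 1) * L) fun i _ => ?_) ?_
    · linarith [hgup2 i]
    · simp
  have hlastlow : 2 * (((r' : ℤ) + 1) * L) ≤ ((r' : ℤ) + 1) * (r' + 2) * L - ∑ i, g i := by
    nlinarith
  refine ⟨?_, ?_, ?_, hH4, ?_⟩
  · intro i j hij
    induction i using Fin.lastCases with
    | last => exact absurd (Fin.le_last j) (not_le.mpr hij)
    | cast i =>
      induction j using Fin.lastCases with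
      | last =>
        rw [hcast, hlast]
        refine mul_lt_mul_of_pos_left ?_ (by linarith)
        have h1 := hgup2 i
        have h2 : (0 : ℤ) ≤ ((r' : ℤ) + 1) * L := by positivity
        linarith
      | cast j =>
        rw [hcast, hcast]
        refine mul_lt_mul_of_pos_left ?_ (by linarith)
        have hij' : (i : ℕ) < (j : ℕ) := by simpa using hij
        have h1 := hgup i
        have h3 : ((i : ℕ) : ℤ) + 1 ≤ ((j : ℕ) : ℤ) := by exact_mod_cast hij'
        have h4 : (((i : ℕ) : ℤ) + 2) * L ≤ (((j : ℕ) : ℤ) + 1) * L :=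
          mul_le_mul_of_nonneg_right (by linarith) (by linarith)
        have h5 : (((j : ℕ) : ℤ) + 1) * L ≤ g j := by
          simp only [hg]
          have : (0 : ℤ) ≤ ((s j : ℕ) : ℤ) := by positivity
          linarith
        linarith
  · rw [Fin.sum_univ_castSucc, Finset.sum_congr rfl fun i _ => hcast i, hlast, hkk,
      ← Finset.mul_sum]
    ring
  · intro i
    induction i using Fin.lastCases with
    | last =>
      rw [hlast]
      refine ⟨Dvd.intro _ rfl, ?_⟩
      have h2 : (1 : ℤ) ≤ ((r' : ℤ) + 1) * L := by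
        have : (0 : ℤ) ≤ (r' : ℤ) * L := by positivity
        nlinarith
      nlinarith
    | cast i =>
      rw [hcast]
      refine ⟨Dvd.intro _ rfl, ?_⟩
      have := hglow i
      nlinarith
  · unfold kk
    have h0 : 2 ≤ (r' + 1) * (r' + 2) := by nlinarith [Nat.zero_le r']
    have h1 : 2 ≤ (r' + 1) * (r' + 2) * L := h0.trans (Nat.le_mul_of_pos_right _ hL)
    rw [mul_comm 2]
    exact Nat.mul_le_mul_left _ h1

end NK639.QV
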