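import Pool.Agent.R639.NK.St

/-! NK-R3 (helper164): isolating a column. -/

namespace NK639.R3

open scoped BigOperators
open Finset

/-- extension by zero -/
def exz {n : ℕ} (p : Fin n → ℤ) (k : ℕ) : ℤ := if h : k < n then p ⟨k, h⟩ else 0

theorem exz_coe {n : ℕ} (p : Fin n → ℤ) (i : Fin n) : exz p (i : ℕ) = p i := by
  unfold exz
  rw [dif_pos i.2]

theorem sum_lt {n : ℕ} (g : ℕ → ℤ) (i : Fin n) :
    (∑ l : Fin n, if l < i then g l else 0) = ∑ l ∈ range (i : ℕ), g l := by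
  have h1 : ∀ l : Fin n, (if l < i then g l else 0) =
      (fun k : ℕ => if k < (i : ℕ) then g k else 0) (l : ℕ) := by
    intro l
    show (if l < i then g l else 0) = if (l : ℕ) < (i : ℕ) then g l else 0
    by_cases h : l < i
    · rw [if_pos h, if_pos (Fin.lt_def.mp h)]
    · rw [if_neg h, if_neg (fun h' => h (Fin.lt_def.mpr h'))]
  rw [Finset.sum_congr rfl fun l _ => h1 l,
    Fin.sum_univ_eq_sum_range (fun k : ℕ => if k < (i : ℕ) then g k else 0) n,
    ← Finset.sum_filter]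
  refine Finset.sum_congr ?_ fun _ _ => rfl
  ext k
  rw [mem_filter, mem_range, mem_range]
  have := i.2
  omega

theorem sum_lt' {n : ℕ} (p : Fin n → ℤ) (i : Fin n) :
    (∑ l : Fin n, if l < i then p l else 0) = ∑ l ∈ range (i : ℕ), exz p l := by
  rw [← sum_lt]
  refine Finset.sum_congr rfl fun l _ => ?_
  rw [exz_coe]

theorem sum_all {n : ℕ} (p : Fin n → ℤ) : (∑ l : Fin n, p l) = ∑ l ∈ range n, exz p l := by
  rw [← Fin.sum_univ_eq_sum_range]
  exact Finset.sum_congr rfl fun l _ => (exz_coe p l).symm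

/-- the differences -/
def Xf {r' : ℕ} (P : Fin (r' + 1) → ℤ) (i : Fin r') : ℤ :=
  (∑ l : Fin (r' + 1), if l < i.succ then P l else 0) - P i.succ

theorem Xf_inj {r' : ℕ} (P p : Fin (r' + 1) → ℤ) (h : ∀ i, Xf P i = Xf p i)
    (hs : ∑ i, P i = ∑ i, p i) : P = p := by
  set g : ℕ → ℤ := fun k => exz P k - exz p k with hg
  have hE : ∀ k, k < r' → ∑ l ∈ range (k + 1), g l = g (k + 1) := by
    intro k hk
    have h1 := h ⟨k, hk⟩
    unfold Xf at h1
    rw [sum_lt', sum_lt'] at h1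
    have e1 : (((⟨k, hk⟩ : Fin r').succ : Fin (r' + 1)) : ℕ) = k + 1 := rfl
    rw [← exz_coe P, ← exz_coe p, e1] at h1
    rw [hg]
    simp only
    rw [Finset.sum_sub_distrib]
    linarith
  have hE2 : ∀ k, k ≤ r' → ∑ l ∈ range (k + 1), g l = 2 ^ k * g 0 := by
    intro k
    induction k with
    | zero => intro _; simp
    | succ k ih =>
      intro hk
      rw [Finset.sum_range_succ, ← hE k (by omega), ih (by omega)]
      ring
  have htot : ∑ l ∈ range (r' + 1), g l = 0 := by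
    rw [sum_all, sum_all] at hs
    rw [hg]
    simp only
    rw [Finset.sum_sub_distrib]
    linarith
  rw [hE2 r' le_rfl] at htot
  have hg0 : g 0 = 0 := by
    rcases mul_eq_zero.mp htot with h1 | h1
    · exact absurd h1 (by positivity)
    · exact h1
  have hgk : ∀ k, k < r' + 1 → g k = 0 := by
    intro k hk
    cases k with
    | zero => exact hg0
    | succ k =>
      rw [← hE k (by omega), hE2 k (by omega), hg0, mul_zero]
  funext i
  have h1 := hgk i i.2
  rw [hg] at h1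
  simp only at h1
  rw [exz_coe, exz_coe] at h1
  linarith

/-- permutations of strictly monotone lists -/
theorem perm {n : ℕ} (p q : Fin n → ℤ) (hp : StrictMono p) (hq : StrictMono q)
    (hpos : ∀ i, 0 < p i) (f : Fin n → Fin n) (h : psum q f = p) : q = p ∧ f = id := by
  have hsurj : Function.Surjective f := by
    intro i
    by_contra hcon
    push Not at hcon
    have h1 : psum q f i = 0 := by
      unfold psum
      exact Finset.sum_eq_zero fun j _ => if_neg (hcon j)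
    rw [h] at h1
    exact absurd h1 (hpos i).ne'
  have hinj : Function.Injective f := Finite.injective_iff_surjective.mpr hsurj
  have hpf : ∀ e, p (f e) = q e := by
    intro e
    rw [← h]
    unfold psum
    rw [Finset.sum_eq_single e]
    · rw [if_pos rfl]
    · intro b _ hb
      rw [if_neg (fun hh => hb (hinj hh))]
    · intro hh
      exact absurd (mem_univ e) hh
  have hqf : q = p ∘ f := by
    funext e
    exact (hpf e).symm
  have hqp : q = p := by
    refine StrictMono.range_inj ?_ ?_ |>.mp ?_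
    · exact hq
    · exact hp
    · rw [hqf, Set.range_comp, hsurj.range_eq, Set.image_univ]
  refine ⟨hqp, ?_⟩
  funext e
  have h2 := hpf e
  rw [hqp] at h2
  exact hp.injective h2

/-! ### rows -/

/-- partial sums -/
def SS (A : ℤ) (c : ℕ → ℤ) : ℕ → ℤ
  | 0 => A
  | k + 1 => 2 * SS A c k + c k

def RR (c : ℕ → ℤ) : ℕ → ℤ
  | 0 => 0
  | k + 1 => 2 * RR c k + c k

def rowN (A : ℤ) (c : ℕ → ℤ) : ℕ → ℤ
  | 0 => A
  | k + 1 => SS A c k + c k

theorem SS_eq (A : ℤ) (c : ℕ → ℤ) (k : ℕ) : SS A c k = 2 ^ k * A + RR c k := by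
  induction k with
  | zero => simp [SS, RR]
  | succ k ih => rw [SS, RR, ih]; ring

theorem sum_rowN (A : ℤ) (c : ℕ → ℤ) (k : ℕ) : ∑ l ∈ range (k + 1), rowN A c l = SS A c k := by
  induction k with
  | zero => simp [rowN, SS]
  | succ k ih => rw [Finset.sum_range_succ, ih, rowN, SS]; ring

theorem RR_add (c d : ℕ → ℤ) (k : ℕ) : RR (fun i => c i + d i) k = RR c k + RR d k := by
  induction k with
  | zero => simp [RR]
  | succ k ih => rw [RR, RR, RR, ih]; ring

theorem RR_mul (m : ℤ) (c : ℕ → ℤ) (k : ℕ) : RR (fun i => m * c i) k = m * RR c k := by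
  induction k with
  | zero => simp [RR]
  | succ k ih => rw [RR, RR, ih]; ring

theorem RR_neg_one (k : ℕ) : RR (fun _ => (-1 : ℤ)) k = 1 - 2 ^ k := by
  induction k with
  | zero => simp [RR]
  | succ k ih => rw [RR, ih]; ring

theorem RR_bound (c : ℕ → ℤ) (B : ℤ) (k : ℕ) (h : ∀ i, i < k → |c i| ≤ B) :
    |RR c k| ≤ (2 ^ k - 1) * B := by
  induction k with
  | zero => simp [RR]
  | succ k ih =>
    have h1 := ih (fun i hi => h i (by omega))
    have h2 := h k (by omega)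
    rw [RR]
    have h3 : |2 * RR c k + c k| ≤ |2 * RR c k| + |c k| := abs_add_le _ _
    have h4 : |2 * RR c k| = 2 * |RR c k| := by rw [abs_mul]; norm_num
    rw [pow_succ]
    linarith

theorem RR_nonneg (c : ℕ → ℤ) (k : ℕ) (h : ∀ i, i < k → 0 ≤ c i) : 0 ≤ RR c k := by
  induction k with
  | zero => simp [RR]
  | succ k ih =>
    have h1 := ih (fun i hi => h i (by omega))
    have h2 := h k (by omega)
    rw [RR]
    linarith

theorem RR_dvd (M : ℤ) (c : ℕ → ℤ) (k : ℕ) (h : ∀ i, i < k → M ∣ c i) : M ∣ RR c k := by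
  induction k with
  | zero => simp [RR]
  | succ k ih =>
    rw [RR]
    exact dvd_add (Dvd.dvd.mul_left (ih (fun i hi => h i (by omega))) _) (h k (by omega))

/-! ### affine functions -/

def Aff {t : ℕ} (g : (Fin t → ℤ) → ℤ) : Prop :=
  ∃ (α : ℤ) (β : Fin t → ℤ), ∀ j, g j = α + ∑ i, β i * j i

theorem Aff.const {t : ℕ} (c : ℤ) : Aff (fun _ : Fin t → ℤ => c) :=
  ⟨c, fun _ => 0, fun j => by simp⟩

theorem Aff.add {t : ℕ} {g g' : (Fin t → ℤ) → ℤ} (h : Aff g) (h' : Aff g') :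
    Aff (fun j => g j + g' j) := by
  obtain ⟨α, β, h⟩ := h
  obtain ⟨α', β', h'⟩ := h'
  refine ⟨α + α', fun i => β i + β' i, fun j => ?_⟩
  beta_reduce
  rw [h, h']
  simp only [add_mul, Finset.sum_add_distrib]
  ring

theorem Aff.mul {t : ℕ} {g : (Fin t → ℤ) → ℤ} (c : ℤ) (h : Aff g) : Aff (fun j => c * g j) := by
  obtain ⟨α, β, h⟩ := h
  refine ⟨c * α, fun i => c * β i, fun j => ?_⟩
  beta_reduce
  rw [h, mul_add, Finset.mul_sum]
  congr 1
  exact Finset.sum_congr rfl fun i _ => by ring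

theorem Aff.coord {t : ℕ} (k : ℕ) : Aff (fun j : Fin t → ℤ => exz j k) := by
  by_cases h : k < t
  · refine ⟨0, fun i => if i = ⟨k, h⟩ then 1 else 0, fun j => ?_⟩
    unfold exz
    beta_reduce
    rw [dif_pos h, zero_add]
    simp
  · refine ⟨0, fun _ => 0, fun j => ?_⟩
    unfold exz
    beta_reduce
    rw [dif_neg h]
    simp

theorem Aff.congr {t : ℕ} {g g' : (Fin t → ℤ) → ℤ} (h : Aff g) (e : ∀ j, g' j = g j) :
    Aff g' := by
  obtain ⟨α, β, h⟩ := h
  exact ⟨α, β, fun j => by rw [e, h]⟩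

/-- the differences of the row attached to `j` -/
def cN {r' : ℕ} (x : ℕ → ℤ) (M : ℤ) (j : Fin r' → ℤ) (k : ℕ) : ℤ := x k - 1 + M * exz j k

theorem Aff.RRc {r' : ℕ} (x : ℕ → ℤ) (M : ℤ) (k : ℕ) :
    Aff (fun j : Fin r' → ℤ => RR (cN x M j) k) := by
  induction k with
  | zero => exact Aff.const 0
  | succ k ih =>
    refine ((Aff.mul 2 ih).add ((Aff.const (x k - 1)).add (Aff.mul M (Aff.coord k)))).congr ?_
    intro j
    rfl

/-- first entry of the row -/
def Aj {r' : ℕ} (A0 : ℤ) (j : Fin r' → ℤ) : ℤ := A0 - RR (exz j) r'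

theorem Aff.Aj {r' : ℕ} (A0 : ℤ) : Aff (fun j : Fin r' → ℤ => Aj A0 j) := by
  have h : ∀ k, Aff (fun j : Fin r' → ℤ => RR (exz j) k) := by
    intro k
    induction k with
    | zero => exact Aff.const 0
    | succ k ih =>
      refine ((Aff.mul 2 ih).add (Aff.coord k)).congr ?_
      intro j
      rfl
  refine ((Aff.const A0).add (Aff.mul (-1) (h r'))).congr ?_
  intro j
  unfold R3.Aj
  ring

theorem Aff.row {r' : ℕ} (A0 : ℤ) (x : ℕ → ℤ) (M : ℤ) (k : ℕ) :
    Aff (fun j : Fin r' → ℤ => rowN (R3.Aj A0 j) (cN x M j) k) := by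
  cases k with
  | zero => exact Aff.Aj A0
  | succ k =>
    refine (((Aff.mul (2 ^ k) (Aff.Aj A0)).add (Aff.RRc x M k)).add
      ((Aff.const (x k - 1)).add (Aff.mul M (Aff.coord k)))).congr ?_
    intro j
    show SS (R3.Aj A0 j) (cN x M j) k + cN x M j k = _
    rw [SS_eq]
    rfl

/-- the rows -/
def row {r' : ℕ} (A0 : ℤ) (x : ℕ → ℤ) (M : ℤ) (j : Fin r' → ℤ) (i : Fin (r' + 1)) : ℤ :=
  rowN (Aj A0 j) (cN x M j) i

theorem row_lt {r' : ℕ} (A0 : ℤ) (x : ℕ → ℤ) (M : ℤ) (j : Fin r' → ℤ) (i : Fin r') :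
    (∑ l : Fin (r' + 1), if l < i.succ then row A0 x M j l else 0) =
      SS (Aj A0 j) (cN x M j) i := by
  have h := sum_lt (rowN (Aj A0 j) (cN x M j)) i.succ
  have e : ((i.succ : Fin (r' + 1)) : ℕ) = (i : ℕ) + 1 := rfl
  rw [e, sum_rowN] at h
  rw [← h]
  rfl

theorem row_succ {r' : ℕ} (A0 : ℤ) (x : ℕ → ℤ) (M : ℤ) (j : Fin r' → ℤ) (i : Fin r') :
    row A0 x M j i.succ = SS (Aj A0 j) (cN x M j) i + cN x M j i := rfl

theorem baseF_row {r' : ℕ} (A0 : ℤ) (x : ℕ → ℤ) (M : ℤ) (j : Fin r' → ℤ)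
    (P : Fin (r' + 1) → ℤ) :
    baseF (fun i => row A0 x M j i + P i) =
      ∏ i : Fin r', max ((Xf P i - x i + 1) - M * j i) 0 := by
  unfold baseF
  rw [Fin.prod_univ_succ]
  have e0 : (((0 : Fin (r' + 1)) : ℕ) = 0) := rfl
  rw [if_pos e0, one_mul]
  refine Finset.prod_congr rfl fun i _ => ?_
  have e1 : ¬ (((i.succ : Fin (r' + 1)) : ℕ) = 0) := by
    rw [Fin.val_succ]
    omega
  rw [if_neg e1]
  congr 1
  have e2 : (∑ l : Fin (r' + 1), if l < i.succ then row A0 x M j l + P l else 0) =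
      (∑ l : Fin (r' + 1), if l < i.succ then row A0 x M j l else 0) +
      ∑ l : Fin (r' + 1), if l < i.succ then P l else 0 := by
    rw [← Finset.sum_add_distrib]
    refine Finset.sum_congr rfl fun l _ => ?_
    by_cases h : l < i.succ
    · simp only [if_pos h]
    · simp only [if_neg h, add_zero]
  beta_reduce
  rw [e2, row_lt, row_succ]
  unfold Xf cN
  rw [exz_coe]
  ring


theorem Xf_dvd {r' : ℕ} (H : ℤ) (P : Fin (r' + 1) → ℤ) (h : ∀ l, H ∣ P l) (i : Fin r') :
    H ∣ Xf P i := by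
  unfold Xf
  refine dvd_sub (Finset.dvd_sum fun l _ => ?_) (h _)
  split_ifs
  · exact h l
  · exact dvd_zero _

theorem Xf_bound {r' : ℕ} (P : Fin (r' + 1) → ℤ) (K : ℤ) (h0 : ∀ l, 0 ≤ P l)
    (hs : ∑ l, P l = K) (i : Fin r') : |Xf P i| ≤ K := by
  have h1 : 0 ≤ ∑ l : Fin (r' + 1), (if l < i.succ then P l else 0) := by
    refine Finset.sum_nonneg fun l _ => ?_
    split_ifs
    · exact h0 l
    · exact le_rfl
  have h2 : ∑ l : Fin (r' + 1), (if l < i.succ then P l else 0) ≤ K := by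
    rw [← hs]
    refine Finset.sum_le_sum fun l _ => ?_
    split_ifs
    · exact le_rfl
    · exact h0 l
  have h3 : P i.succ ≤ K := by
    rw [← hs]
    exact Finset.single_le_sum (fun l _ => h0 l) (Finset.mem_univ _)
  unfold Xf
  rw [abs_le]
  constructor <;> linarith [h0 i.succ]

theorem sum_psum {r m : ℕ} (q : Fin m → ℤ) (f : Fin m → Fin r) :
    ∑ i, psum q f i = ∑ j, q j := by
  unfold psum
  rw [Finset.sum_comm]
  refine Finset.sum_congr rfl fun j _ => ?_
  simp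

theorem psum_dvd {r m : ℕ} (H : ℤ) (q : Fin m → ℤ) (f : Fin m → Fin r) (h : ∀ l, H ∣ q l)
    (i : Fin r) : H ∣ psum q f i := by
  unfold psum
  refine Finset.dvd_sum fun l _ => ?_
  split_ifs
  · exact h l
  · exact dvd_zero _

/-- the weights -/
def Wt (r' : ℕ) (j : Fin r' → Fin (2 * r' + 4 + 1)) : ℤ :=
  ∏ i : Fin r', (-1) ^ (j i : ℕ) * ((2 * r' + 4).choose (j i : ℕ) : ℤ)

/-- cast -/
def cj {r' : ℕ} (j : Fin r' → Fin (2 * r' + 4 + 1)) : Fin r' → ℤ := fun i => ((j i : ℕ) : ℤ)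

def term {r' : ℕ} (A0 : ℤ) (x : ℕ → ℤ) (M : ℤ) (q : Fin (r' + 1) → ℤ)
    (f : Fin (r' + 1) → Fin (r' + 1)) (j : Fin r' → ℤ) : ℤ :=
  Afac (row A0 x M j) q f * baseF (fun i => row A0 x M j i + psum q f i)

def lin0 {r' : ℕ} (A0 : ℤ) (x : ℕ → ℤ) (M : ℤ) (q : Fin (r' + 1) → ℤ)
    (f : Fin (r' + 1) → Fin (r' + 1)) (e : Fin (r' + 1)) (j : Fin r' → ℤ) : ℤ :=
  row A0 x M j (f e) + (∑ l : Fin (r' + 1), if l < e ∧ f l = f e then q l else 0) - q e

theorem kink (h2 : S_KINK) {r' : ℕ} (A0 : ℤ) (x : ℕ → ℤ) (q : Fin (r' + 1) → ℤ)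
    (f : Fin (r' + 1) → Fin (r' + 1)) :
    ((∃ i : Fin r', Xf (psum q f) i - x i + 1 ≤ 0 ∨
        ((2 ^ r' : ℕ) : ℤ) * ((2 * r' + 4 : ℕ) : ℤ) ≤ Xf (psum q f) i - x i + 1) →
      ∑ j, Wt r' j * term A0 x ((2 ^ r' : ℕ) : ℤ) q f (cj j) = 0) ∧
    ((∀ i : Fin r', Xf (psum q f) i - x i + 1 = 1) →
      ∑ j, Wt r' j * term A0 x ((2 ^ r' : ℕ) : ℤ) q f (cj j) =
        ∏ e, lin0 A0 x ((2 ^ r' : ℕ) : ℤ) q f e (fun _ => 0)) := by
  have hA : ∀ e, Aff (fun j : Fin r' → ℤ => lin0 A0 x ((2 ^ r' : ℕ) : ℤ) q f e j) := by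
    intro e
    refine ((Aff.row A0 x ((2 ^ r' : ℕ) : ℤ) (f e : ℕ)).add
      (Aff.const ((∑ l : Fin (r' + 1), if l < e ∧ f l = f e then q l else 0) - q e))).congr ?_
    intro j
    unfold lin0 row
    ring
  choose α β hαβ using hA
  set y : Fin r' → ℤ := fun i => Xf (psum q f) i - x i + 1 with hy
  have hM1 : 1 ≤ 2 ^ r' := Nat.one_le_two_pow
  obtain ⟨k1, k2⟩ := h2 r' (r' + 1) (2 * r' + 4) (2 ^ r') hM1 (by omega) α β y
  have hF : ∀ j : Fin r' → ℤ, term A0 x ((2 ^ r' : ℕ) : ℤ) q f j =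
      (∏ e : Fin (r' + 1), (α e + ∑ i : Fin r', β e i * j i)) *
        ∏ i : Fin r', max (y i - ((2 ^ r' : ℕ) : ℤ) * j i) 0 := by
    intro j
    unfold term
    rw [baseF_row]
    congr 1
    unfold Afac
    refine Finset.prod_congr rfl fun e _ => ?_
    exact hαβ e j
  have hsum : ∑ j, Wt r' j * term A0 x ((2 ^ r' : ℕ) : ℤ) q f (cj j) =
      ∑ j : Fin r' → Fin (2 * r' + 4 + 1),
        (∏ i : Fin r', (-1) ^ (j i : ℕ) * ((2 * r' + 4).choose (j i : ℕ) : ℤ)) *
        ((∏ e : Fin (r' + 1), (α e + ∑ i : Fin r', β e i * ((j i : ℕ) : ℤ))) *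
        ∏ i : Fin r', max (y i - ((2 ^ r' : ℕ) : ℤ) * ((j i : ℕ) : ℤ)) 0) := by
    refine Finset.sum_congr rfl fun j _ => ?_
    rw [hF]
    rfl
  constructor
  · rintro ⟨i, hi⟩
    rw [hsum]
    exact k1 ⟨i, hi⟩
  · intro hall
    rw [hsum]
    have h3 := k2 (fun i => by
      have : y i = 1 := hall i
      rw [this]
      refine ⟨by norm_num, ?_⟩
      exact_mod_cast hM1)
    refine Eq.trans h3 ?_
    have e1 : ∏ i : Fin r', y i = 1 := Finset.prod_eq_one fun i _ => hall i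
    rw [e1, mul_one]
    refine Finset.prod_congr rfl fun e _ => ?_
    have h4 : lin0 A0 x ((2 ^ r' : ℕ) : ℤ) q f e (fun _ => 0) =
        α e + ∑ i : Fin r', β e i * (0 : ℤ) := hαβ e (fun _ => 0)
    rw [h4]
    simp

theorem qv_inj (r' L : ℕ) (hH : 0 < HH r') (s s0 : Fin r' → Fin L)
    (h : qv r' L s = qv r' L s0) : s = s0 := by
  funext i
  have h1 := congrFun h i.castSucc
  unfold qv at h1
  rw [Fin.snoc_castSucc, Fin.snoc_castSucc] at h1
  have hH' : (HH r' : ℤ) ≠ 0 := by exact_mod_cast hH.ne'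
  have h2 := mul_left_cancel₀ hH' h1
  have h3 : ((s i : ℕ) : ℤ) = ((s0 i : ℕ) : ℤ) := by linarith
  exact Fin.ext (by exact_mod_cast h3)

theorem main (h1 : S_R1) (h2 : S_KINK) (h3 : S_QV) : S_R3 := by
  intro r' L hL s0
  obtain ⟨hpm, hps, hpd, hH4, hHk⟩ := h3 r' L s0 hL
  set p := qv r' L s0 with hp
  set M : ℤ := ((2 ^ r' : ℕ) : ℤ) with hM
  set K : ℤ := (kk r' L : ℤ) with hK
  have hMpos : 1 ≤ M := by
    rw [hM]
    exact_mod_cast Nat.one_le_two_pow
  have hHH : (HH r' : ℤ) = M * ((2 * r' + 4 : ℕ) : ℤ) := by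
    unfold HH
    push_cast
    rw [hM]
    push_cast
    ring
  have hH4' : (4 : ℤ) ≤ HH r' := by exact_mod_cast hH4
  have hHk' : 2 * (HH r' : ℤ) ≤ K := by rw [hK]; exact_mod_cast hHk
  have hp0 : ∀ l, 0 < p l := fun l => by
    have := (hpd l).2
    linarith
  set x : ℕ → ℤ := exz (fun i : Fin r' => Xf p i) with hx
  have hxi : ∀ i : Fin r', x i = Xf p i := fun i => exz_coe _ i
  have hxd : ∀ i : Fin r', (HH r' : ℤ) ∣ x i := fun i => by
    rw [hxi]
    exact Xf_dvd _ p (fun l => (hpd l).1) i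
  have hxb : ∀ i : Fin r', |x i| ≤ K := fun i => by
    rw [hxi]
    exact Xf_bound p K (fun l => (hp0 l).le) hps i
  have hMdvd : M ∣ (HH r' : ℤ) := by
    rw [hHH]
    exact dvd_mul_right _ _
  obtain ⟨t, ht⟩ : M ∣ RR x r' := RR_dvd M x r' fun k hk => hMdvd.trans (hxd ⟨k, hk⟩)
  set A0 : ℤ := (20 * K + 1) - t with hA0
  have hRRb : |RR x r'| ≤ (M - 1) * K := by
    have := RR_bound x K r' (fun k hk => hxb ⟨k, hk⟩)
    rw [hM]
    push_cast
    exact this
  have hA0b : 19 * K + 1 ≤ A0 := by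
    have h4 := (abs_le.mp hRRb).2
    rw [ht] at h4
    have hK0 : 0 ≤ K := by linarith
    have h5 : t ≤ K := by
      have h6 : M * t ≤ M * K := by nlinarith
      exact le_of_mul_le_mul_left h6 (by linarith)
    rw [hA0]
    linarith
  -- bounds for the differences
  have hcb : ∀ (j : Fin r' → ℤ), (∀ i, 0 ≤ j i ∧ j i ≤ ((2 * r' + 4 : ℕ) : ℤ)) →
      ∀ i : Fin r', |cN x M j i| ≤ 2 * K := by
    intro j hj i
    unfold cN
    rw [exz_coe]
    have h4 := abs_le.mp (hxb i)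
    have h5 : 0 ≤ M * j i := mul_nonneg (by linarith) (hj i).1
    have h6 : M * j i ≤ M * ((2 * r' + 4 : ℕ) : ℤ) :=
      mul_le_mul_of_nonneg_left (hj i).2 (by linarith)
    rw [← hHH] at h6
    rw [abs_le]
    constructor <;> linarith [h4.1, h4.2]
  have ha0 : ∀ (j : Fin r' → ℤ), (∀ i, 0 ≤ j i ∧ j i ≤ ((2 * r' + 4 : ℕ) : ℤ)) →
      10 * K ≤ Aj A0 j := by
    intro j hj
    have h4 := RR_bound (exz j) ((2 * r' + 4 : ℕ) : ℤ) r' (fun k hk => by
      have e : exz j k = j ⟨k, hk⟩ := exz_coe j ⟨k, hk⟩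
      rw [e, abs_of_nonneg (hj _).1]
      exact (hj _).2)
    have h5 := (abs_le.mp h4).2
    have e2 : ((2 : ℤ) ^ r' - 1) * ((2 * r' + 4 : ℕ) : ℤ) = (HH r' : ℤ) - ((2 * r' + 4 : ℕ) : ℤ) := by
      rw [hHH, hM]
      push_cast
      ring
    rw [e2] at h5
    have h6 : (0 : ℤ) ≤ ((2 * r' + 4 : ℕ) : ℤ) := by positivity
    unfold Aj
    linarith
  have hadm : ∀ (j : Fin r' → ℤ), (∀ i, 0 ≤ j i ∧ j i ≤ ((2 * r' + 4 : ℕ) : ℤ)) →
      Adm r' L (row A0 x M j) := by
    intro j hj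
    refine ⟨?_, ?_, ?_⟩
    · have h4 : ∑ i, row A0 x M j i = SS (Aj A0 j) (cN x M j) r' := by
        rw [← sum_rowN]
        exact Fin.sum_univ_eq_sum_range (rowN (Aj A0 j) (cN x M j)) (r' + 1)
      have h5 : RR (cN x M j) r' = RR x r' + (1 - 2 ^ r') + M * RR (exz j) r' := by
        have e : cN x M j = fun k => (x k + (fun _ => (-1 : ℤ)) k) + (fun i => M * exz j i) k := by
          funext k
          unfold cN
          ring
        rw [e, RR_add (fun k => x k + (fun _ => (-1 : ℤ)) k) (fun i => M * exz j i),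
          RR_add x (fun _ => (-1 : ℤ)), RR_neg_one, RR_mul]
      rw [h4, SS_eq, h5, ht]
      unfold Aj nn
      push_cast
      rw [hA0, hM]
      push_cast
      rw [← hK]
      ring
    · exact ha0 j hj
    · intro i hi
      obtain ⟨k, rfl⟩ : ∃ k : Fin r', i = k.succ := by
        refine Fin.exists_succ_eq.mpr ?_ |>.imp fun k hk => hk.symm
        intro h0
        rw [h0] at hi
        exact absurd hi (by simp)
      rw [row_lt, row_succ, add_sub_cancel_left]
      exact hcb j hj k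
  have hcj : ∀ j : Fin r' → Fin (2 * r' + 4 + 1), ∀ i, 0 ≤ cj j i ∧
      cj j i ≤ ((2 * r' + 4 : ℕ) : ℤ) := by
    intro j i
    unfold cj
    refine ⟨by positivity, ?_⟩
    have := (j i).2
    exact_mod_cast Nat.lt_succ_iff.mp this
  -- the expansion
  have hexp : ∀ s : Fin r' → Fin L,
      ∑ j, Wt r' j * PhiF (row A0 x M (cj j)) (List.ofFn (qv r' L s)) =
      ∑ f, ∑ j, Wt r' j * term A0 x M (qv r' L s) f (cj j) := by
    intro s
    rw [Finset.sum_comm]
    refine Finset.sum_congr rfl fun j _ => ?_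
    rw [h1, Finset.mul_sum]
    rfl
  have hzero : ∀ (s : Fin r' → Fin L) (f : Fin (r' + 1) → Fin (r' + 1)),
      ¬ (s = s0 ∧ f = id) → ∑ j, Wt r' j * term A0 x M (qv r' L s) f (cj j) = 0 := by
    intro s f hsf
    obtain ⟨hqm, hqs, hqd, -, -⟩ := h3 r' L s hL
    have hex : ∃ i : Fin r', Xf (psum (qv r' L s) f) i ≠ x i := by
      by_contra hcon
      push Not at hcon
      have h4 : psum (qv r' L s) f = p := by
        apply Xf_inj
        · intro i
          rw [hcon i, hxi]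
        · rw [sum_psum, hqs, hps]
      obtain ⟨h5, h6⟩ := perm p (qv r' L s) hpm hqm hp0 f h4
      exact hsf ⟨qv_inj r' L (by omega) s s0 h5, h6⟩
    obtain ⟨i, hi⟩ := hex
    refine (kink h2 A0 x (qv r' L s) f).1 ⟨i, ?_⟩
    have hd : (HH r' : ℤ) ∣ Xf (psum (qv r' L s) f) i - x i :=
      dvd_sub (Xf_dvd _ _ (fun l => psum_dvd _ _ f (fun l => (hqd l).1) l) i) (hxd i)
    obtain ⟨u, hu⟩ := hd
    have hu0 : u ≠ 0 := by
      intro h0
      rw [h0, mul_zero] at hu
      exact hi (by linarith)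
    rw [← hM, ← hHH, hu]
    rcases lt_or_gt_of_ne hu0 with hneg | hpos
    · left
      have : (HH r' : ℤ) * u ≤ (HH r' : ℤ) * (-1) :=
        mul_le_mul_of_nonneg_left (by omega) (by linarith)
      linarith
    · right
      have : (HH r' : ℤ) * 1 ≤ (HH r' : ℤ) * u :=
        mul_le_mul_of_nonneg_left (by omega) (by linarith)
      linarith
  refine ⟨Fin r' → Fin (2 * r' + 4 + 1), inferInstance, Wt r', fun j => row A0 x M (cj j),
    fun j => hadm _ (hcj j), ?_, ?_⟩
  · intro s hs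
    rw [hexp s]
    exact Finset.sum_eq_zero fun f _ => hzero s f (fun h => hs h.1)
  · rw [hexp s0, Finset.sum_eq_single id]
    · have hid : psum (qv r' L s0) id = p := by
        funext i
        unfold psum
        simp [hp]
      rw [(kink h2 A0 x (qv r' L s0) id).2 (fun i => by rw [hid, hxi]; ring)]
      rw [Finset.prod_ne_zero_iff]
      intro e _
      have hz : ∀ i : Fin r', 0 ≤ (fun _ : Fin r' => (0 : ℤ)) i ∧
          (fun _ : Fin r' => (0 : ℤ)) i ≤ ((2 * r' + 4 : ℕ) : ℤ) := by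
        intro i
        exact ⟨le_rfl, by positivity⟩
      have hK0 : 0 < K := by linarith
      -- partial sums
      have hSS : ∀ k, k ≤ r' → 10 * K ≤ SS (Aj A0 (fun _ : Fin r' => (0 : ℤ)))
          (cN x M (fun _ : Fin r' => (0 : ℤ))) k := by
        intro k
        induction k with
        | zero => intro _; exact ha0 _ hz
        | succ k ih =>
          intro hk
          have h4 := ih (by omega)
          have h5 := (abs_le.mp (hcb _ hz ⟨k, by omega⟩)).1
          rw [SS]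
          have h6 : -(2 * K) ≤ cN x M (fun _ : Fin r' => (0 : ℤ)) k := h5
          linarith
      have hrow : 8 * K ≤ row A0 x M (fun _ : Fin r' => (0 : ℤ)) e := by
        refine Fin.cases ?_ (fun k => ?_) e
        · have := ha0 _ hz
          show 8 * K ≤ Aj A0 (fun _ : Fin r' => (0 : ℤ))
          linarith
        · rw [row_succ]
          have h4 := hSS k (by have := k.2; omega)
          have h5 := (abs_le.mp (hcb _ hz k)).1
          linarith
      have hpe : p e ≤ K := by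
        rw [← hps]
        exact Finset.single_le_sum (fun l _ => (hp0 l).le) (Finset.mem_univ e)
      have hs0 : (∑ l : Fin (r' + 1), if l < e ∧ id l = id e then qv r' L s0 l else 0) = 0 := by
        refine Finset.sum_eq_zero fun l _ => ?_
        rw [if_neg]
        rintro ⟨h7, h8⟩
        exact absurd h8 h7.ne
      unfold lin0
      rw [hs0, add_zero]
      have e9 : row A0 x M (fun _ : Fin r' => (0 : ℤ)) (id e) =
          row A0 x M (fun _ : Fin r' => (0 : ℤ)) e := rfl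
      rw [e9, ← hp]
      have : 0 < row A0 x M (fun _ : Fin r' => (0 : ℤ)) e - p e := by linarith
      exact this.ne'
    · intro f _ hf
      exact hzero s0 f (fun h => hf h.2)
    · intro h
      exact absurd (Finset.mem_univ _) h

end NK639.R3
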