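import Pool.Agent.R639.NK.St

/-!
# Piece RK of the NK project (MP_41a35f_al): `G / G_3 ≅ ℤ²`
-/

namespace NK639.RK

open scoped BigOperators commutatorElement

theorem ofFn_update {G : Type} [Group G] {N : ℕ} (f : Fin N → G) (i : Fin N) (c : G)
    (hf : ∀ j, j ≤ i → f j = 1) :
    (List.ofFn (Function.update f i c)).prod = c * (List.ofFn f).prod := by
  induction N with
  | zero => exact i.elim0
  | succ N ih =>
    rw [List.ofFn_succ, List.ofFn_succ, List.prod_cons, List.prod_cons]
    refine Fin.cases ?_ (fun k => ?_) i (motive := fun i => (∀ j, j ≤ i → f j = 1) → Function.update f i c 0 *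
      (List.ofFn fun j => Function.update f i c (Fin.succ j)).prod =
      c * (f 0 * (List.ofFn fun j => f (Fin.succ j)).prod)) hf
    · intro hf
      rw [Function.update_self, hf 0 le_rfl, one_mul]
      congr 2
    · intro hf
      rw [Function.update_of_ne (by exact (Fin.succ_ne_zero k).symm), hf 0 (Fin.zero_le _), one_mul, one_mul]
      have h1 : (fun j => Function.update f (Fin.succ k) c (Fin.succ j))
          = Function.update (fun j => f (Fin.succ j)) k c := by
        funext j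
        by_cases hj : j = k
        · subst hj; simp
        · rw [Function.update_of_ne hj, Function.update_of_ne]
          exact fun h => hj (Fin.succ_injective _ h)
      rw [h1]
      exact ih _ k (fun j hj => hf _ (Fin.succ_le_succ_iff.2 hj))

theorem tail_anti {G : Type} [Group G] {N : ℕ} (a : Fin N → G) {i j : ℕ} (h : i ≤ j) :
    tailSub a j ≤ tailSub a i :=
  Subgroup.closure_mono fun _ ⟨k, hk, e⟩ => ⟨k, h.trans hk, e⟩

theorem tail_normal {G : Type} [Group G] {N : ℕ} (a : Fin N → G) (ha : IsMalcevBasis a) (i : ℕ) :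
    (tailSub a i).Normal := by
  constructor
  intro h hh g
  have h1 : ⁅h, g⁆ ∈ tailSub a i :=
    tail_anti a (Nat.le_succ i) (ha.central i (Subgroup.commutator_mem_commutator hh (Subgroup.mem_top g)))
  have h2 : g * h * g⁻¹ = ⁅h, g⁆⁻¹ * h := by
    rw [commutatorElement_def]; group
  rw [h2]
  exact Subgroup.mul_mem _ (Subgroup.inv_mem _ h1) hh

/-- elements of `tailSub a i` are `a_i^s * h`, `h ∈ tailSub a (i+1)` -/
theorem tail_step {G : Type} [Group G] {N : ℕ} (a : Fin N → G) (ha : IsMalcevBasis a) (i : Fin N)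
    (g : G) (hg : g ∈ tailSub a i) : ∃ s : ℤ, ∃ h ∈ tailSub a ((i : ℕ) + 1), g = a i ^ s * h := by
  have hn := tail_normal a ha ((i : ℕ) + 1)
  induction hg using Subgroup.closure_induction with
  | mem x hx =>
    obtain ⟨j, hj, rfl⟩ := hx
    rcases eq_or_lt_of_le hj with h | h
    · have : i = j := Fin.ext h
      subst this
      exact ⟨1, 1, Subgroup.one_mem _, by simp⟩
    · exact ⟨0, a j, Subgroup.subset_closure ⟨j, h, rfl⟩, by simp⟩
  | one => exact ⟨0, 1, Subgroup.one_mem _, by simp⟩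
  | mul x y _ _ hx hy =>
    obtain ⟨s, h, hh, rfl⟩ := hx
    obtain ⟨t, k, hk, rfl⟩ := hy
    refine ⟨s + t, (a i ^ t)⁻¹ * h * (a i ^ t) * k, ?_, ?_⟩
    · refine Subgroup.mul_mem _ ?_ hk
      have := hn.conj_mem h hh (a i ^ t)⁻¹
      rwa [inv_inv] at this
    · rw [zpow_add]; group
  | inv x _ hx =>
    obtain ⟨s, h, hh, rfl⟩ := hx
    refine ⟨-s, a i ^ s * h⁻¹ * (a i ^ s)⁻¹, hn.conj_mem _ (Subgroup.inv_mem _ hh) _, ?_⟩
    group

theorem tail_expr {G : Type} [Group G] {N : ℕ} (a : Fin N → G) (ha : IsMalcevBasis a) :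
    ∀ k i : ℕ, i + k = N → ∀ g ∈ tailSub a i, ∃ x : Fin N → ℤ, (∀ j : Fin N, (j : ℕ) < i → x j = 0) ∧
      mprod a x = g := by
  intro k
  induction k with
  | zero =>
    intro i hi g hg
    have hb : tailSub a i = ⊥ := by
      rw [tailSub, Subgroup.closure_eq_bot_iff]
      rintro x ⟨j, hj, -⟩
      exact absurd j.2 (by omega)
    rw [hb, Subgroup.mem_bot] at hg
    refine ⟨fun _ => 0, fun _ _ => rfl, ?_⟩
    rw [hg, mprod]
    simp
  | succ k ih =>
    intro i hi g hg
    obtain ⟨s, h, hh, rfl⟩ := tail_step a ha ⟨i, by omega⟩ g hg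
    obtain ⟨x, hx, rfl⟩ := ih (i + 1) (by omega) h hh
    refine ⟨Function.update x ⟨i, by omega⟩ s, ?_, ?_⟩
    · intro j hj
      rw [Function.update_of_ne]
      · exact hx j (by omega)
      · intro e; rw [e] at hj; exact absurd hj (lt_irrefl _)
    · rw [mprod, mprod]
      have h1 : (fun j => a j ^ (Function.update x ⟨i, by omega⟩ s j))
          = Function.update (fun j => a j ^ x j) ⟨i, by omega⟩ (a ⟨i, by omega⟩ ^ s) := by
        funext j
        by_cases hj : j = ⟨i, by omega⟩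
        · subst hj; simp
        · rw [Function.update_of_ne hj, Function.update_of_ne hj]
      rw [h1]
      apply ofFn_update
      intro j hj
      rw [hx j (by have := Fin.le_def.1 hj; simp at this; omega), zpow_zero]

theorem rank_aux {Q : Type} [CommGroup Q] {ι : Type} [Fintype ι] (b : ι → Q)
    (hs : ∀ q, ∃ x : ι → ℤ, ∏ i, b i ^ x i = q) (hi : ∀ x : ι → ℤ, ∏ i, b i ^ x i = 1 → x = 0) :
    Nonempty ((ι → ℤ) ≃+ Additive Q) := by
  let f : (ι → ℤ) →+ Additive Q :=
    { toFun := fun x => Additive.ofMul (∏ i, b i ^ x i)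
      map_zero' := by simp
      map_add' := fun x y => by
        rw [← ofMul_mul, ← Finset.prod_mul_distrib]
        congr 1
        exact Finset.prod_congr rfl fun i _ => zpow_add _ _ _ }
  refine ⟨AddEquiv.ofBijective f ⟨?_, ?_⟩⟩
  · rw [injective_iff_map_eq_zero]
    intro x hx
    exact hi x hx
  · intro q
    obtain ⟨x, hx⟩ := hs q.toMul
    exact ⟨x, congrArg Additive.ofMul hx⟩

theorem main : S_RK := by
  intro n G _ W hn N a ha N' hN' hK
  have hnorm : (W.Gi 3).Normal := hK ▸ tail_normal a ha N'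
  -- leads
  have hlead1 : ∀ x : G, x ∈ W.Gi 1 := fun x => by rw [W.Gi_one]; exact Subgroup.mem_top x
  have hcomm : ∀ x y : G, x * y * x⁻¹ * y⁻¹ ∈ W.Gi 3 := by
    intro x y
    have h1 := W.comm_mem 1 1 le_rfl le_rfl x (hlead1 x) y (hlead1 y)
    have h2 := W.comm_lead 1 1 le_rfl le_rfl (by omega) x (hlead1 x) y (hlead1 y)
    rw [show ((1 : ℕ) : ℤ) - (1 : ℕ) = 0 by simp, zero_mul, zero_mul] at h2
    exact (W.lead_zero 2 (by omega) (by omega) _ h1).1 h2
  let cg : CommGroup (G ⧸ W.Gi 3) :=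
    { (inferInstance : Group (G ⧸ W.Gi 3)) with
      mul_comm := by
        intro p q
        obtain ⟨x, rfl⟩ := QuotientGroup.mk_surjective p
        obtain ⟨y, rfl⟩ := QuotientGroup.mk_surjective q
        rw [← QuotientGroup.mk_mul, ← QuotientGroup.mk_mul, QuotientGroup.eq]
        have := hcomm y⁻¹ x⁻¹
        have e : (x * y)⁻¹ * (y * x) = y⁻¹ * x⁻¹ * y⁻¹⁻¹ * x⁻¹⁻¹ := by group
        rw [e]; exact this }

  let π : G →* (G ⧸ W.Gi 3) := QuotientGroup.mk' (W.Gi 3)
  have hπ : ∀ g, π g = 1 ↔ g ∈ W.Gi 3 := fun g => QuotientGroup.eq_one_iff g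
  -- first family
  have hprod : ∀ x : Fin N → ℤ, π (mprod a x) =
      ∏ i : {i : Fin N // (i : ℕ) < N'}, π (a i) ^ x i := by
    intro x
    rw [mprod, map_list_prod, List.map_ofFn, List.prod_ofFn]
    rw [← Finset.prod_subtype (Finset.univ.filter fun i : Fin N => (i : ℕ) < N') (by simp)
      (fun i => π (a i) ^ x i)]
    symm
    refine Finset.prod_subset (Finset.subset_univ _) ?_ |>.trans ?_
    · intro i _ hi
      have : π (a i) = 1 := by
        rw [hπ, ← hK]
        refine Subgroup.subset_closure ⟨i, ?_, rfl⟩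
        simpa using hi
      rw [this, one_zpow]
    · exact Finset.prod_congr rfl fun i _ => by simp
  obtain ⟨e1⟩ := rank_aux (fun i : {i : Fin N // (i : ℕ) < N'} => π (a i))
    (by
      intro q
      obtain ⟨g, rfl⟩ := QuotientGroup.mk'_surjective (W.Gi 3) q
      obtain ⟨y, hy, -⟩ := ha.unique_expr g
      exact ⟨fun i => y i, by rw [← hprod, hy]⟩)
    (by
      intro x hx
      let y : Fin N → ℤ := fun i => if h : (i : ℕ) < N' then x ⟨i, h⟩ else 0
      have h1 : π (mprod a y) = 1 := by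
        rw [hprod, ← hx]
        refine Finset.prod_congr rfl fun i _ => ?_
        simp [y, i.2]
      rw [hπ, ← hK] at h1
      obtain ⟨z, hz, hz'⟩ := tail_expr a ha (N - N') N' (by omega) _ h1
      have h2 : z = y := (ha.unique_expr _).unique hz' rfl
      funext i
      have h3 := hz i i.2
      rw [h2] at h3
      simpa [y, i.2] using h3)
  -- second family
  obtain ⟨g1, hg1, hl1⟩ := W.lead_surj 1 le_rfl (by omega)
  obtain ⟨g2, hg2, hl2⟩ := W.lead_surj 2 (by omega) (by omega)
  have lead_one : ∀ i, 1 ≤ i → i ≤ n → W.lead i 1 = 0 := by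
    intro i h1 h2
    have := W.lead_mul i h1 h2 1 (Subgroup.one_mem _) 1 (Subgroup.one_mem _)
    rw [one_mul] at this; linarith
  have lead_inv : ∀ i, 1 ≤ i → i ≤ n → ∀ x ∈ W.Gi i, W.lead i x⁻¹ = - W.lead i x := by
    intro i h1 h2 x hx
    have := W.lead_mul i h1 h2 x hx x⁻¹ (Subgroup.inv_mem _ hx)
    rw [mul_inv_cancel, lead_one i h1 h2] at this; linarith
  have lead_pow : ∀ i, 1 ≤ i → i ≤ n → ∀ x ∈ W.Gi i, ∀ m : ℕ, W.lead i (x ^ m) = m * W.lead i x := by
    intro i h1 h2 x hx m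
    induction m with
    | zero => simp [lead_one i h1 h2]
    | succ m ih =>
      rw [pow_succ, W.lead_mul i h1 h2 _ (Subgroup.pow_mem _ hx _) _ hx, ih]; push_cast; ring
  have lead_zpow : ∀ i, 1 ≤ i → i ≤ n → ∀ x ∈ W.Gi i, ∀ m : ℤ, W.lead i (x ^ m) = m * W.lead i x := by
    intro i h1 h2 x hx m
    cases m with
    | ofNat m => simpa using lead_pow i h1 h2 x hx m
    | negSucc m =>
      rw [zpow_negSucc, lead_inv i h1 h2 _ (Subgroup.pow_mem _ hx _), lead_pow i h1 h2 x hx,
        Int.negSucc_eq]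
      push_cast; ring
  obtain ⟨e2⟩ := rank_aux (fun i : Fin 2 => π (if i = 0 then g1 else g2))
    (by
      intro q
      obtain ⟨g, rfl⟩ := QuotientGroup.mk'_surjective (W.Gi 3) q
      have h1 : g1 ^ (-(W.lead 1 g)) * g ∈ W.Gi 2 := by
        rw [← W.lead_zero 1 le_rfl (by omega) _ (hlead1 _),
          W.lead_mul 1 le_rfl (by omega) _ (hlead1 _) _ (hlead1 _),
          lead_zpow 1 le_rfl (by omega) _ hg1, hl1]
        ring
      have h2 : g2 ^ (-(W.lead 2 (g1 ^ (-(W.lead 1 g)) * g))) * (g1 ^ (-(W.lead 1 g)) * g) ∈ W.Gi 3 := by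
        rw [← W.lead_zero 2 (by omega) (by omega) _ (Subgroup.mul_mem _ (Subgroup.zpow_mem _ hg2 _) h1),
          W.lead_mul 2 (by omega) (by omega) _ (Subgroup.zpow_mem _ hg2 _) _ h1,
          lead_zpow 2 (by omega) (by omega) _ hg2, hl2]
        ring
      rw [← hπ, map_mul, map_mul, map_zpow, map_zpow] at h2
      refine ⟨fun i => if i = 0 then W.lead 1 g else W.lead 2 (g1 ^ (-(W.lead 1 g)) * g), ?_⟩
      rw [Fin.prod_univ_two]
      simp only [if_true, one_ne_zero, if_false, Fin.isValue]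
      show π g1 ^ _ * π g2 ^ _ = π g
      have h3 : π g = π g1 ^ (W.lead 1 g) * π g2 ^ (W.lead 2 (g1 ^ (-(W.lead 1 g)) * g)) * 
        ((π g2) ^ (-(W.lead 2 (g1 ^ (-(W.lead 1 g)) * g))) * (π g1 ^ (-(W.lead 1 g)) * π g)) := by
        group
      rw [h3, h2, mul_one])
    (by
      intro x hx
      rw [Fin.prod_univ_two] at hx
      simp only [if_true, one_ne_zero, if_false, Fin.isValue] at hx
      rw [← map_zpow, ← map_zpow, ← map_mul, hπ] at hx
      have hx1 : g1 ^ x 0 * g2 ^ x 1 ∈ W.Gi 2 := W.Gi_anti 2 (by omega) hx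
      have h1 := (W.lead_zero 1 le_rfl (by omega) _ (hlead1 _)).2 hx1
      rw [W.lead_mul 1 le_rfl (by omega) _ (hlead1 _) _ (hlead1 _),
        lead_zpow 1 le_rfl (by omega) _ hg1, hl1,
        (W.lead_zero 1 le_rfl (by omega) _ (hlead1 _)).2 (Subgroup.zpow_mem _ hg2 _)] at h1
      have h0 : x 0 = 0 := by linarith
      rw [h0, zpow_zero, one_mul] at hx
      have h2 := (W.lead_zero 2 (by omega) (by omega) _ (Subgroup.zpow_mem _ hg2 _)).2 hx
      rw [lead_zpow 2 (by omega) (by omega) _ hg2, hl2] at h2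
      funext i
      fin_cases i
      · exact h0
      · simpa using h2)
  have e3 : ({i : Fin N // (i : ℕ) < N'} → ℤ) ≃ₗ[ℤ] (Fin 2 → ℤ) :=
    (e1.trans e2.symm).toIntLinearEquiv
  have h4 := e3.finrank_eq
  rw [Module.finrank_fintype_fun_eq_card, Module.finrank_fintype_fun_eq_card, Fintype.card_fin,
    Fintype.card_subtype] at h4
  rw [← h4]
  have h5 : (Finset.univ.filter fun i : Fin N => (i : ℕ) < N')
      = (Finset.univ : Finset (Fin N')).map (Fin.castLEEmb hN') := by
    ext i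
    simp only [Finset.mem_filter, Finset.mem_univ, true_and, Finset.mem_map]
    constructor
    · intro h; exact ⟨⟨i, h⟩, rfl⟩
    · rintro ⟨j, rfl⟩; exact j.2
  rw [h5, Finset.card_map, Finset.card_univ, Fintype.card_fin]

end NK639.RK
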