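import Pool.Agent.R639.NK.St

/-!
# Piece RULES (problem MP_41a35f_al, project NK of helper639)
-/

namespace NK639.RULES

open scoped BigOperators

variable {G : Type} [Group G]

theorem ext_del_mul (f : G → ℚ) (x : G) (u : MonoidAlgebra ℚ G) :
    ext f (del x * u) = ext (fun y => f (x * y) - f y) u := by
  induction u using MonoidAlgebra.induction_on with
  | of y =>
    unfold del
    rw [sub_mul, one_mul, ← map_mul, map_sub, ext_of, ext_of, ext_of]
  | add a b ha hb => rw [mul_add, map_add, map_add, ha, hb]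
  | smul r a ha => rw [mul_smul_comm, map_smul, map_smul, ha]

theorem van (H : Subgroup G) (L : List G) : (∀ x ∈ L, x ∈ H) → ∀ f : G → ℚ,
    (∀ y ∈ H, f y = 0) → ext f ((L.map del).prod) = 0 := by
  induction L with
  | nil =>
    intro _ f hf
    rw [List.map_nil, List.prod_nil, ext_one]
    exact hf 1 H.one_mem
  | cons x L ih =>
    intro hL f hf
    rw [List.map_cons, List.prod_cons, ext_del_mul]
    refine ih (fun y hy => hL y (List.mem_cons_of_mem _ hy)) _ fun y hy => ?_
    have hx : x ∈ H := hL x List.mem_cons_self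
    rw [hf _ (H.mul_mem hx hy), hf y hy, sub_zero]

theorem mp : ∀ (N : ℕ) (a : Fin N → G) (x : Fin N → ℤ) (k : Fin N) (_ : ∀ i < k, x i = 0) (s : ℤ),
    a k ^ s * mprod a x = mprod a (Function.update x k (x k + s)) := by
  intro N
  induction N with
  | zero => intro a x k; exact k.elim0
  | succ N ih =>
    intro a x k hx s
    unfold mprod
    rw [List.ofFn_succ, List.ofFn_succ, List.prod_cons, List.prod_cons]
    rcases Fin.eq_zero_or_eq_succ k with rfl | ⟨k, rfl⟩
    · rw [Function.update_self]
      have e : (fun i : Fin N => a i.succ ^ Function.update x 0 (x 0 + s) i.succ) =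
          fun i : Fin N => a i.succ ^ x i.succ := by
        funext i
        rw [Function.update_of_ne (Fin.succ_ne_zero i)]
      rw [e, ← mul_assoc, ← zpow_add, add_comm s]
    · have h0 : x 0 = 0 := hx 0 (Fin.succ_pos k)
      rw [Function.update_of_ne (Fin.succ_ne_zero k).symm, h0, zpow_zero, one_mul, one_mul]
      have h1 := ih (fun i => a i.succ) (fun i => x i.succ) k
        (fun i hi => hx i.succ (Fin.succ_lt_succ_iff.2 hi)) s
      unfold mprod at h1
      rw [h1]
      congr 2
      funext i
      by_cases hi : i = k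
      · rw [hi, Function.update_self, Function.update_self]
      · rw [Function.update_of_ne hi, Function.update_of_ne (fun h => hi (Fin.succ_injective _ h))]

theorem tail_anti {N : ℕ} (a : Fin N → G) (i : ℕ) : tailSub a (i + 1) ≤ tailSub a i :=
  Subgroup.closure_mono fun _ ⟨j, hj, he⟩ => ⟨j, by omega, he⟩

theorem tail_normal {N : ℕ} {a : Fin N → G} (ha : IsMalcevBasis a) (i : ℕ) :
    (tailSub a i).Normal := by
  refine ⟨fun n hn g => ?_⟩
  have h1 : n * g * n⁻¹ * g⁻¹ ∈ tailSub a i :=
    tail_anti a i (ha.central i (Subgroup.commutator_mem_commutator hn (Subgroup.mem_top g)))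
  have h2 : g * n * g⁻¹ = (n * g * n⁻¹ * g⁻¹)⁻¹ * n := by group
  rw [h2]
  exact (tailSub a i).mul_mem ((tailSub a i).inv_mem h1) hn

theorem tail_sup {N : ℕ} (a : Fin N → G) (k : ℕ) (hk : k < N) :
    tailSub a k = Subgroup.zpowers (a ⟨k, hk⟩) ⊔ tailSub a (k + 1) := by
  unfold tailSub
  rw [Subgroup.zpowers_eq_closure, ← Subgroup.closure_union]
  congr 1
  ext g
  simp only [Set.mem_ofPred_eq, Set.mem_union, Set.mem_singleton_iff]
  constructor
  · rintro ⟨j, hj, rfl⟩
    rcases Nat.eq_or_lt_of_le hj with h | h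
    · left
      congr 1
      exact Fin.ext h.symm
    · exact Or.inr ⟨j, h, rfl⟩
  · rintro (rfl | ⟨j, hj, rfl⟩)
    · exact ⟨⟨k, hk⟩, le_rfl, rfl⟩
    · exact ⟨j, by omega, rfl⟩

theorem tail_form {N : ℕ} {a : Fin N → G} (ha : IsMalcevBasis a) (m : ℕ) :
    ∀ k : ℕ, k + m = N → ∀ y ∈ tailSub a k, ∃ x : Fin N → ℤ,
      (∀ i : Fin N, (i : ℕ) < k → x i = 0) ∧ mprod a x = y := by
  induction m with
  | zero =>
    intro k hk y hy
    have hbot : tailSub a k = ⊥ := by
      unfold tailSub
      rw [Subgroup.closure_eq_bot_iff]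
      rintro g ⟨j, hj, -⟩
      have := j.2
      omega
    rw [hbot, Subgroup.mem_bot] at hy
    refine ⟨fun _ => 0, fun _ _ => rfl, ?_⟩
    rw [hy]
    unfold mprod
    simp
  | succ m ih =>
    intro k hk y hy
    have hkN : k < N := by omega
    have hnor := tail_normal ha (k + 1)
    rw [tail_sup a k hkN] at hy
    obtain ⟨u, hu, z, hz, rfl⟩ := (Subgroup.mem_sup_of_normal_right).1 hy
    obtain ⟨s, rfl⟩ := Subgroup.mem_zpowers_iff.1 hu
    obtain ⟨x, hx0, hx⟩ := ih (k + 1) (by omega) z hz
    refine ⟨Function.update x ⟨k, hkN⟩ (x ⟨k, hkN⟩ + s), ?_, ?_⟩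
    · intro i hi
      rw [Function.update_of_ne (fun h => by rw [h] at hi; exact lt_irrefl _ hi)]
      exact hx0 i (by omega)
    · rw [← mp N a x ⟨k, hkN⟩ (fun i hi => hx0 i (by have : (i : ℕ) < k := hi; omega)) s, hx]

theorem coord_mprod {N : ℕ} {a : Fin N → G} (ha : IsMalcevBasis a) (x : Fin N → ℤ) :
    coord a ha (mprod a x) = x :=
  ((ha.unique_expr (mprod a x)).choose_spec.2 x rfl).symm

/-- `a_k^s y` and `y` have the same coordinates except the `k`-th, `y` in `⟨a_k, …⟩` -/
theorem coord_mul {N : ℕ} {a : Fin N → G} (ha : IsMalcevBasis a) (k : Fin N) (s : ℤ) {y : G}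
    (hy : y ∈ tailSub a k) {l : Fin N} (hl : l ≠ k) :
    coord a ha (a k ^ s * y) l = coord a ha y l := by
  obtain ⟨x, hx0, rfl⟩ := tail_form ha (N - k) k (by have := k.2; omega) y hy
  rw [mp N a x k (fun i hi => hx0 i hi) s, coord_mprod, coord_mprod, Function.update_of_ne hl]

theorem mprod_zero {N : ℕ} (a : Fin N → G) : mprod a (fun _ => 0) = 1 := by
  unfold mprod
  simp

theorem coord_one {N : ℕ} {a : Fin N → G} (ha : IsMalcevBasis a) (l : Fin N) :
    coord a ha 1 l = 0 := by
  rw [← mprod_zero a, coord_mprod]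

theorem coord_pow {N : ℕ} {a : Fin N → G} (ha : IsMalcevBasis a) (k : Fin N) (s : ℤ) :
    coord a ha (a k ^ s) k = s := by
  have h := mp N a (fun _ => 0) k (fun _ _ => rfl) s
  rw [mprod_zero, mul_one] at h
  rw [h, coord_mprod, Function.update_self, zero_add]

theorem lead_zpow {n : ℕ} (W : WData n G) {i : ℕ} (h1 : 1 ≤ i) (h2 : i ≤ n) {x : G}
    (hx : x ∈ W.Gi i) (s : ℤ) : W.lead i (x ^ s) = s * W.lead i x := by
  let f : W.Gi i →* Multiplicative ℤ := MonoidHom.mk'
    (fun x => Multiplicative.ofAdd (W.lead i x)) (fun x y => by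
      rw [← ofAdd_add, ← W.lead_mul i h1 h2 x x.2 y y.2]
      rfl)
  have h := congrArg Multiplicative.toAdd (map_zpow f ⟨x, hx⟩ s)
  rw [toAdd_zpow] at h
  exact h

theorem del_mul (x y : G) : del (x * y) = del x + del y + del x * del y := by
  unfold del
  rw [map_mul]
  noncomm_ring

theorem main (h : S_POLT) : S_RULES := by
  classical
  intro n G _ W hn a ha hF
  obtain ⟨T, hT⟩ : ∃ T, T = lastCoord hn a ha := ⟨_, rfl⟩
  have hpol : T ∈ Pol W.Gi 3 (n : ℤ) := by
    have h1 := h n G W hn a ha hF ⟨n - 1, by omega⟩ (by show 2 ≤ n - 1; omega)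
    have e : ((((⟨n - 1, by omega⟩ : Fin n) : ℕ) + 1 : ℕ) : ℤ) = n := by
      show (((n - 1) + 1 : ℕ) : ℤ) = n
      rw [Nat.sub_add_cancel (by omega)]
    rw [e] at h1
    rw [hT]
    exact h1
  have hanti : ∀ i j, 1 ≤ i → i ≤ j → W.Gi j ≤ W.Gi i := by
    intro i j hi hij
    induction j, hij using Nat.le_induction with
    | base => exact le_rfl
    | succ j hij ih => exact (W.Gi_anti j (by omega)).trans ih
  -- the elements `e w`
  have hex : ∀ w : ℕ, ∃ g : G, 3 ≤ w → w ≤ n → ∃ (k : Fin n) (s : ℤ), (k : ℕ) + 1 = w ∧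
      (s = 1 ∨ s = -1) ∧ g = a k ^ s ∧ g ∈ W.Gi w ∧ W.lead w g = 1 ∧ tailSub a k = W.Gi w := by
    intro w
    by_cases hw : 3 ≤ w ∧ w ≤ n
    · obtain ⟨hw1, hw2⟩ := hw
      obtain ⟨g1, g2, g3⟩ := hF ⟨w - 1, by omega⟩ (by show 2 ≤ w - 1; omega)
      have e : w - 1 + 1 = w := by omega
      simp only [e] at g1 g2 g3
      refine ⟨a ⟨w - 1, by omega⟩ ^ (W.lead w (a ⟨w - 1, by omega⟩)), fun _ _ =>
        ⟨⟨w - 1, by omega⟩, _, e, g2, rfl, (W.Gi w).zpow_mem g1 _, ?_, g3⟩⟩
      rw [lead_zpow W (by omega) hw2 g1]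
      rcases g2 with g2 | g2 <;> rw [g2] <;> norm_num
    · exact ⟨1, fun h1 h2 => absurd ⟨h1, h2⟩ hw⟩
  choose e he using hex
  refine ⟨e, ?_⟩
  rw [← hT]
  have hmem : ∀ w, 3 ≤ w → w ≤ n → e w ∈ W.Gi w := fun w h1 h2 => by
    obtain ⟨k, s, -, -, -, h3, -⟩ := he w h1 h2
    exact h3
  have hlead : ∀ w, 3 ≤ w → w ≤ n → W.lead w (e w) = 1 := fun w h1 h2 => by
    obtain ⟨k, s, -, -, -, -, h3, -⟩ := he w h1 h2
    exact h3
  have hkill : ∀ (pre post : List ℕ), (∀ w ∈ pre, 3 ≤ w ∧ w ≤ n) → (∀ w ∈ post, 3 ≤ w ∧ w ≤ n) →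
      ∀ mid : List (ℕ × G), (∀ p ∈ mid, 3 ≤ p.1 ∧ p.2 ∈ W.Gi p.1) →
      n < pre.sum + (mid.map Prod.fst).sum + post.sum →
      ext T ((pre.map fun w => del (e w)).prod * (mid.map fun p => del p.2).prod *
        (post.map fun w => del (e w)).prod) = 0 := by
    intro pre post hpre hpost mid hmid hs
    have h1 := hpol (pre.map (fun w => (w, e w)) ++ mid ++ post.map (fun w => (w, e w))) ?_ ?_
    · rw [List.map_append, List.map_append, List.prod_append, List.prod_append, List.map_map,
        List.map_map] at h1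
      exact h1
    · intro p hp
      rw [List.mem_append, List.mem_append, List.mem_map, List.mem_map] at hp
      rcases hp with (⟨w, hw, rfl⟩ | hp) | ⟨w, hw, rfl⟩
      · exact ⟨(hpre w hw).1, hmem w (hpre w hw).1 (hpre w hw).2⟩
      · exact hmid p hp
      · exact ⟨(hpost w hw).1, hmem w (hpost w hw).1 (hpost w hw).2⟩
    · rw [List.map_append, List.map_append, List.sum_append, List.sum_append, List.map_map,
        List.map_map]
      have e1 : ∀ l : List ℕ, l.map (Prod.fst ∘ fun w => (w, e w)) = l := fun l => by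
        conv_rhs => rw [← List.map_id l]
        rfl
      rw [e1, e1]
      exact_mod_cast hs
  refine ⟨?_, ?_, ?_⟩
  · -- r0
    intro q w hw hq hall hsum
    have hwpos : 0 < w.sum := by
      obtain ⟨x, w', rfl⟩ := List.exists_cons_of_ne_nil hw
      have := hall x List.mem_cons_self
      rw [List.sum_cons]
      omega
    obtain ⟨k, s, hk, -, hes, -, -, htail⟩ := he q hq (by omega)
    have hle : ∀ x ∈ w, x ≤ w.sum := fun x hx => List.single_le_sum (fun _ _ => Nat.zero_le _) x hx
    have h0 : ext T (((q :: w).map fun w => del (e w)).prod) = 0 := by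
      rw [List.map_cons, List.prod_cons, ext_del_mul]
      have h1 := van (W.Gi q) (w.map e) ?_ (fun y => T (e q * y) - T y) ?_
      · rw [List.map_map] at h1
        exact h1
      · intro x hx
        obtain ⟨z, hz, rfl⟩ := List.mem_map.1 hx
        have h2 := hall z hz
        have h3 := hle z hz
        exact hanti q z (by omega) h2 (hmem z (by omega) (by omega))
      · intro y hy
        rw [← htail] at hy
        rw [hT, hes]
        unfold lastCoord
        rw [coord_mul ha k s hy (l := ⟨n - 1, by omega⟩) (fun h => by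
          have := congrArg Fin.val h
          simp only at this
          omega), sub_self]
    show (-1) ^ (q :: w).length * ext T (((q :: w).map fun w => del (e w)).prod) = 0
    rw [h0, mul_zero]
  · -- r1
    intro pre i j post hall hsum
    have hi : 3 ≤ i := hall i (by simp)
    have hj : 3 ≤ j := hall j (by simp)
    have hsum' : pre.sum + (i + j) + post.sum = n := by
      rw [List.sum_append, List.sum_cons, List.sum_cons] at hsum
      omega
    have hm : i + j ≤ n := by omega
    have hpre : ∀ w ∈ pre, 3 ≤ w ∧ w ≤ n := fun w hw => ⟨hall w (by simp [hw]), by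
      have := List.single_le_sum (fun _ _ => Nat.zero_le _) w hw
      omega⟩
    have hpost : ∀ w ∈ post, 3 ≤ w ∧ w ≤ n := fun w hw => ⟨hall w (by simp [hw]), by
      have := List.single_le_sum (fun _ _ => Nat.zero_le _) w hw
      omega⟩
    obtain ⟨P, hP⟩ : ∃ P, P = (pre.map fun w => del (e w)).prod := ⟨_, rfl⟩
    obtain ⟨Q, hQ⟩ : ∃ Q, Q = (post.map fun w => del (e w)).prod := ⟨_, rfl⟩
    have kill2 : ∀ (w1 w2 : ℕ) (u v : G), 3 ≤ w1 → 3 ≤ w2 → u ∈ W.Gi w1 → v ∈ W.Gi w2 →
        i + j < w1 + w2 → ext T (P * (del u * del v) * Q) = 0 := by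
      intro w1 w2 u v h1 h2 hu hv hw
      have h3 := hkill pre post hpre hpost [(w1, u), (w2, v)] (by
        intro p hp
        simp only [List.mem_cons, List.not_mem_nil, or_false] at hp
        rcases hp with rfl | rfl
        · exact ⟨h1, hu⟩
        · exact ⟨h2, hv⟩) (by
        simp only [List.map_cons, List.map_nil, List.sum_cons, List.sum_nil]
        omega)
      rw [← hP, ← hQ] at h3
      simp only [List.map_cons, List.map_nil, List.prod_cons, List.prod_nil, mul_one] at h3
      exact h3
    have kill1 : ∀ (w1 : ℕ) (u : G), 3 ≤ w1 → u ∈ W.Gi w1 → i + j < w1 →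
        ext T (P * del u * Q) = 0 := by
      intro w1 u h1 hu hw
      have h3 := hkill pre post hpre hpost [(w1, u)] (by
        intro p hp
        simp only [List.mem_cons, List.not_mem_nil, or_false] at hp
        rw [hp]
        exact ⟨h1, hu⟩) (by
        simp only [List.map_cons, List.map_nil, List.sum_cons, List.sum_nil]
        omega)
      rw [← hP, ← hQ] at h3
      simp only [List.map_cons, List.map_nil, List.prod_cons, List.prod_nil, mul_one] at h3
      exact h3
    have hadd : ∀ u ∈ W.Gi (i + j), ∀ v ∈ W.Gi (i + j), ext T (P * del (u * v) * Q) =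
        ext T (P * del u * Q) + ext T (P * del v * Q) := by
      intro u hu v hv
      have h1 := kill2 (i + j) (i + j) u v (by omega) (by omega) hu hv (by omega)
      rw [del_mul, mul_add, mul_add, add_mul, add_mul, map_add, map_add, h1, add_zero]
    have hz : ∀ u ∈ W.Gi (i + j), ∀ s : ℤ, ext T (P * del (u ^ s) * Q) =
        s * ext T (P * del u * Q) := by
      intro u hu s
      let f : W.Gi (i + j) →* Multiplicative ℚ := MonoidHom.mk'
        (fun x => Multiplicative.ofAdd (ext T (P * del (x : G) * Q))) (fun x y => by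
          rw [← ofAdd_add, ← hadd x x.2 y y.2]
          rfl)
      have h := congrArg Multiplicative.toAdd (map_zpow f ⟨u, hu⟩ s)
      rw [toAdd_zpow, zsmul_eq_mul] at h
      exact h
    have hphi : ∀ u ∈ W.Gi (i + j), ext T (P * del u * Q) =
        W.lead (i + j) u * ext T (P * del (e (i + j)) * Q) := by
      intro u hu
      have he1 := hmem (i + j) (by omega) hm
      have he2 := hlead (i + j) (by omega) hm
      obtain ⟨v, hv⟩ : ∃ v, v = (e (i + j)) ^ (-(W.lead (i + j) u)) * u := ⟨_, rfl⟩
      have hvm : v ∈ W.Gi (i + j) := by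
        rw [hv]
        exact (W.Gi (i + j)).mul_mem ((W.Gi (i + j)).zpow_mem he1 _) hu
      have hvl : v ∈ W.Gi (i + j + 1) := by
        rw [← W.lead_zero (i + j) (by omega) hm v hvm, hv, W.lead_mul (i + j) (by omega) hm _
          ((W.Gi (i + j)).zpow_mem he1 _) _ hu, lead_zpow W (by omega) hm he1, he2]
        ring
      have huv : u = (e (i + j)) ^ (W.lead (i + j) u) * v := by
        rw [hv, ← mul_assoc, ← zpow_add, add_neg_cancel, zpow_zero, one_mul]
      have h1 := hadd _ ((W.Gi (i + j)).zpow_mem he1 (W.lead (i + j) u)) v hvm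
      rw [← huv, hz _ he1, kill1 (i + j + 1) v (by omega) hvl (by omega), add_zero] at h1
      exact h1
    obtain ⟨κ, hκ⟩ : ∃ κ, κ = e i * e j * (e i)⁻¹ * (e j)⁻¹ := ⟨_, rfl⟩
    have hκm : κ ∈ W.Gi (i + j) := by
      rw [hκ]
      exact W.comm_mem i j (by omega) (by omega) _ (hmem i hi (by omega)) _ (hmem j hj (by omega))
    have hκl : W.lead (i + j) κ = (j : ℤ) - i := by
      rw [hκ, W.comm_lead i j (by omega) (by omega) hm _ (hmem i hi (by omega)) _
        (hmem j hj (by omega)), hlead i hi (by omega), hlead j hj (by omega)]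
      ring
    have hcom : del (e i) * del (e j) = del (e j) * del (e i) + (del κ + del κ * del (e j * e i)) := by
      have h1 : MonoidAlgebra.of ℚ G κ * MonoidAlgebra.of ℚ G (e j * e i) =
          MonoidAlgebra.of ℚ G (e i * e j) := by
        rw [← map_mul, hκ]
        congr 1
        group
      have h2 : del κ + del κ * del (e j * e i) = MonoidAlgebra.of ℚ G (e i * e j) -
          MonoidAlgebra.of ℚ G (e j * e i) := by
        rw [← h1]
        unfold del
        noncomm_ring
      rw [h2, map_mul, map_mul]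
      unfold del
      noncomm_ring
    have hAB : ext T (P * (del (e i) * del (e j)) * Q) = ext T (P * (del (e j) * del (e i)) * Q) +
        ((j : ℚ) - i) * ext T (P * del (e (i + j)) * Q) := by
      have h1 := kill2 (i + j) 3 κ (e j * e i) (by omega) le_rfl hκm
        ((W.Gi 3).mul_mem (hanti 3 j (by norm_num) hj (hmem j hj (by omega)))
          (hanti 3 i (by norm_num) hi (hmem i hi (by omega)))) (by omega)
      rw [hcom, mul_add, mul_add, add_mul, add_mul, map_add, map_add, h1, add_zero, hphi κ hκm, hκl]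
      push_cast
      ring
    have e1 : ((pre ++ i :: j :: post).map fun w => del (e w)).prod =
        P * (del (e i) * del (e j)) * Q := by
      rw [List.map_append, List.prod_append, List.map_cons, List.map_cons, List.prod_cons,
        List.prod_cons, ← hP, ← hQ]
      simp only [mul_assoc]
    have e2 : ((pre ++ j :: i :: post).map fun w => del (e w)).prod =
        P * (del (e j) * del (e i)) * Q := by
      rw [List.map_append, List.prod_append, List.map_cons, List.map_cons, List.prod_cons,
        List.prod_cons, ← hP, ← hQ]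
      simp only [mul_assoc]
    have e3 : ((pre ++ (i + j) :: post).map fun w => del (e w)).prod =
        P * del (e (i + j)) * Q := by
      rw [List.map_append, List.prod_append, List.map_cons, List.prod_cons, ← hP, ← hQ, mul_assoc]
    have l1 : (pre ++ i :: j :: post).length = pre.length + post.length + 2 := by
      simp only [List.length_append, List.length_cons]
      omega
    have l2 : (pre ++ j :: i :: post).length = pre.length + post.length + 2 := by
      simp only [List.length_append, List.length_cons]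
      omega
    have l3 : (pre ++ (i + j) :: post).length = pre.length + post.length + 1 := by
      simp only [List.length_append, List.length_cons]
      omega
    show (-1) ^ (pre ++ i :: j :: post).length *
        ext T (((pre ++ i :: j :: post).map fun w => del (e w)).prod) =
      (-1) ^ (pre ++ j :: i :: post).length *
        ext T (((pre ++ j :: i :: post).map fun w => del (e w)).prod) +
      ((i : ℚ) - j) * ((-1) ^ (pre ++ (i + j) :: post).length *
        ext T (((pre ++ (i + j) :: post).map fun w => del (e w)).prod))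
    rw [e1, e2, e3, l1, l2, l3, hAB]
    ring
  · -- r3
    obtain ⟨k, s, hk, hs, hes, -, -, -⟩ := he n hn le_rfl
    have hk' : (⟨n - 1, by omega⟩ : Fin n) = k := Fin.ext (by show n - 1 = k; omega)
    show (-1) ^ ([n] : List ℕ).length * ext T ((([n] : List ℕ).map fun w => del (e w)).prod) ≠ 0
    rw [List.map_cons, List.map_nil, List.prod_cons, List.prod_nil, mul_one]
    have h1 : ext T (del (e n)) = s := by
      unfold del
      rw [map_sub, ext_of, ext_one, hT, hes]
      unfold lastCoord
      rw [hk', coord_pow, coord_one]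
      simp
    rw [h1]
    rcases hs with hs | hs <;> rw [hs] <;> norm_num

end NK639.RULES
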