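import Pool.Agent.R639.NK.St

/-! Piece TAU -/

namespace NK639.TAU

open NK639

variable {n : ℕ} {G : Type} [Group G]

/-- `lead i` as a homomorphism. -/
noncomputable def lhom (W : WData n G) (i : ℕ) (h1 : 1 ≤ i) (h2 : i ≤ n) :
    W.Gi i →* Multiplicative ℤ :=
  MonoidHom.mk' (fun x => Multiplicative.ofAdd (W.lead i x))
    (fun x y => by
      rw [← ofAdd_add]
      exact congrArg _ (W.lead_mul i h1 h2 x x.2 y y.2))

lemma lead_zpow (W : WData n G) (i : ℕ) (h1 : 1 ≤ i) (h2 : i ≤ n) {x : G} (hx : x ∈ W.Gi i)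
    (m : ℤ) : W.lead i (x ^ m) = m * W.lead i x := by
  have h := map_zpow (lhom W i h1 h2) ⟨x, hx⟩ m
  have h' : Multiplicative.ofAdd (W.lead i (x ^ m)) = (Multiplicative.ofAdd (W.lead i x)) ^ m := h
  rw [← ofAdd_zsmul] at h'
  have h'' := Multiplicative.ofAdd.injective h'
  rw [h'', smul_eq_mul]

lemma anti (W : WData n G) {i j : ℕ} (h1 : 1 ≤ i) (hij : i ≤ j) : W.Gi j ≤ W.Gi i := by
  induction j, hij using Nat.le_induction with
  | base => exact le_rfl
  | succ j hj ih => exact (W.Gi_anti j (h1.trans hj)).trans ih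

/-- tail product -/
noncomputable def tp (a : Fin n → G) (x : Fin n → ℤ) (k : ℕ) : G :=
  ((List.ofFn fun i => a i ^ x i).drop k).prod

lemma tp_zero (a : Fin n → G) (x : Fin n → ℤ) : tp a x 0 = mprod a x := by
  simp [tp, mprod]

lemma tp_of_le (a : Fin n → G) (x : Fin n → ℤ) {k : ℕ} (hk : n ≤ k) : tp a x k = 1 := by
  unfold tp
  rw [List.drop_eq_nil_of_le (by simpa using hk)]
  rfl

lemma tp_succ (a : Fin n → G) (x : Fin n → ℤ) {k : ℕ} (hk : k < n) :
    tp a x k = a ⟨k, hk⟩ ^ x ⟨k, hk⟩ * tp a x (k + 1) := by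
  unfold tp
  rw [List.drop_eq_getElem_cons (by simpa using hk), List.prod_cons, List.getElem_ofFn]

/-- leading elements -/
def Lead (W : WData n G) (a : Fin n → G) : Prop :=
  ∀ j : Fin n, a j ∈ W.Gi (j + 1) ∧ W.lead (j + 1) (a j) = 1

lemma tp_mem (W : WData n G) {a : Fin n → G} (ha : Lead W a) (x : Fin n → ℤ) :
    ∀ d k : ℕ, k + d = n → tp a x k ∈ W.Gi (k + 1) := by
  intro d
  induction d with
  | zero =>
    intro k hk
    rw [tp_of_le a x (by omega)]
    exact one_mem _
  | succ d ih =>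
    intro k hk
    have hkn : k < n := by omega
    rw [tp_succ a x hkn]
    refine mul_mem (zpow_mem (ha ⟨k, hkn⟩).1 _) ?_
    exact W.Gi_anti (k + 1) (by omega) (ih (k + 1) (by omega))

lemma tp_lead (W : WData n G) {a : Fin n → G} (ha : Lead W a) (x : Fin n → ℤ) {k : ℕ}
    (hk : k < n) : W.lead (k + 1) (tp a x k) = x ⟨k, hk⟩ := by
  have h1 : tp a x (k + 1) ∈ W.Gi (k + 1 + 1) := tp_mem W ha x (n - (k + 1)) (k + 1) (by omega)
  have h2 : tp a x (k + 1) ∈ W.Gi (k + 1) := W.Gi_anti (k + 1) (by omega) h1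
  have h3 := (ha ⟨k, hk⟩)
  rw [tp_succ a x hk, W.lead_mul (k + 1) (by omega) (by omega) _ (zpow_mem h3.1 _) _ h2,
    lead_zpow W (k + 1) (by omega) (by omega) h3.1,
    (W.lead_zero (k + 1) (by omega) (by omega) _ h2).2 h1]
  have h4 : W.lead (k + 1) (a ⟨k, hk⟩) = 1 := h3.2
  rw [h4]
  ring

lemma tp_congr (a : Fin n → G) (x y : Fin n → ℤ) :
    ∀ d k : ℕ, k + d = n → (∀ i : Fin n, k ≤ (i : ℕ) → x i = y i) → tp a x k = tp a y k := by
  intro d
  induction d with
  | zero =>
    intro k hk _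
    rw [tp_of_le a x (by omega), tp_of_le a y (by omega)]
  | succ d ih =>
    intro k hk h
    have hkn : k < n := by omega
    rw [tp_succ a x hkn, tp_succ a y hkn, h ⟨k, hkn⟩ le_rfl,
      ih (k + 1) (by omega) (fun i hi => h i (by omega))]

lemma tp_exists (W : WData n G) {a : Fin n → G} (ha : Lead W a) :
    ∀ d k : ℕ, k + d = n → ∀ g ∈ W.Gi (k + 1), ∃ x : Fin n → ℤ, tp a x k = g := by
  intro d
  induction d with
  | zero =>
    intro k hk g hg
    rw [W.Gi_bot (k + 1) (by omega), Subgroup.mem_bot] at hg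
    exact ⟨0, by rw [tp_of_le a _ (by omega), hg]⟩
  | succ d ih =>
    intro k hk g hg
    have hkn : k < n := by omega
    have h3 := (ha ⟨k, hkn⟩)
    have h4 : W.lead (k + 1) (a ⟨k, hkn⟩) = 1 := h3.2
    have hz : a ⟨k, hkn⟩ ^ (-(W.lead (k + 1) g)) ∈ W.Gi (k + 1) := zpow_mem h3.1 _
    have hmem : a ⟨k, hkn⟩ ^ (-(W.lead (k + 1) g)) * g ∈ W.Gi (k + 1) := mul_mem hz hg
    have hlead : W.lead (k + 1) (a ⟨k, hkn⟩ ^ (-(W.lead (k + 1) g)) * g) = 0 := by
      rw [W.lead_mul (k + 1) (by omega) (by omega) _ hz _ hg,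
        lead_zpow W (k + 1) (by omega) (by omega) h3.1, h4]
      ring
    have hmem2 := (W.lead_zero (k + 1) (by omega) (by omega) _ hmem).1 hlead
    obtain ⟨x', hx'⟩ := ih (k + 1) (by omega) _ hmem2
    refine ⟨Function.update x' ⟨k, hkn⟩ (W.lead (k + 1) g), ?_⟩
    rw [tp_succ a _ hkn, Function.update_self,
      tp_congr a (Function.update x' ⟨k, hkn⟩ (W.lead (k + 1) g)) x' (n - (k + 1)) (k + 1)
        (by omega) (fun i hi => ?_), hx', ← mul_assoc, ← zpow_add, add_neg_cancel, zpow_zero,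
      one_mul]
    refine Function.update_of_ne (fun h => ?_) _ _
    rw [h] at hi
    simp at hi

lemma tp_unique (W : WData n G) {a : Fin n → G} (ha : Lead W a) (x y : Fin n → ℤ) :
    ∀ d k : ℕ, k + d = n → tp a x k = tp a y k → ∀ i : Fin n, k ≤ (i : ℕ) → x i = y i := by
  intro d
  induction d with
  | zero =>
    intro k hk _ i hi
    have := i.2
    omega
  | succ d ih =>
    intro k hk h i hi
    have hkn : k < n := by omega
    have h1 : x ⟨k, hkn⟩ = y ⟨k, hkn⟩ := by
      rw [← tp_lead W ha x hkn, ← tp_lead W ha y hkn, h]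
    rcases hi.eq_or_lt with hik | hik
    · have : i = ⟨k, hkn⟩ := Fin.ext hik.symm
      rw [this]
      exact h1
    · refine ih (k + 1) (by omega) ?_ i hik
      rw [tp_succ a x hkn, tp_succ a y hkn, h1] at h
      exact mul_left_cancel h

lemma tp_tail (a : Fin n → G) (x : Fin n → ℤ) :
    ∀ d k : ℕ, k + d = n → tp a x k ∈ tailSub a k := by
  intro d
  induction d with
  | zero =>
    intro k hk
    rw [tp_of_le a x (by omega)]
    exact one_mem _
  | succ d ih =>
    intro k hk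
    have hkn : k < n := by omega
    rw [tp_succ a x hkn]
    have hm : a ⟨k, hkn⟩ ∈ tailSub a k :=
      Subgroup.subset_closure (show _ ∈ {g | ∃ j : Fin n, k ≤ (j : ℕ) ∧ a j = g} from
        ⟨⟨k, hkn⟩, le_rfl, rfl⟩)
    have hle : tailSub a (k + 1) ≤ tailSub a k := by
      refine Subgroup.closure_mono ?_
      rintro g ⟨j, hj, rfl⟩
      exact ⟨j, by omega, rfl⟩
    exact mul_mem (zpow_mem hm _) (hle (ih (k + 1) (by omega)))

lemma tail_eq (W : WData n G) {a : Fin n → G} (ha : Lead W a) {k : ℕ} (hk : k ≤ n) :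
    tailSub a k = W.Gi (k + 1) := by
  refine le_antisymm ?_ (fun g hg => ?_)
  · refine (Subgroup.closure_le _).2 ?_
    rintro g ⟨j, hj, rfl⟩
    exact anti W (by omega) (by omega) (ha j).1
  · obtain ⟨x, rfl⟩ := tp_exists W ha (n - k) k (by omega) g hg
    exact tp_tail a x (n - k) k (by omega)

theorem main : S_TAU := by
  intro n G _ hn W
  choose! b hb1 hb2 using W.lead_surj
  let a : Fin n → G := fun j => b (j + 1)
  have ha : Lead W a := fun j =>
    ⟨hb1 (j + 1) (by omega) (by omega), hb2 (j + 1) (by omega) (by omega)⟩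
  refine ⟨⟨?_, ?_, ?_⟩, a, ⟨?_, ?_⟩⟩
  · rw [Group.fg_iff]
    refine ⟨{g | ∃ j : Fin n, 0 ≤ (j : ℕ) ∧ a j = g}, ?_, ?_⟩
    · have h := tail_eq W ha (Nat.zero_le n)
      rw [zero_add, W.Gi_one] at h
      exact h
    · refine (Set.finite_range a).subset ?_
      rintro g ⟨j, _, rfl⟩
      exact ⟨j, rfl⟩
  · rw [Subgroup.nilpotent_iff_finite_descending_central_series]
    refine ⟨n, fun i => W.Gi (i + 1), ⟨?_, ?_⟩, W.Gi_bot (n + 1) (by omega)⟩
    · exact W.Gi_one
    · intro x i hx g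
      exact W.comm_mem (i + 1) 1 (by omega) le_rfl x hx g (by rw [W.Gi_one]; trivial)
  · intro g m hm hg
    have key : ∀ k : ℕ, k ≤ n → g ∈ W.Gi (k + 1) := by
      intro k
      induction k with
      | zero => intro _; rw [zero_add, W.Gi_one]; trivial
      | succ k ih =>
        intro hk
        have h1 := ih (by omega)
        refine (W.lead_zero (k + 1) (by omega) (by omega) g h1).1 ?_
        have h2 := lead_zpow W (k + 1) (by omega) (by omega) h1 (m : ℤ)
        rw [zpow_natCast, hg] at h2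
        have h3 : W.lead (k + 1) (1 : G) = 0 :=
          (W.lead_zero (k + 1) (by omega) (by omega) 1 (one_mem _)).2 (one_mem _)
        rw [h3] at h2
        have h4 : (m : ℤ) ≠ 0 := by exact_mod_cast hm.ne'
        rcases mul_eq_zero.1 h2.symm with h5 | h5
        · exact absurd h5 h4
        · exact h5
    have := key n le_rfl
    rw [W.Gi_bot (n + 1) (by omega), Subgroup.mem_bot] at this
    exact this
  · intro g
    obtain ⟨x, hx⟩ := tp_exists W ha n 0 (by omega) g (by rw [zero_add, W.Gi_one]; trivial)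
    refine ⟨x, (tp_zero a x).symm.trans hx, fun y hy => ?_⟩
    funext i
    refine tp_unique W ha y x n 0 (by omega) ?_ i (Nat.zero_le _)
    rw [hx, tp_zero]
    exact hy
  · intro i
    rcases le_or_gt (i + 1) n with hi | hi
    · rw [tail_eq W ha (by omega : i ≤ n), tail_eq W ha hi, Subgroup.commutator_le]
      intro x hx y _
      exact W.comm_mem (i + 1) 1 (by omega) le_rfl x hx y (by rw [W.Gi_one]; trivial)
    · have hbot : tailSub a i = ⊥ := by
        unfold tailSub
        rw [Subgroup.closure_eq_bot_iff]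
        rintro g ⟨j, hj, rfl⟩
        have := j.2
        omega
      rw [hbot]
      simp

end NK639.TAU
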