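import Pool.Agent.R639.NK.St

set_option autoImplicit false

open scoped commutatorElement

namespace NK639.TF

section
variable {G : Type} [Group G]

theorem mprod_succ {N : ℕ} (a : Fin (N + 1) → G) (x : Fin (N + 1) → ℤ) :
    mprod a x = a 0 ^ x 0 * mprod (fun i => a i.succ) (fun i => x i.succ) := by
  unfold mprod
  rw [List.ofFn_succ, List.prod_cons]

theorem mprod_update : ∀ (N : ℕ) (a : Fin N → G) (x : Fin N → ℤ) (k : Fin N) (c : ℤ),
    (∀ i, i ≤ k → x i = 0) → mprod a (Function.update x k c) = a k ^ c * mprod a x := by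
  intro N
  induction N with
  | zero => intro a x k; exact k.elim0
  | succ N ih =>
    intro a x k c hx
    have h0 : x 0 = 0 := hx 0 (Fin.zero_le k)
    rw [mprod_succ, mprod_succ, h0, zpow_zero, one_mul]
    cases k using Fin.cases with
    | zero =>
      rw [Function.update_self]
      congr 2
    | succ k' =>
      have h1 : (Function.update x k'.succ c) 0 = 0 := by
        rw [Function.update_of_ne (Fin.succ_ne_zero k').symm, h0]
      rw [h1, zpow_zero, one_mul]
      have h2 : (fun i : Fin N => (Function.update x k'.succ c) i.succ) =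
          Function.update (fun i : Fin N => x i.succ) k' c := by
        funext i
        by_cases h : i = k'
        · subst h
          rw [Function.update_self, Function.update_self]
        · rw [Function.update_of_ne h, Function.update_of_ne]
          intro h'
          exact h (Fin.succ_injective _ h')
      rw [h2, ih (fun i => a i.succ) (fun i => x i.succ) k' c]
      intro i hi
      exact hx i.succ (Fin.succ_le_succ_iff.mpr hi)

theorem mprod_zero : ∀ (N : ℕ) (a : Fin N → G), mprod a (fun _ => 0) = 1 := by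
  intro N a
  unfold mprod
  simp

theorem tail_anti {N : ℕ} (a : Fin N → G) (i j : ℕ) (h : i ≤ j) : tailSub a j ≤ tailSub a i := by
  apply Subgroup.closure_mono
  rintro g ⟨k, hk, rfl⟩
  exact ⟨k, h.trans hk, rfl⟩

theorem tail_bot {N : ℕ} (a : Fin N → G) (i : ℕ) (h : N ≤ i) : tailSub a i = ⊥ := by
  unfold tailSub
  rw [Subgroup.closure_eq_bot_iff]
  rintro g ⟨k, hk, -⟩
  exact absurd k.isLt (by omega)

theorem tail_normal {N : ℕ} (a : Fin N → G) (ha : IsMalcevBasis a) (i : ℕ) :
    (tailSub a i).Normal := by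
  constructor
  intro n hn g
  have h1 : ⁅n, g⁆ ∈ tailSub a (i + 1) :=
    ha.central i (Subgroup.commutator_mem_commutator hn (Subgroup.mem_top g))
  have h2 : ⁅n, g⁆ ∈ tailSub a i := tail_anti a i (i + 1) (by omega) h1
  have h3 : g * n * g⁻¹ = ⁅n, g⁆⁻¹ * n := by
    rw [commutatorElement_def]
    group
  rw [h3]
  exact Subgroup.mul_mem _ (Subgroup.inv_mem _ h2) hn

theorem tail_split {N : ℕ} (a : Fin N → G) (ha : IsMalcevBasis a) (i : Fin N) (g : G)
    (hg : g ∈ tailSub a i) : ∃ (x : ℤ) (h : G), h ∈ tailSub a (i + 1) ∧ g = a i ^ x * h := by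
  have := tail_normal a ha (i + 1)
  have h1 : tailSub a i ≤ Subgroup.zpowers (a i) ⊔ tailSub a (i + 1) := by
    unfold tailSub
    rw [Subgroup.closure_le]
    rintro _ ⟨k, hk, rfl⟩
    rcases Nat.lt_or_ge (i : ℕ) (k : ℕ) with h | h
    · apply Subgroup.mem_sup_right
      exact Subgroup.subset_closure ⟨k, h, rfl⟩
    · have : k = i := Fin.ext (le_antisymm h hk)
      subst this
      exact Subgroup.mem_sup_left (Subgroup.mem_zpowers _)
  have h2 := h1 hg
  rw [← SetLike.mem_coe, Subgroup.mul_normal] at h2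
  obtain ⟨y, hy, z, hz, hyz⟩ := h2
  obtain ⟨x, hx⟩ := Subgroup.mem_zpowers_iff.mp hy
  refine ⟨x, z, hz, ?_⟩
  rw [hx]
  exact hyz.symm

theorem tail_coord {N : ℕ} (a : Fin N → G) (ha : IsMalcevBasis a) : ∀ (m k : ℕ), k + m = N →
    ∀ h ∈ tailSub a k, ∃ x : Fin N → ℤ, (∀ i : Fin N, (i : ℕ) < k → x i = 0) ∧ mprod a x = h := by
  intro m
  induction m with
  | zero =>
    intro k hk h hh
    rw [tail_bot a k (by omega), Subgroup.mem_bot] at hh
    exact ⟨fun _ => 0, fun _ _ => rfl, by rw [mprod_zero, hh]⟩
  | succ m ih =>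
    intro k hk h hh
    have hkN : k < N := by omega
    obtain ⟨c, h', hh', rfl⟩ := tail_split a ha ⟨k, hkN⟩ h hh
    obtain ⟨x, hx0, hx⟩ := ih (k + 1) (by omega) h' hh'
    refine ⟨Function.update x ⟨k, hkN⟩ c, ?_, ?_⟩
    · intro i hi
      rw [Function.update_of_ne]
      · exact hx0 i (by omega)
      · rintro rfl
        exact absurd hi (lt_irrefl _)
    · rw [mprod_update N a x ⟨k, hkN⟩ c, hx]
      intro i hi
      apply hx0
      have : (i : ℕ) ≤ k := hi
      omega

theorem pow_tail {N : ℕ} (a : Fin N → G) (ha : IsMalcevBasis a) (i : Fin N) (x : ℤ)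
    (h : a i ^ x ∈ tailSub a (i + 1)) : x = 0 := by
  obtain ⟨y, hy0, hy⟩ := tail_coord a ha (N - (i + 1)) (i + 1) (by omega) _ h
  have h1 : mprod a (Function.update (fun _ => 0) i x) = a i ^ x := by
    rw [mprod_update N a (fun _ => 0) i x (fun _ _ => rfl), mprod_zero, mul_one]
  obtain ⟨z, -, hz⟩ := ha.unique_expr (a i ^ x)
  have h2 : y = Function.update (fun _ => 0) i x := (hz y hy).trans (hz _ h1).symm
  have h3 := hy0 i (Nat.lt_succ_self _)
  rw [h2, Function.update_self] at h3
  exact h3

end

theorem main : S_TF := by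
  intro G _ N a ha j g s hs hg
  have hj : ∀ i, i ≤ j → g ∈ tailSub a i := by
    intro i
    induction i with
    | zero =>
      intro _
      obtain ⟨x, hx, -⟩ := ha.unique_expr g
      rw [← hx]
      unfold mprod
      apply Subgroup.list_prod_mem
      intro y hy
      rw [List.mem_ofFn] at hy
      obtain ⟨k, rfl⟩ := hy
      apply Subgroup.zpow_mem
      exact Subgroup.subset_closure ⟨k, Nat.zero_le _, rfl⟩
    | succ i ih =>
      intro hi
      have h1 := ih (by omega)
      rcases Nat.lt_or_ge i N with hiN | hiN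
      · obtain ⟨x, h, hh, rfl⟩ := tail_split a ha ⟨i, hiN⟩ g h1
        have := tail_normal a ha (i + 1)
        have h2 : (a ⟨i, hiN⟩ ^ x * h) ^ s ∈ tailSub a (i + 1) := tail_anti a _ _ hi hg
        have h3 : a ⟨i, hiN⟩ ^ (x * s) ∈ tailSub a (i + 1) := by
          have h4 : QuotientGroup.mk' (tailSub a (i + 1)) ((a ⟨i, hiN⟩ ^ x * h) ^ s) = 1 := by
            rw [← MonoidHom.mem_ker, QuotientGroup.ker_mk']
            exact h2
          have h5 : QuotientGroup.mk' (tailSub a (i + 1)) h = 1 := by
            rw [← MonoidHom.mem_ker, QuotientGroup.ker_mk']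
            exact hh
          rw [map_zpow, map_mul, h5, mul_one, ← map_zpow, ← zpow_mul, ← MonoidHom.mem_ker,
            QuotientGroup.ker_mk'] at h4
          exact h4
        have h6 := pow_tail a ha ⟨i, hiN⟩ (x * s) h3
        rcases mul_eq_zero.mp h6 with h7 | h7
        · subst h7
          rw [zpow_zero, one_mul]
          exact hh
        · exact absurd h7 hs
      · rw [tail_bot a i hiN] at h1
        rw [Subgroup.mem_bot] at h1
        rw [h1]
        exact Subgroup.one_mem _
  exact hj j le_rfl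

end NK639.TF
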