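import Pool.Agent.R639.NK.Assembly
import Pool.Agent.R639.NK.ADM
import Pool.Agent.R639.NK.B1
import Pool.Agent.R639.NK.B2
import Pool.Agent.R639.NK.B3
import Pool.Agent.R639.NK.BRIDGE
import Pool.Agent.R639.NK.CEN
import Pool.Agent.R639.NK.COMB0
import Pool.Agent.R639.NK.COMB
import Pool.Agent.R639.NK.FORCE
import Pool.Agent.R639.NK.GROW
import Pool.Agent.R639.NK.KINK
import Pool.Agent.R639.NK.LB
import Pool.Agent.R639.NK.POLT
import Pool.Agent.R639.NK.PROD
import Pool.Agent.R639.NK.QV
import Pool.Agent.R639.NK.R1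
import Pool.Agent.R639.NK.R3
import Pool.Agent.R639.NK.RK
import Pool.Agent.R639.NK.RULES
import Pool.Agent.R639.NK.TAU
import Pool.Agent.R639.NK.TF

namespace NK639

theorem final : MainStatement :=
  assembly (B3.main B1.main (B2.main B1.main)) TAU.main (FORCE.main TF.main CEN.main RK.main)
    (LB.main (RULES.main (POLT.main PROD.main)) (COMB.main COMB0.main) BRIDGE.main QV.main
      (R3.main R1.main KINK.main QV.main) ADM.main) GROW.main

end NK639
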