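import Pool.Agent.R639.NK.St

/-!
# Piece R1: expansion of `PhiF` over assignments
-/

namespace NK639.R1

open NK639

theorem upd_eq {r : ℕ} (a : Fin r → ℤ) (i : Fin r) (c : ℤ) (l : Fin r) :
    Function.update a i (a i + c) l = a l + (if i = l then c else 0) := by
  by_cases h : i = l
  · subst h
    simp
  · rw [Function.update_of_ne (Ne.symm h), if_neg h, add_zero]

theorem psum_cons {r m : ℕ} (q : Fin (m + 1) → ℤ) (i : Fin r) (g : Fin m → Fin r) (l : Fin r) :
    psum q (Fin.cons (α := fun _ => Fin r) i g : Fin (m + 1) → Fin r) l =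
      (if i = l then q 0 else 0) + psum (fun j => q j.succ) g l := by
  unfold psum
  rw [Fin.sum_univ_succ]
  simp only [Fin.cons_zero, Fin.cons_succ]

theorem afac_cons {r m : ℕ} (a : Fin r → ℤ) (q : Fin (m + 1) → ℤ) (i : Fin r)
    (g : Fin m → Fin r) :
    Afac a q (Fin.cons (α := fun _ => Fin r) i g : Fin (m + 1) → Fin r) =
      (a i - q 0) * Afac (Function.update a i (a i + q 0)) (fun j => q j.succ) g := by
  unfold Afac
  rw [Fin.prod_univ_succ]
  congr 1
  · simp
  · refine Finset.prod_congr rfl fun j _ => ?_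
    rw [Fin.sum_univ_succ, upd_eq]
    simp only [Fin.cons_zero, Fin.cons_succ, Fin.succ_lt_succ_iff, Fin.succ_pos, true_and]
    ring

theorem main : S_R1 := by
  intro r m
  induction m with
  | zero =>
    intro a q
    simp [PhiF, Afac, psum]
  | succ m ih =>
    intro a q
    rw [List.ofFn_succ]
    change ∑ i : Fin r, (a i - q 0) * PhiF (Function.update a i (a i + q 0))
      (List.ofFn fun i => q i.succ) = _
    rw [← (Fin.consEquiv (fun _ : Fin (m + 1) => Fin r)).sum_comp, Fintype.sum_prod_type]
    refine Finset.sum_congr rfl fun i _ => ?_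
    rw [ih, Finset.mul_sum]
    refine Finset.sum_congr rfl fun g _ => ?_
    change _ = Afac a q (Fin.cons (α := fun _ => Fin r) i g : Fin (m + 1) → Fin r) *
      baseF (fun l => a l + psum q (Fin.cons (α := fun _ => Fin r) i g : Fin (m + 1) → Fin r) l)
    rw [afac_cons, mul_assoc]
    congr 2
    congr 1
    funext l
    rw [psum_cons, upd_eq]
    ring

end NK639.R1
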