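import Pool.Agent.R639.NK.Defs

/-!
# Statements of the pieces (problem MP_41a35f_al); proofs on paper in `NOTES.md`.
Piece `XXX` is to be proved in `Pool/Agent/R639/NK/XXX.lean`.
-/

namespace NK639

open scoped BigOperators

/-- Functions `G → ℚ` of weighted degree `≤ w` : the linear extension kills every product
`(x_1 - 1) ⋯ (x_m - 1)` with `x_s ∈ Gi w_s`, `w_s ≥ lo`, `∑ w_s > w`. -/
def Pol {G : Type} [Group G] (Gi : ℕ → Subgroup G) (lo : ℕ) (w : ℤ) : Set (G → ℚ) :=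
  {f | ∀ L : List (ℕ × G), (∀ p ∈ L, lo ≤ p.1 ∧ p.2 ∈ Gi p.1) →
    w < ((L.map Prod.fst).sum : ℕ) → ext f ((L.map fun p => del p.2).prod) = 0}

/-- Abstract data of the truncated substitution group: a filtration with quotients `ℤ`
(`lead i : G_i → ℤ`), the commutator rule `lead [x,y] = (j - i) lead x lead y`, and coordinate
functions `c i` of weighted degree `≤ i` that agree with `lead i` on `G_i`. -/
structure WData (n : ℕ) (G : Type) [Group G] where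
  Gi : ℕ → Subgroup G
  lead : ℕ → G → ℤ
  c : ℕ → G → ℤ
  Gi_one : Gi 1 = ⊤
  Gi_anti : ∀ i, 1 ≤ i → Gi (i + 1) ≤ Gi i
  Gi_bot : ∀ i, n < i → Gi i = ⊥
  lead_mul : ∀ i, 1 ≤ i → i ≤ n → ∀ x ∈ Gi i, ∀ y ∈ Gi i, lead i (x * y) = lead i x + lead i y
  lead_zero : ∀ i, 1 ≤ i → i ≤ n → ∀ x ∈ Gi i, (lead i x = 0 ↔ x ∈ Gi (i + 1))
  lead_surj : ∀ i, 1 ≤ i → i ≤ n → ∃ x ∈ Gi i, lead i x = 1
  comm_mem : ∀ i j, 1 ≤ i → 1 ≤ j → ∀ x ∈ Gi i, ∀ y ∈ Gi j, (x * y * x⁻¹ * y⁻¹) ∈ Gi (i + j)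
  comm_lead : ∀ i j, 1 ≤ i → 1 ≤ j → i + j ≤ n → ∀ x ∈ Gi i, ∀ y ∈ Gi j,
    lead (i + j) (x * y * x⁻¹ * y⁻¹) = ((j : ℤ) - i) * lead i x * lead j y
  c_lead : ∀ i, 1 ≤ i → i ≤ n → ∀ x ∈ Gi i, c i x = lead i x
  c_pol : ∀ i, 1 ≤ i → i ≤ n → (fun g => (c i g : ℚ)) ∈ Pol Gi 1 i

/-! ### The concrete group -/

/-- `ℤ[X]/(X^N)` -/
abbrev RR (N : ℕ) := Polynomial ℤ ⧸ Ideal.span {(Polynomial.X : Polynomial ℤ) ^ N}

/-- the class of `X` -/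
noncomputable def xx (N : ℕ) : RR N := Ideal.Quotient.mk _ Polynomial.X

/-- the ideal `(X^j)` -/
noncomputable def mm (N j : ℕ) : Ideal (RR N) := Ideal.span {xx N ^ j}

/-- the `i`-th coefficient (meaningful for `i < N`) -/
noncomputable def co (N i : ℕ) (y : RR N) : ℤ := (Quotient.out y : Polynomial ℤ).coeff i

/-- ring facts -/
def S_B1 : Prop := ∀ N : ℕ,
  (∀ i, i < N → ∀ p : Polynomial ℤ, co N i (Ideal.Quotient.mk _ p) = p.coeff i) ∧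
  (∀ i, i < N → ∀ y z : RR N, co N i (y + z) = co N i y + co N i z) ∧
  (∀ j, j ≤ N → ∀ y : RR N, y ∈ mm N j ↔ ∀ i, i < j → co N i y = 0) ∧
  (∀ a b, a + b < N → ∀ y ∈ mm N a, ∀ z ∈ mm N b,
    co N (a + b) (y * z) = co N a y * co N b z) ∧
  mm N N = ⊥

/-- the action of `σ = X + …` on `(X^j)` -/
def S_B2 : Prop := ∀ (N i j : ℕ), 1 ≤ i → ∀ σ : RR N →ₐ[ℤ] RR N,
  σ (xx N) - xx N ∈ mm N (i + 1) → ∀ y ∈ mm N j,
    σ y - y ∈ mm N (i + j) ∧ (i + j < N →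
      co N (i + j) (σ y - y) = (j : ℤ) * co N j y * co N (i + 1) (σ (xx N) - xx N))

/-- existence of the concrete group (piece B3 proves `S_B1 → S_B2 → S_B`) -/
def S_B : Prop := ∀ n : ℕ, 3 ≤ n → ∃ (G : Type) (_ : Group G), Nonempty (WData n G)

/-! ### Consequences of `WData` -/

/-- `G` is a `τ`-group and has a Mal'cev basis of length `n` -/
def S_TAU : Prop := ∀ (n : ℕ) (G : Type) [Group G], 3 ≤ n → WData n G →
  IsTauGroup G ∧ ∃ a : Fin n → G, IsMalcevBasis a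

/-- `G / ⟨a_i,…,a_N⟩` is torsion-free -/
def S_TF : Prop := ∀ (G : Type) [Group G] (N : ℕ) (a : Fin N → G), IsMalcevBasis a →
  ∀ (j : ℕ) (g : G) (s : ℤ), s ≠ 0 → g ^ s ∈ tailSub a j → g ∈ tailSub a j

/-- centre of `G / G_{i+1}` is `G_i / G_{i+1}` for `i ≥ 3` -/
def S_CEN : Prop := ∀ (n : ℕ) (G : Type) [Group G] (W : WData n G) (i : ℕ), 3 ≤ i → i ≤ n →
  ∀ x : G, (∀ y : G, (x * y * x⁻¹ * y⁻¹) ∈ W.Gi (i + 1)) → x ∈ W.Gi i

/-- `G / G_3 ≅ ℤ²`, so exactly two basis elements lie above `G_3` -/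
def S_RK : Prop := ∀ (n : ℕ) (G : Type) [Group G] (W : WData n G), 3 ≤ n →
  ∀ (N : ℕ) (a : Fin N → G), IsMalcevBasis a → ∀ N' : ℕ, N' ≤ N → tailSub a N' = W.Gi 3 → N' = 2

/-- every Mal'cev basis is compatible with the filtration from weight `3` on
(piece FORCE proves `S_TF → S_CEN → S_RK → S_FORCE`) -/
def S_FORCE : Prop := ∀ (n : ℕ) (G : Type) [Group G] (W : WData n G), 3 ≤ n →
  ∀ (N : ℕ) (a : Fin N → G), IsMalcevBasis a → N = n ∧ ∀ j : Fin N, 2 ≤ (j : ℕ) →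
    a j ∈ W.Gi (j + 1) ∧ (W.lead (j + 1) (a j) = 1 ∨ W.lead (j + 1) (a j) = -1) ∧
    tailSub a j = W.Gi (j + 1)

/-- compatibility of a basis of length `n` with the filtration -/
def Forced {n : ℕ} {G : Type} [Group G] (W : WData n G) (a : Fin n → G) : Prop :=
  ∀ j : Fin n, 2 ≤ (j : ℕ) →
    a j ∈ W.Gi (j + 1) ∧ (W.lead (j + 1) (a j) = 1 ∨ W.lead (j + 1) (a j) = -1) ∧
    tailSub a j = W.Gi (j + 1)

/-- product rule -/
def S_PROD : Prop := ∀ (G : Type) [Group G] (Gi : ℕ → Subgroup G) (lo : ℕ), 1 ≤ lo →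
  ∀ (w w' : ℤ) (f g : G → ℚ), f ∈ Pol Gi lo w → g ∈ Pol Gi lo w' →
    (fun x => f x * g x) ∈ Pol Gi lo (w + w')

/-- the coordinate functions `t_i`, `i ≥ 3`, have weighted degree `≤ i` on `G_3`
(piece POLT proves `S_PROD → S_POLT`) -/
def S_POLT : Prop := ∀ (n : ℕ) (G : Type) [Group G] (W : WData n G), 3 ≤ n →
  ∀ (a : Fin n → G) (ha : IsMalcevBasis a), Forced W a → ∀ j : Fin n, 2 ≤ (j : ℕ) →
    (fun g => (coord a ha g j : ℚ)) ∈ Pol W.Gi 3 ((j : ℕ) + 1 : ℕ)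

/-- The rules satisfied by `Λ(w_1,…,w_m) = (-1)^m t_n((e_{w_1} - 1) ⋯ (e_{w_m} - 1))`. -/
structure LamRules (n : ℕ) (Λ : List ℕ → ℚ) : Prop where
  r0 : ∀ (q : ℕ) (w : List ℕ), w ≠ [] → 3 ≤ q → (∀ x ∈ w, q ≤ x) → q + w.sum = n →
    Λ (q :: w) = 0
  r1 : ∀ (pre : List ℕ) (i j : ℕ) (post : List ℕ), (∀ x ∈ pre ++ i :: j :: post, 3 ≤ x) →
    (pre ++ i :: j :: post).sum = n →
    Λ (pre ++ i :: j :: post) = Λ (pre ++ j :: i :: post) +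
      ((i : ℚ) - j) * Λ (pre ++ (i + j) :: post)
  r3 : Λ [n] ≠ 0

/-- last coordinate -/
noncomputable def lastCoord {n : ℕ} {G : Type} [Group G] (hn : 3 ≤ n) (a : Fin n → G)
    (ha : IsMalcevBasis a) (g : G) : ℚ := (coord a ha g ⟨n - 1, by omega⟩ : ℤ)

/-- piece RULES proves `S_POLT → S_RULES` -/
def S_RULES : Prop := ∀ (n : ℕ) (G : Type) [Group G] (W : WData n G) (hn : 3 ≤ n)
  (a : Fin n → G) (ha : IsMalcevBasis a), Forced W a →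
  ∃ e : ℕ → G, LamRules n fun L =>
    (-1) ^ L.length * ext (lastCoord hn a ha) ((L.map fun w => del (e w)).prod)

/-! ### Combinatorics -/

/-- `base B [b_1,…,b_m] = (B-b_1)⁺ (B+b_1-b_2)⁺ (B+b_1+b_2-b_3)⁺ ⋯` -/
def base : ℤ → List ℤ → ℤ
  | _, [] => 1
  | B, b :: L => max (B - b) 0 * base (B + b) L

/-- `Phi a q` for lists `a` (slots) and `q` -/
def Phi : List ℤ → List ℤ → ℤ
  | [], [] => 0
  | b :: L, [] => base b L
  | a, q :: qs => ∑ i ∈ Finset.range a.length,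
      (a.getD i 0 - q) * Phi (a.set i (a.getD i 0 + q)) qs

/-- scale separation -/
def Sep (k : ℕ) : ℕ → List ℕ → Prop
  | _, [] => True
  | S, x :: L => (∀ y ∈ L, S + k ≤ y ∧ x + k ≤ y) ∧ Sep k (S + x) L

/-- evaluation of words without small letters -/
def S_COMB0 : Prop := ∀ (n : ℕ) (Λ : List ℕ → ℚ), LamRules n Λ →
  ∀ (b1 : ℕ) (rest : List ℕ), 3 ≤ b1 → (∀ x ∈ rest, 3 ≤ x) → Sep 0 b1 rest →
    b1 + rest.sum = n → Λ (b1 :: rest) = Λ [n] * (base b1 (rest.map (↑)) : ℤ)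

/-- evaluation of words (piece COMB proves `S_COMB0 → S_COMB`) -/
def S_COMB : Prop := ∀ (n : ℕ) (Λ : List ℕ → ℚ), LamRules n Λ →
  ∀ (a1 : ℕ) (rest q : List ℕ), 3 ≤ a1 → (∀ x ∈ rest, 3 ≤ x) → (∀ y ∈ q, 3 ≤ y) →
    q.Pairwise (· ≤ ·) → (∀ x ∈ a1 :: rest, ∀ y ∈ q, y ≤ x) → Sep q.sum a1 rest →
    a1 + rest.sum + q.sum = n →
    Λ ((a1 :: rest) ++ q) = Λ [n] * (Phi ((a1 :: rest).map (↑)) (q.map (↑)) : ℤ)

/-- functional form of `base` -/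
def baseF {r : ℕ} (b : Fin r → ℤ) : ℤ :=
  ∏ i : Fin r, if (i : ℕ) = 0 then 1 else max ((∑ j : Fin r, if j < i then b j else 0) - b i) 0

/-- functional form of `Phi` -/
def PhiF {r : ℕ} : (Fin r → ℤ) → List ℤ → ℤ
  | a, [] => baseF a
  | a, q :: qs => ∑ i : Fin r, (a i - q) * PhiF (Function.update a i (a i + q)) qs

/-- list form versus functional form -/
def S_BRIDGE : Prop := ∀ (r : ℕ) (a : Fin (r + 1) → ℤ) (q : List ℤ),
  Phi (List.ofFn a) q = PhiF a q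

/-- the factor of an assignment `f` of the letters `q` to the slots -/
def Afac {r m : ℕ} (a : Fin r → ℤ) (q : Fin m → ℤ) (f : Fin m → Fin r) : ℤ :=
  ∏ j : Fin m, (a (f j) + (∑ l : Fin m, if l < j ∧ f l = f j then q l else 0) - q j)

/-- the sums of the slots -/
def psum {r m : ℕ} (q : Fin m → ℤ) (f : Fin m → Fin r) (i : Fin r) : ℤ :=
  ∑ j : Fin m, if f j = i then q j else 0

/-- expansion of `PhiF` -/
def S_R1 : Prop := ∀ (r m : ℕ) (a : Fin r → ℤ) (q : Fin m → ℤ),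
  PhiF a (List.ofFn q) = ∑ f : Fin m → Fin r, Afac a q f * baseF (fun i => a i + psum q f i)

/-- finite differences of products of affine functions and kinks -/
def S_KINK : Prop := ∀ (t m d M : ℕ), 1 ≤ M → m + 1 < d →
  ∀ (α : Fin m → ℤ) (β : Fin m → Fin t → ℤ) (y : Fin t → ℤ),
  let F : (Fin t → ℤ) → ℤ := fun j =>
    (∏ e : Fin m, (α e + ∑ i : Fin t, β e i * j i)) * ∏ i : Fin t, max (y i - M * j i) 0
  let D : ℤ := ∑ j : Fin t → Fin (d + 1),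
    (∏ i : Fin t, (-1) ^ (j i : ℕ) * (d.choose (j i : ℕ) : ℤ)) * F (fun i => ((j i : ℕ) : ℤ))
  ((∃ i, y i ≤ 0 ∨ (M : ℤ) * d ≤ y i) → D = 0) ∧
  ((∀ i, 0 < y i ∧ y i ≤ M) → D = (∏ e : Fin m, α e) * ∏ i : Fin t, y i)

/-! Parameters (`r' + 1` slots). -/

/-- the step -/
def HH (r' : ℕ) : ℕ := 2 ^ r' * (2 * r' + 4)

/-- the total weight of the `q` letters -/
def kk (r' L : ℕ) : ℕ := HH r' * ((r' + 1) * (r' + 2) * L)

/-- the weight `n` -/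
def nn (r' L : ℕ) : ℕ := kk r' L + 1 + 2 ^ r' * (20 * kk r' L)

/-- the `q` letters attached to `s` -/
def qv (r' L : ℕ) (s : Fin r' → Fin L) : Fin (r' + 1) → ℤ :=
  Fin.snoc (α := fun _ => ℤ) (fun i : Fin r' => (HH r' : ℤ) * (((i : ℕ) + 1) * L + (s i : ℕ)))
    ((kk r' L : ℤ) - ∑ i : Fin r', (HH r' : ℤ) * (((i : ℕ) + 1) * L + (s i : ℕ)))

/-- the lists `qv` are strictly increasing, sum to `kk`, entries divisible by `HH` and
at least `HH` -/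
def S_QV : Prop := ∀ (r' L : ℕ) (s : Fin r' → Fin L), 1 ≤ L →
  StrictMono (qv r' L s) ∧ (∑ i, qv r' L s i = kk r' L) ∧
  (∀ i, (HH r' : ℤ) ∣ qv r' L s i ∧ (HH r' : ℤ) ≤ qv r' L s i) ∧ 4 ≤ HH r' ∧
  2 * HH r' ≤ kk r' L

/-- admissible rows -/
def Adm (r' L : ℕ) (a : Fin (r' + 1) → ℤ) : Prop :=
  (∑ i, a i) + kk r' L = nn r' L ∧ 10 * (kk r' L : ℤ) ≤ a 0 ∧
  ∀ i : Fin (r' + 1), 0 < (i : ℕ) →
    |a i - ∑ j : Fin (r' + 1), if j < i then a j else 0| ≤ 2 * (kk r' L : ℤ)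

/-- for every `s0` a combination of admissible rows which isolates the column `s0`
(piece R3 proves `S_R1 → S_KINK → S_QV → S_R3`) -/
def S_R3 : Prop := ∀ (r' L : ℕ), 1 ≤ L → ∀ s0 : Fin r' → Fin L,
  ∃ (ι : Type) (_ : Fintype ι) (w : ι → ℤ) (a : ι → Fin (r' + 1) → ℤ),
    (∀ j, Adm r' L (a j)) ∧
    (∀ s : Fin r' → Fin L, s ≠ s0 → ∑ j, w j * PhiF (a j) (List.ofFn (qv r' L s)) = 0) ∧
    ∑ j, w j * PhiF (a j) (List.ofFn (qv r' L s0)) ≠ 0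

/-- admissible rows satisfy the hypotheses of `S_COMB` -/
def S_ADM : Prop := ∀ (r' L : ℕ), 1 ≤ L → ∀ a : Fin (r' + 1) → ℤ, Adm r' L a →
  ∀ s : Fin r' → Fin L, ∃ (a1 : ℕ) (rest q : List ℕ),
    ((a1 :: rest).map (fun x : ℕ => (x : ℤ)) = List.ofFn a) ∧
    (q.map (fun x : ℕ => (x : ℤ)) = List.ofFn (qv r' L s)) ∧
    3 ≤ a1 ∧ (∀ x ∈ rest, 3 ≤ x) ∧ (∀ y ∈ q, 3 ≤ y) ∧
    q.Pairwise (· ≤ ·) ∧ (∀ x ∈ a1 :: rest, ∀ y ∈ q, y ≤ x) ∧ Sep q.sum a1 rest ∧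
    a1 + rest.sum + q.sum = nn r' L

/-- lower bound for Nickel's module (piece LB proves
`S_RULES → S_COMB → S_BRIDGE → S_QV → S_R3 → S_ADM → S_LB`) -/
def S_LB : Prop := ∀ (r' L : ℕ), 1 ≤ L → ∀ (G : Type) [Group G] (W : WData (nn r' L) G)
  (a : Fin (nn r' L) → G) (ha : IsMalcevBasis a), Forced W a →
    ((L ^ r' : ℕ) : Cardinal) ≤ Module.rank ℚ (nickelModule a ha)

/-- growth -/
def S_GROW : Prop := ∀ p : Polynomial ℝ, ∃ r' L : ℕ, 1 ≤ L ∧ 3 ≤ nn r' L ∧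
  p.eval ((nn r' L : ℕ) : ℝ) < ((L ^ r' : ℕ) : ℝ)

end NK639
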